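import Pool.Agent.Run7.h3.GT.Box

set_option autoImplicit false
set_option linter.unusedSectionVars false
set_option linter.unusedVariables false

/-! The number of the algebraic integers in a box and in a residue class. -/

namespace Run7.h3.OM

open Finset Module NumberField Run7.h3.GT

section

variable (F : Type) [Field F] [NumberField F]

theorem norm_le_of_mem {z : 𝓞 F} {X : ℝ} (hX : z ∈ bxs F X) :
    (|Algebra.norm ℤ z| : ℝ) ≤ X ^ finrank ℚ F := by
  have h1 : (|Algebra.norm ℤ z| : ℝ) = |(Algebra.norm ℚ (z : F) : ℝ)| := by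
    rw [← Algebra.coe_norm_int z]
    push_cast
    rfl
  have h2 : |(Algebra.norm ℚ (z : F) : ℝ)| = ∏ w : InfinitePlace F, w (z : F) ^ w.mult := by
    rw [InfinitePlace.prod_eq_abs_norm]
    push_cast
    rfl
  rw [h1, h2, ← InfinitePlace.sum_mult_eq, ← prod_pow_eq_pow_sum]
  exact prod_le_prod (fun w _ => pow_nonneg (apply_nonneg w _) _) fun w _ =>
    pow_le_pow_left₀ (apply_nonneg w _) (hX w) _

/-- a nonzero element of an ideal is large -/
theorem nrm_ge {I : Ideal (𝓞 F)} {z : 𝓞 F} (hz : z ∈ I) (hz0 : z ≠ 0) {X : ℝ}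
    (hX : z ∈ bxs F X) : (Ideal.absNorm I : ℝ) ≤ X ^ finrank ℚ F := by
  have h1 : ((Ideal.absNorm I : ℕ) : ℤ) ∣ Algebra.norm ℤ z := Ideal.absNorm_dvd_norm_of_mem hz
  have h2 : Algebra.norm ℤ z ≠ 0 := Algebra.norm_ne_zero_iff.2 hz0
  have h3 : ((Ideal.absNorm I : ℕ) : ℤ) ≤ |Algebra.norm ℤ z| :=
    Int.le_of_dvd (abs_pos.2 h2) ((dvd_abs _ _).2 h1)
  have h4 : ((Ideal.absNorm I : ℕ) : ℝ) ≤ (|Algebra.norm ℤ z| : ℤ) := by exact_mod_cast h3
  refine h4.trans ?_
  push_cast
  exact norm_le_of_mem F hX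

theorem bxs_add {x y : 𝓞 F} {X Y : ℝ} (hx : x ∈ bxs F X) (hy : y ∈ bxs F Y) :
    x + y ∈ bxs F (X + Y) := by
  intro w
  have h1 : ((x + y : 𝓞 F) : F) = (x : F) + (y : F) := map_add (algebraMap (𝓞 F) F) x y
  rw [h1]
  exact (w.1.add_le _ _).trans (add_le_add (hx w) (hy w))

theorem bxs_sub {x y : 𝓞 F} {X Y : ℝ} (hx : x ∈ bxs F X) (hy : y ∈ bxs F Y) :
    x - y ∈ bxs F (X + Y) := by
  have hy' : -y ∈ bxs F Y := by
    intro w
    have h1 : ((-y : 𝓞 F) : F) = -(y : F) := map_neg (algebraMap (𝓞 F) F) y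
    rw [h1]
    have h2 : w (-(y : F)) = w (y : F) := w.1.map_neg _
    rw [h2]
    exact hy w
  rw [sub_eq_add_neg]
  exact bxs_add F hx hy'

/-- the number of algebraic integers in a box and in a residue class -/
theorem cls : ∃ C : ℝ, 1 ≤ C ∧ ∀ (X : ℝ), 1 ≤ X → ∀ (I : Ideal (𝓞 F)) (a : 𝓞 F),
    ({y ∈ bxs F X | y - a ∈ I}.ncard : ℝ) ≤ C * (1 + X ^ finrank ℚ F / (Ideal.absNorm I : ℝ)) := by
  classical
  obtain ⟨C, hC, hup⟩ := bxs_upper F
  obtain ⟨c, hc, hlow⟩ := bxs_lower F
  set e := finrank ℚ F with he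
  have he0 : 0 < e := finrank_pos
  refine ⟨max 1 (max (C * 4 ^ e) (C / c * 2 ^ e * 4 ^ e)), le_max_left _ _, fun X hX I a => ?_⟩
  set K := max 1 (max (C * 4 ^ e) (C / c * 2 ^ e * 4 ^ e)) with hK
  have hK1 : 1 ≤ K := le_max_left _ _
  have hK2 : C * 4 ^ e ≤ K := (le_max_left _ _).trans (le_max_right _ _)
  have hK3 : C / c * 2 ^ e * 4 ^ e ≤ K := (le_max_right _ _).trans (le_max_right _ _)
  have hX0 : 0 ≤ X := by linarith
  have hXe : 0 ≤ X ^ e := by positivity
  rcases eq_or_ne I ⊥ with hI | hI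
  · have h1 : {y ∈ bxs F X | y - a ∈ I}.ncard ≤ 1 := by
      refine (Set.ncard_le_one ?_).2 ?_
      · exact (hup X hX0).1.subset fun y hy => hy.1
      · rintro y ⟨_, hy⟩ z ⟨_, hz⟩
        rw [hI, Ideal.mem_bot, sub_eq_zero] at hy hz
        rw [hy, hz]
    have h2 : ({y ∈ bxs F X | y - a ∈ I}.ncard : ℝ) ≤ 1 := by exact_mod_cast h1
    have h3 : 0 ≤ X ^ e / (Ideal.absNorm I : ℝ) := by positivity
    nlinarith
  · have hN0 : 0 < Ideal.absNorm I := Nat.pos_of_ne_zero (Ideal.absNorm_ne_zero_iff_mem_nonZeroDivisors.2 (mem_nonZeroDivisors_iff_ne_zero.2 hI))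
    have hN : (0 : ℝ) < (Ideal.absNorm I : ℝ) := by exact_mod_cast hN0
    set N : ℝ := (Ideal.absNorm I : ℝ) with hNdef
    set r : ℝ := N ^ ((1 : ℝ) / e) / 4 with hr
    have hr0 : 0 < r := by positivity
    have hre : r ^ e = N / 4 ^ e := by
      rw [hr, div_pow, ← Real.rpow_natCast (N ^ ((1 : ℝ) / e)) e, ← Real.rpow_mul hN.le]
      congr 1
      rw [one_div, inv_mul_cancel₀ (by positivity), Real.rpow_one]
    rcases lt_or_ge r 1 with h | h
    · have h1 : N < 4 ^ e := by
        have h2 : r ^ e < 1 := pow_lt_one₀ hr0.le h he0.ne'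
        rw [hre, div_lt_one (by positivity)] at h2
        exact h2
      have h2 : ({y ∈ bxs F X | y - a ∈ I}.ncard : ℝ) ≤ C * X ^ e := by
        have h3 : {y ∈ bxs F X | y - a ∈ I}.ncard ≤ (bxs F X).ncard :=
          Set.ncard_le_ncard (fun y hy => hy.1) (hup X hX0).1
        have h4 := (hup X hX0).2
        rw [max_eq_right hX] at h4
        exact (Nat.cast_le.2 h3).trans h4
      refine h2.trans ?_
      have h5 : C * X ^ e ≤ C * 4 ^ e * (X ^ e / N) := by
        rw [mul_div_assoc', le_div_iff₀ hN]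
        have : C * X ^ e * N ≤ C * X ^ e * 4 ^ e := mul_le_mul_of_nonneg_left h1.le (by positivity)
        linarith
      have h6 : C * 4 ^ e * (X ^ e / N) ≤ K * (X ^ e / N) :=
        mul_le_mul_of_nonneg_right hK2 (by positivity)
      linarith
    · have hfS : {y ∈ bxs F X | y - a ∈ I}.Finite := (hup X hX0).1.subset fun y hy => hy.1
      have hfr := (hup r hr0.le).1
      have hfXr := (hup (X + r) (by linarith)).1
      have hinj : Set.InjOn (fun p : 𝓞 F × 𝓞 F => p.1 + p.2)
          ({y ∈ bxs F X | y - a ∈ I} ×ˢ bxs F r) := by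
        rintro ⟨y, b⟩ ⟨hy, hb⟩ ⟨y', b'⟩ ⟨hy', hb'⟩ h1
        simp only at h1 hy hy' hb hb'
        have h2 : y - y' = b' - b := by linear_combination h1
        have h3 : y - y' ∈ I := by
          have := I.sub_mem hy.2 hy'.2
          rwa [sub_sub_sub_cancel_right] at this
        have h4 : y - y' ∈ bxs F (r + r) := by
          rw [h2]
          exact bxs_sub F hb' hb
        have h5 : y - y' = 0 := by
          by_contra h6
          have h7 := nrm_ge F h3 h6 h4
          rw [← he] at h7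
          have h8 : (r + r) ^ e < N := by
            rw [← two_mul, mul_pow, hre]
            rw [mul_div_assoc', div_lt_iff₀ (by positivity), mul_comm]
            refine mul_lt_mul_of_pos_left ?_ hN
            exact pow_lt_pow_left₀ (by norm_num) (by norm_num) he0.ne'
          linarith
        have h6 : y = y' := sub_eq_zero.1 h5
        subst h6
        have h7 : b = b' := by linear_combination h1
        rw [h7]
      have hmaps : Set.MapsTo (fun p : 𝓞 F × 𝓞 F => p.1 + p.2)
          ({y ∈ bxs F X | y - a ∈ I} ×ˢ bxs F r) (bxs F (X + r)) := by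
        rintro ⟨y, b⟩ ⟨hy, hb⟩
        exact bxs_add F hy.1 hb
      have h1 := Set.ncard_le_ncard_of_injOn _ hmaps hinj hfXr
      rw [Set.ncard_prod] at h1
      have h2 : ({y ∈ bxs F X | y - a ∈ I}.ncard : ℝ) * ((bxs F r).ncard : ℝ) ≤
          C * (X + r) ^ e := by
        have h3 := (hup (X + r) (by linarith)).2
        rw [max_eq_right (by linarith)] at h3
        have h4 : (({y ∈ bxs F X | y - a ∈ I}.ncard * (bxs F r).ncard : ℕ) : ℝ) ≤
            ((bxs F (X + r)).ncard : ℝ) := by exact_mod_cast h1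
        push_cast at h4
        exact h4.trans h3
      have h3 := hlow r h
      have h4 : ({y ∈ bxs F X | y - a ∈ I}.ncard : ℝ) * (c * r ^ e) ≤ C * (X + r) ^ e :=
        (mul_le_mul_of_nonneg_left h3 (Nat.cast_nonneg _)).trans h2
      have h5 : (X + r) ^ e ≤ 2 ^ e * (X ^ e + r ^ e) := by
        rcases le_total X r with h6 | h6
        · calc (X + r) ^ e ≤ (2 * r) ^ e := pow_le_pow_left₀ (by linarith) (by linarith) _
            _ = 2 ^ e * r ^ e := mul_pow _ _ _
            _ ≤ _ := mul_le_mul_of_nonneg_left (by linarith) (by positivity)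
        · calc (X + r) ^ e ≤ (2 * X) ^ e := pow_le_pow_left₀ (by linarith) (by linarith) _
            _ = 2 ^ e * X ^ e := mul_pow _ _ _
            _ ≤ _ := mul_le_mul_of_nonneg_left (by have : 0 ≤ r ^ e := by positivity
                                                   linarith) (by positivity)
      have hrpos : 0 < r ^ e := by positivity
      have h6 : ({y ∈ bxs F X | y - a ∈ I}.ncard : ℝ) ≤ C / c * 2 ^ e * (1 + X ^ e / r ^ e) := by
        have h7 : ({y ∈ bxs F X | y - a ∈ I}.ncard : ℝ) * (c * r ^ e) ≤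
            (C / c * 2 ^ e * (1 + X ^ e / r ^ e)) * (c * r ^ e) := by
          refine h4.trans ((mul_le_mul_of_nonneg_left h5 (by linarith)).trans (le_of_eq ?_))
          field_simp
          ring
        exact le_of_mul_le_mul_right h7 (by positivity)
      refine h6.trans ?_
      have h7 : X ^ e / r ^ e = 4 ^ e * (X ^ e / N) := by
        rw [hre]
        field_simp
      have h8 : (1 : ℝ) ≤ 4 ^ e := one_le_pow₀ (by norm_num)
      have h9 : 0 ≤ X ^ e / N := by positivity
      have h10 : 0 ≤ C / c * 2 ^ e := by positivity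
      rw [h7]
      calc C / c * 2 ^ e * (1 + 4 ^ e * (X ^ e / N)) ≤
          C / c * 2 ^ e * (4 ^ e * (1 + X ^ e / N)) :=
            mul_le_mul_of_nonneg_left (by nlinarith) h10
        _ = C / c * 2 ^ e * 4 ^ e * (1 + X ^ e / N) := by ring
        _ ≤ K * (1 + X ^ e / N) := mul_le_mul_of_nonneg_right hK3 (by positivity)

end

end Run7.h3.OM
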