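import Pool.Agent.Run7.h3.OM.Fib0

set_option autoImplicit false
set_option linter.unusedSectionVars false
set_option linter.unusedVariables false

/-! Equivalent good matrices differ by one of finitely many transformations. -/

namespace Run7.h3.OM

open Finset Module NumberField Run7.h3.GT

section

variable {F : Type} [Field F] [NumberField F] {ι s : Type} [Fintype ι] [DecidableEq ι]
  [Fintype s] [DecidableEq s] {k : ℕ}

theorem exch' (hk : 2 ≤ k) (hki : k + 2 ≤ Fintype.card ι) (h5 : 5 ≤ Fintype.card ι) {i i' : ι}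
    (hii : i ≠ i') (B B' : Set ι) : ∃ (l₀ : Fin k) (f f' : Fin k → ι), Function.Injective f ∧
    Function.Injective f' ∧ f l₀ = i ∧ f' l₀ = i' ∧ (∀ l, l ≠ l₀ → f' l = f l) ∧
    Set.range f ≠ B ∧ Set.range f ≠ B' ∧ Set.range f' ≠ B ∧ Set.range f' ≠ B' := by
  obtain ⟨k', rfl, G, hG, hGi, h1, h2, h3, h4⟩ := exch hk hki h5 hii B B'
  refine ⟨0, Fin.cons i G, Fin.cons i' G, ?_, ?_, rfl, rfl, ?_, ?_⟩
  · exact Fin.cons_injective_iff.2 ⟨fun ⟨j, hj⟩ => (hGi j).1 hj, hG⟩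
  · exact Fin.cons_injective_iff.2 ⟨fun ⟨j, hj⟩ => (hGi j).2 hj, hG⟩
  · intro l hl
    obtain ⟨j, rfl⟩ := Fin.exists_succ_eq.2 hl
    rfl
  · rw [Fin.range_cons, Fin.range_cons]
    exact ⟨h1, h2, h3, h4⟩

/-- good matrices -/
structure Gd (A : Matrix (Fin k) ι ℤ) (β : ι → s) (C : ℝ) (ρ : s → ℝ)
    (V : Matrix (Fin k) ι (𝓞 F)) : Prop where
  nm : ∃ Dt : (Fin k → ι) → 𝓞 F, (∀ f, Function.Injective f →
    mnr V f = ((mnr A f : ℤ) : 𝓞 F) * Dt f) ∧ ∀ p : Ideal (𝓞 F), p.IsMaximal →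
      ∀ f g : Fin k → ι, Function.Injective f → Function.Injective g →
        Set.range f ≠ Set.range g → ¬ (Dt f ∈ p ∧ Dt g ∈ p)
  up : ∀ (w : InfinitePlace F) j i, w ((V j i : 𝓞 F) : F) ≤ C * ρ (β i)
  lo : ∀ (w : InfinitePlace F) f, Function.Injective f →
    ∏ l, ρ (β (f l)) ≤ C * w ((mnr V f : 𝓞 F) : F)

/-- the data of a relation between two good matrices -/
structure Dat (A : Matrix (Fin k) ι ℤ) (β : ι → s) (C : ℝ) (ρ ρ' : s → ℝ)
    (V V' : Matrix (Fin k) ι (𝓞 F)) (g : Matrix (Fin k) (Fin k) F) (t : s → F) : Prop where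
  hC : 1 ≤ C
  hρ : ∀ b, 0 < ρ b
  hρ' : ∀ b, 0 < ρ' b
  hA : ∀ f, Function.Injective f → mnr A f ≠ 0
  hV : Gd A β C ρ V
  hV' : Gd A β C ρ' V'
  hg : g.det ≠ 0
  ht : ∀ b, t b ≠ 0
  rel : V'.map (algebraMap (𝓞 F) F) = g * V.map (algebraMap (𝓞 F) F) * Matrix.diagonal fun i => t (β i)

variable {A : Matrix (Fin k) ι ℤ} {β : ι → s} {C : ℝ} {ρ ρ' : s → ℝ}
  {V V' : Matrix (Fin k) ι (𝓞 F)} {g : Matrix (Fin k) (Fin k) F} {t : s → F}

theorem Gd.avoid (hV : Gd A β C ρ V) {Dt : (Fin k → ι) → 𝓞 F}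
    (hDt : ∀ p : Ideal (𝓞 F), p.IsMaximal →
      ∀ f g : Fin k → ι, Function.Injective f → Function.Injective g →
        Set.range f ≠ Set.range g → ¬ (Dt f ∈ p ∧ Dt g ∈ p)) (p : Ideal (𝓞 F)) (hp : p.IsMaximal) :
    ∃ B : Set ι, ∀ f : Fin k → ι, Function.Injective f → Set.range f ≠ B → Dt f ∉ p := by
  by_cases h : ∃ f : Fin k → ι, Function.Injective f ∧ Dt f ∈ p
  · obtain ⟨f₀, h1, h2⟩ := h
    exact ⟨Set.range f₀, fun f hf hr h3 => hDt p hp f f₀ hf h1 hr ⟨h3, h2⟩⟩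
  · push Not at h
    exact ⟨∅, fun f hf _ => h f hf⟩

theorem Dat.mnr_eq (h : Dat A β C ρ ρ' V V' g t) (f : Fin k → ι) :
    ((mnr V' f : 𝓞 F) : F) = g.det * (∏ l, t (β (f l))) * ((mnr V f : 𝓞 F) : F) := by
  rw [mnr_coe, mnr_coe, h.rel]
  have h1 : g * V.map (algebraMap (𝓞 F) F) * Matrix.diagonal (fun i => t (β i)) =
      Matrix.of fun j i => (g * V.map (algebraMap (𝓞 F) F)) j i * t (β i) := by
    ext j i
    rw [Matrix.mul_diagonal]
    rfl
  rw [h1, mnr_scale _ (fun i => t (β i)), mnr_mul]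
  ring

theorem Dat.Dt_eq (h : Dat A β C ρ ρ' V V' g t) {Dt Dt' : (Fin k → ι) → 𝓞 F}
    (h1 : ∀ f, Function.Injective f → mnr V f = ((mnr A f : ℤ) : 𝓞 F) * Dt f)
    (h2 : ∀ f, Function.Injective f → mnr V' f = ((mnr A f : ℤ) : 𝓞 F) * Dt' f)
    {f : Fin k → ι} (hf : Function.Injective f) :
    ((Dt' f : 𝓞 F) : F) = g.det * (∏ l, t (β (f l))) * ((Dt f : 𝓞 F) : F) := by
  have h3 := h.mnr_eq f
  rw [h1 f hf, h2 f hf, cmul, cmul] at h3
  have h4 : ((((mnr A f : ℤ) : 𝓞 F)) : F) ≠ 0 := by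
    have h5 : ((((mnr A f : ℤ) : 𝓞 F)) : F) = ((mnr A f : ℤ) : F) := by
      push_cast
      rfl
    rw [h5]
    exact_mod_cast h.hA f hf
  apply mul_left_cancel₀ h4
  rw [h3]
  ring

/-- the quotients of the scalings are integral -/
theorem Dat.quot (h : Dat A β C ρ ρ' V V' g t) (hk : 2 ≤ k) (hki : k + 2 ≤ Fintype.card ι)
    (h5 : 5 ≤ Fintype.card ι) (i i' : ι) : ∃ z : 𝓞 F, t (β i) / t (β i') = (z : F) := by
  rcases eq_or_ne i i' with rfl | hii
  · exact ⟨1, by rw [div_self (h.ht _), cone]⟩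
  obtain ⟨Dt, h1, h1'⟩ := h.hV.nm
  obtain ⟨Dt', h2, h2'⟩ := h.hV'.nm
  refine intg fun p hp => ?_
  obtain ⟨B, hB⟩ := h.hV.avoid h1' p hp
  obtain ⟨B', hB'⟩ := h.hV'.avoid h2' p hp
  obtain ⟨l₀, f, f', hf, hf', hfi, hfi', hff, r1, r2, r3, r4⟩ := exch' hk hki h5 hii B B'
  refine ⟨Dt f * Dt' f', ?_, Dt f' * Dt' f, ?_⟩
  · intro h6
    rcases hp.isPrime.mem_or_mem h6 with h7 | h7
    · exact hB f hf r1 h7
    · exact hB' f' hf' r4 h7
  · rw [cmul, cmul, h.Dt_eq h1 h2 hf, h.Dt_eq h1 h2 hf']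
    have e1 : ∏ l, t (β (f l)) = t (β i) * ∏ l ∈ univ.erase l₀, t (β (f l)) := by
      rw [← mul_prod_erase univ (fun l => t (β (f l))) (mem_univ l₀), hfi]
    have e2 : ∏ l, t (β (f' l)) = t (β i') * ∏ l ∈ univ.erase l₀, t (β (f l)) := by
      rw [← mul_prod_erase univ (fun l => t (β (f' l))) (mem_univ l₀), hfi']
      congr 1
      exact prod_congr rfl fun l hl => by rw [hff l (mem_erase.1 hl).1]
    rw [e1, e2]
    have := h.ht (β i')
    field_simp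

/-- the determinant of the normalised transformation is a unit -/
theorem Dat.det_int (h : Dat A β C ρ ρ' V V' g t) (hk : 2 ≤ k) (hki : k + 2 ≤ Fintype.card ι)
    (h5 : 5 ≤ Fintype.card ι) (i₀ : ι) :
    (∃ z : 𝓞 F, g.det * t (β i₀) ^ k = (z : F)) ∧
    (∃ z : 𝓞 F, (g.det * t (β i₀) ^ k)⁻¹ = (z : F)) := by
  obtain ⟨Dt, h1, h1'⟩ := h.hV.nm
  obtain ⟨Dt', h2, h2'⟩ := h.hV'.nm
  have ht0 := h.ht (β i₀)
  have hg0 := h.hg
  have hq : ∀ i, ∃ z : 𝓞 F, t (β i) / t (β i₀) = (z : F) := fun i => h.quot hk hki h5 i i₀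
  have hq' : ∀ i, ∃ z : 𝓞 F, t (β i₀) / t (β i) = (z : F) := fun i => h.quot hk hki h5 i₀ i
  choose z hz using hq
  choose z' hz' using hq'
  have hzz : ∀ i, z i * z' i = 1 := by
    intro i
    apply RingOfIntegers.ext
    rw [cmul, ← hz, ← hz', cone]
    have := h.ht (β i)
    field_simp
  have hzp : ∀ (p : Ideal (𝓞 F)), p.IsMaximal → ∀ i, z i ∉ p := by
    intro p hp i hzi
    have := p.mul_mem_right (z' i) hzi
    rw [hzz] at this
    exact hp.ne_top ((Ideal.eq_top_iff_one _).2 this)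
  -- a minor prime to p
  have hex : ∀ (p : Ideal (𝓞 F)), p.IsMaximal → ∃ f : Fin k → ι, Function.Injective f ∧
      Dt f ∉ p ∧ Dt' f ∉ p := by
    intro p hp
    obtain ⟨B, hB⟩ := h.hV.avoid h1' p hp
    obtain ⟨B', hB'⟩ := h.hV'.avoid h2' p hp
    obtain ⟨i', hi'⟩ : ∃ i' : ι, i₀ ≠ i' := by
      have : 1 < Fintype.card ι := by omega
      obtain ⟨i', hi'⟩ := Fintype.exists_ne_of_one_lt_card this i₀
      exact ⟨i', hi'.symm⟩
    obtain ⟨l₀, f, f', hf, hf', hfi, hfi', hff, r1, r2, r3, r4⟩ := exch' hk hki h5 hi' B B'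
    exact ⟨f, hf, hB f hf r1, hB' f hf r2⟩
  have key : ∀ f : Fin k → ι, Function.Injective f →
      ((Dt' f : 𝓞 F) : F) = (g.det * t (β i₀) ^ k) * (((∏ l, z (f l)) * Dt f : 𝓞 F) : F) := by
    intro f hf
    rw [h.Dt_eq h1 h2 hf, cmul]
    have e1 : (((∏ l, z (f l) : 𝓞 F)) : F) = ∏ l, (t (β (f l)) / t (β i₀)) := by
      show algebraMap (𝓞 F) F (∏ l, z (f l)) = _
      rw [map_prod]
      exact prod_congr rfl fun l _ => (hz (f l)).symm
    rw [e1, prod_div_distrib, prod_const, card_univ, Fintype.card_fin]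
    field_simp
  refine ⟨intg fun p hp => ?_, intg fun p hp => ?_⟩
  · obtain ⟨f, hf, h3, h4⟩ := hex p hp
    refine ⟨(∏ l, z (f l)) * Dt f, ?_, Dt' f, ?_⟩
    · intro h6
      rcases hp.isPrime.mem_or_mem h6 with h7 | h7
      · rw [hp.isPrime.prod_mem_iff] at h7
        obtain ⟨l, _, h8⟩ := h7
        exact hzp p hp _ h8
      · exact h3 h7
    · rw [key f hf, mul_comm]
  · obtain ⟨f, hf, h3, h4⟩ := hex p hp
    refine ⟨Dt' f, h4, (∏ l, z (f l)) * Dt f, ?_⟩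
    rw [key f hf]
    have h6 : g.det * t (β i₀) ^ k ≠ 0 := mul_ne_zero hg0 (pow_ne_zero _ ht0)
    field_simp

/-- the square parts -/
theorem Dat.sq (h : Dat A β C ρ ρ' V V' g t) (i₀ : ι) (f : Fin k → ι) (j l : Fin k) :
    ((mnr V f : 𝓞 F) : F) * (t (β i₀) * g j l) =
      ∑ m, ((V' j (f m) : 𝓞 F) : F) * (t (β i₀) / t (β (f m))) *
        ((((V.submatrix id f).adjugate m l : 𝓞 F)) : F) := by
  set M : Matrix (Fin k) (Fin k) F := (V.submatrix id f).map (algebraMap (𝓞 F) F) with hM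
  have e1 : M.adjugate = (V.submatrix id f).adjugate.map (algebraMap (𝓞 F) F) := by
    rw [hM]
    exact (RingHom.map_adjugate (algebraMap (𝓞 F) F) (V.submatrix id f)).symm
  have e2 : M.det = ((mnr V f : 𝓞 F) : F) := by
    rw [hM]
    exact (RingHom.map_det (algebraMap (𝓞 F) F) (V.submatrix id f)).symm
  have e3 : ∀ m, ((V' j (f m) : 𝓞 F) : F) = (g * M) j m * t (β (f m)) := by
    intro m
    have h1 := congrFun (congrFun h.rel j) (f m)
    rw [Matrix.mul_diagonal] at h1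
    exact h1
  have e4 : ∑ m, (g * M) j m * M.adjugate m l = g j l * M.det := by
    have h1 : (g * M * M.adjugate) j l = g j l * M.det := by
      rw [Matrix.mul_assoc, Matrix.mul_adjugate, Matrix.mul_smul, Matrix.mul_one, Matrix.smul_apply,
        smul_eq_mul, mul_comm]
    rw [← h1, Matrix.mul_apply]
  rw [← e2]
  calc M.det * (t (β i₀) * g j l) = t (β i₀) * (g j l * M.det) := by ring
    _ = t (β i₀) * ∑ m, (g * M) j m * M.adjugate m l := by rw [e4]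
    _ = ∑ m, t (β i₀) * ((g * M) j m * M.adjugate m l) := mul_sum _ _ _
    _ = _ := by
      refine sum_congr rfl fun m _ => ?_
      rw [e3 m, e1]
      have := h.ht (β (f m))
      simp only [Matrix.map_apply]
      field_simp

/-- the transformation is integral up to a fixed denominator -/
theorem Dat.h_int (h : Dat A β C ρ ρ' V V' g t) (hk : 2 ≤ k) (hki : k + 2 ≤ Fintype.card ι)
    (h5 : 5 ≤ Fintype.card ι) (i₀ : ι) {D : ℤ} (hD : ∀ f, Function.Injective f → mnr A f ∣ D)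
    (j l : Fin k) : ∃ z : 𝓞 F, (D : F) * (t (β i₀) * g j l) = (z : F) := by
  obtain ⟨Dt, h1, h1'⟩ := h.hV.nm
  refine intg fun p hp => ?_
  obtain ⟨B, hB⟩ := h.hV.avoid h1' p hp
  obtain ⟨i', hi'⟩ : ∃ i' : ι, i₀ ≠ i' := by
    have : 1 < Fintype.card ι := by omega
    obtain ⟨i', hi'⟩ := Fintype.exists_ne_of_one_lt_card this i₀
    exact ⟨i', hi'.symm⟩
  obtain ⟨l₀, f, f', hf, hf', hfi, hfi', hff, r1, r2, r3, r4⟩ := exch' hk hki h5 hi' B B
  have hq' : ∀ i, ∃ z : 𝓞 F, t (β i₀) / t (β i) = (z : F) := fun i => h.quot hk hki h5 i₀ i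
  choose z hz using hq'
  obtain ⟨D', hD'⟩ := hD f hf
  refine ⟨Dt f, hB f hf r1, (D' : 𝓞 F) * ∑ m, V' j (f m) * z (f m) *
    (V.submatrix id f).adjugate m l, ?_⟩
  have h2 := h.sq i₀ f j l
  have h3 : (((∑ m, V' j (f m) * z (f m) * (V.submatrix id f).adjugate m l : 𝓞 F)) : F) =
      ((mnr V f : 𝓞 F) : F) * (t (β i₀) * g j l) := by
    rw [h2]
    show algebraMap (𝓞 F) F (∑ m, V' j (f m) * z (f m) * (V.submatrix id f).adjugate m l) = _
    rw [map_sum]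
    refine sum_congr rfl fun m _ => ?_
    have h7 := cmul (V' j (f m) * z (f m)) ((V.submatrix id f).adjugate m l)
    have h8 := cmul (V' j (f m)) (z (f m))
    rw [hz]
    exact h7.trans (by rw [h8])
  rw [cmul, h3, h1 f hf, cmul]
  have h4 : ((((mnr A f : ℤ) : 𝓞 F)) : F) = ((mnr A f : ℤ) : F) := by
    push_cast
    rfl
  have h5' : (((D' : 𝓞 F)) : F) = ((D' : ℤ) : F) := by
    push_cast
    rfl
  rw [h4, h5', hD']
  push_cast
  ring

end

end Run7.h3.OM
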