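import Pool.Agent.Run7.h3.OM.Idl
import Pool.Agent.Run7.h3.GT.Final

set_option autoImplicit false
set_option linter.unusedSectionVars false
set_option linter.unusedVariables false

/-! Integrality; units; choices of columns. -/

namespace Run7.h3.OM

open Finset Module NumberField Run7.h3.GT

section

variable {F : Type} [Field F] [NumberField F]

/-- an element which is integral at every prime is integral -/
theorem intg {x : F} (h : ∀ p : Ideal (𝓞 F), p.IsMaximal → ∃ a : 𝓞 F, a ∉ p ∧ ∃ z : 𝓞 F,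
    (a : F) * x = (z : F)) : ∃ z : 𝓞 F, x = (z : F) := by
  set I : Ideal (𝓞 F) :=
    { carrier := {a : 𝓞 F | ∃ z : 𝓞 F, (a : F) * x = (z : F)}
      add_mem' := by
        rintro a b ⟨z, hz⟩ ⟨z', hz'⟩
        refine ⟨z + z', ?_⟩
        rw [cadd, cadd, add_mul, hz, hz']
      zero_mem' := ⟨0, by rw [czero, zero_mul]⟩
      smul_mem' := by
        rintro c a ⟨z, hz⟩
        refine ⟨c * z, ?_⟩
        rw [smul_eq_mul, cmul, cmul, mul_assoc, hz] } with hI
  have h1 : I = ⊤ := by
    by_contra h2
    obtain ⟨p, hp, hIp⟩ := Ideal.exists_le_maximal I h2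
    obtain ⟨a, ha, z, hz⟩ := h p hp
    exact ha (hIp ⟨z, hz⟩)
  have h2 : (1 : 𝓞 F) ∈ I := by rw [h1]; trivial
  obtain ⟨z, hz⟩ := h2
  refine ⟨z, ?_⟩
  rw [← hz, cone, one_mul]

/-- the product of the sizes of a unit -/
theorem unit_prod {z z' : 𝓞 F} (h : z * z' = 1) :
    ∏ w : InfinitePlace F, w (z : F) ^ w.mult = 1 := by
  have h1 : Algebra.norm ℤ z * Algebra.norm ℤ z' = 1 := by rw [← map_mul, h, map_one]
  have h2 : |Algebra.norm ℤ z| = 1 := by
    rw [← Int.isUnit_iff_abs_eq]
    exact IsUnit.of_mul_eq_one _ h1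
  rw [InfinitePlace.prod_eq_abs_norm, ← Algebra.coe_norm_int z]
  have h3 : |((Algebra.norm ℤ z : ℤ) : ℚ)| = ((|Algebra.norm ℤ z| : ℤ) : ℚ) := by push_cast; rfl
  rw [h3, h2]
  norm_num

end

section

variable {ι : Type} [Fintype ι] [DecidableEq ι] {k : ℕ}

theorem three_le_choose {m k : ℕ} (hk : 2 ≤ k) (hm : k ≤ m) (hm3 : 3 ≤ m) : 3 ≤ m.choose (k - 1) := by
  rcases Nat.lt_or_ge 2 k with h | h
  · obtain ⟨j, rfl⟩ : ∃ j, k = j + 1 := ⟨k - 1, by omega⟩
    have h1 : (j + 1).choose j ≤ m.choose j := Nat.choose_le_choose j hm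
    rw [Nat.choose_succ_self_right] at h1
    have h2 : j + 1 - 1 = j := rfl
    rw [h2]
    omega
  · have : k = 2 := by omega
    subst this
    rw [Nat.choose_one_right]
    exact hm3

/-- two minors which differ in one column, and which avoid two given sets of columns -/
theorem exch (hk : 2 ≤ k) (hki : k + 2 ≤ Fintype.card ι) (h5 : 5 ≤ Fintype.card ι) {i i' : ι}
    (hii : i ≠ i') (B B' : Set ι) : ∃ (k' : ℕ) (hk' : k = k' + 1) (G : Fin k' → ι),
    Function.Injective G ∧ (∀ j, G j ≠ i ∧ G j ≠ i') ∧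
    insert i (Set.range G) ≠ B ∧ insert i (Set.range G) ≠ B' ∧
    insert i' (Set.range G) ≠ B ∧ insert i' (Set.range G) ≠ B' := by
  classical
  set M : Finset ι := univ \ {i, i'} with hM
  have hMc : M.card = Fintype.card ι - 2 := by
    rw [hM, card_sdiff_of_subset (subset_univ _), card_univ, card_pair hii]
  set G₁ : Finset ι := (B \ {i, i'}).toFinset with hG₁
  set G₂ : Finset ι := (B' \ {i, i'}).toFinset with hG₂
  have h1 : ({G₁, G₂} : Finset (Finset ι)).card < (powersetCard (k - 1) M).card := by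
    rw [card_powersetCard, hMc]
    have h2 := three_le_choose (m := Fintype.card ι - 2) hk (by omega) (by omega)
    have h3 : ({G₁, G₂} : Finset (Finset ι)).card ≤ 2 := card_le_two
    omega
  obtain ⟨G, hG, hGn⟩ := exists_mem_notMem_of_card_lt_card h1
  rw [mem_powersetCard] at hG
  rw [mem_insert, mem_singleton, not_or] at hGn
  have hGi : i ∉ G := fun h => by
    have := hG.1 h
    rw [hM, mem_sdiff] at this
    exact this.2 (by simp)
  have hGi' : i' ∉ G := fun h => by
    have := hG.1 h
    rw [hM, mem_sdiff] at this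
    exact this.2 (by simp)
  obtain ⟨k', rfl⟩ : ∃ k', k = k' + 1 := ⟨k - 1, by omega⟩
  have hGc : G.card = k' := by
    have := hG.2
    omega
  set φ := G.equivFinOfCardEq hGc with hφ
  refine ⟨k', rfl, fun j => ((φ.symm j : G) : ι), ?_, ?_, ?_⟩
  · intro a b h
    exact φ.symm.injective (Subtype.ext h)
  · intro j
    have h2 : ((φ.symm j : G) : ι) ∈ G := (φ.symm j).2
    exact ⟨fun h => hGi (h ▸ h2), fun h => hGi' (h ▸ h2)⟩
  · have hr : Set.range (fun j => ((φ.symm j : G) : ι)) = (G : Set ι) := by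
      ext x
      constructor
      · rintro ⟨j, rfl⟩
        exact (φ.symm j).2
      · intro hx
        exact ⟨φ ⟨x, hx⟩, by simp⟩
    rw [hr]
    have key : ∀ (B : Set ι), G ≠ (B \ {i, i'}).toFinset → insert i (G : Set ι) ≠ B ∧
        insert i' (G : Set ι) ≠ B := by
      intro B hB
      refine ⟨fun h => hB ?_, fun h => hB ?_⟩
      · rw [← h]
        ext x
        simp only [Set.mem_toFinset, Set.mem_sdiff, Set.mem_insert_iff, Set.mem_singleton_iff,
          mem_coe, not_or]
        constructor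
        · intro hx
          exact ⟨Or.inr hx, fun h => hGi (h ▸ hx), fun h => hGi' (h ▸ hx)⟩
        · rintro ⟨h1 | h1, h2, h3⟩
          · exact absurd h1 h2
          · exact h1
      · rw [← h]
        ext x
        simp only [Set.mem_toFinset, Set.mem_sdiff, Set.mem_insert_iff, Set.mem_singleton_iff,
          mem_coe, not_or]
        constructor
        · intro hx
          exact ⟨Or.inr hx, fun h => hGi (h ▸ hx), fun h => hGi' (h ▸ hx)⟩
        · rintro ⟨h1 | h1, h2, h3⟩
          · exact absurd h1 h3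
          · exact h1
    exact ⟨(key B hGn.1).1, (key B' hGn.2).1, (key B hGn.1).2, (key B' hGn.2).2⟩

end

end Run7.h3.OM
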