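import Pool.Agent.Run7.h3.OM.Fib

set_option autoImplicit false
set_option linter.unusedSectionVars false
set_option linter.unusedVariables false

/-! The archimedean bounds for the transformations between good matrices. -/

namespace Run7.h3.OM

open Finset Module NumberField Run7.h3.GT

section

variable {F : Type} [Field F] [NumberField F]

theorem pl1 {u : F} (hu : ∏ w : InfinitePlace F, w u ^ w.mult = 1) {x c : ℝ} (hx : 0 ≤ x)
    (hc : 0 ≤ c) (h : ∀ w : InfinitePlace F, x ≤ c * w u) : x ≤ c := by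
  have h1 : x ^ finrank ℚ F ≤ c ^ finrank ℚ F := by
    rw [← InfinitePlace.sum_mult_eq, ← prod_pow_eq_pow_sum, ← prod_pow_eq_pow_sum]
    calc ∏ w : InfinitePlace F, x ^ w.mult ≤ ∏ w : InfinitePlace F, (c * w u) ^ w.mult :=
          prod_le_prod (fun w _ => by positivity) fun w _ => pow_le_pow_left₀ hx (h w) _
      _ = _ := by
          simp only [mul_pow]
          rw [prod_mul_distrib, hu, mul_one]
  exact le_of_pow_le_pow_left₀ (finrank_pos (R := ℚ) (M := F)).ne' hc h1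

theorem pl2 {u : F} (hu : ∏ w : InfinitePlace F, w u ^ w.mult = 1) {x c : ℝ} (hx : 0 ≤ x)
    (hc : 0 ≤ c) (h : ∀ w : InfinitePlace F, w u * x ≤ c) : x ≤ c := by
  have h1 : x ^ finrank ℚ F ≤ c ^ finrank ℚ F := by
    rw [← InfinitePlace.sum_mult_eq, ← prod_pow_eq_pow_sum, ← prod_pow_eq_pow_sum]
    calc ∏ w : InfinitePlace F, x ^ w.mult = ∏ w : InfinitePlace F, (w u * x) ^ w.mult := by
          simp only [mul_pow]
          rw [prod_mul_distrib, hu, one_mul]
      _ ≤ ∏ w : InfinitePlace F, c ^ w.mult :=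
          prod_le_prod (fun w _ => pow_nonneg (mul_nonneg (apply_nonneg w _) hx) _) fun w _ =>
            pow_le_pow_left₀ (mul_nonneg (apply_nonneg w _) hx) (h w) _
  exact le_of_pow_le_pow_left₀ (finrank_pos (R := ℚ) (M := F)).ne' hc h1

end

section

variable {F : Type} [Field F] [NumberField F] {ι s : Type} [Fintype ι] [DecidableEq ι]
  [Fintype s] [DecidableEq s] {k : ℕ}
variable {A : Matrix (Fin k) ι ℤ} {β : ι → s} {C : ℝ} {ρ ρ' : s → ℝ}
  {V V' : Matrix (Fin k) ι (𝓞 F)} {g : Matrix (Fin k) (Fin k) F} {t : s → F}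

/-- upper bound of the minors of a good matrix -/
theorem Gd.mup (hV : Gd A β C ρ V) (hC : 1 ≤ C) (hρ : ∀ b, 0 < ρ b) (w : InfinitePlace F)
    (f : Fin k → ι) : w ((mnr V f : 𝓞 F) : F) ≤ k.factorial * C ^ k * ∏ l, ρ (β (f l)) := by
  have h1 := det_bound w ((V.map (algebraMap (𝓞 F) F)).submatrix id f) (a := fun _ => 1)
    (b := fun l => C * ρ (β (f l))) (fun _ => zero_le_one)
    (fun l => by have := hρ (β (f l)); positivity)
    (fun j l => by rw [one_mul]; exact hV.up w j (f l))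
  rw [mnr_coe]
  refine h1.trans (le_of_eq ?_)
  rw [prod_const_one, one_mul, prod_mul_distrib, prod_const, card_univ, Fintype.card_fin]
  ring

theorem Dat.wmnr (h : Dat A β C ρ ρ' V V' g t) (w : InfinitePlace F) (f : Fin k → ι) :
    w ((mnr V' f : 𝓞 F) : F) =
      w g.det * (∏ l, w (t (β (f l)))) * w ((mnr V f : 𝓞 F) : F) := by
  rw [h.mnr_eq f, map_mul, map_mul, map_prod]

theorem Dat.i1 (h : Dat A β C ρ ρ' V V' g t) (w : InfinitePlace F) {f : Fin k → ι}
    (hf : Function.Injective f) :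
    w g.det * (∏ l, w (t (β (f l)))) * ∏ l, ρ (β (f l)) ≤
      (k.factorial * C ^ (k + 1)) * ∏ l, ρ' (β (f l)) := by
  have h2 := h.hV.lo w f hf
  have h3 := h.hV'.mup h.hC h.hρ' w f
  rw [h.wmnr] at h3
  have h4 : 0 ≤ w g.det * ∏ l, w (t (β (f l))) :=
    mul_nonneg (apply_nonneg _ _) (prod_nonneg fun _ _ => apply_nonneg _ _)
  have hC0 : 0 ≤ C := by linarith [h.hC]
  calc _ ≤ w g.det * (∏ l, w (t (β (f l)))) * (C * w ((mnr V f : 𝓞 F) : F)) :=
        mul_le_mul_of_nonneg_left h2 h4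
    _ = C * (w g.det * (∏ l, w (t (β (f l)))) * w ((mnr V f : 𝓞 F) : F)) := by ring
    _ ≤ C * (k.factorial * C ^ k * ∏ l, ρ' (β (f l))) := mul_le_mul_of_nonneg_left h3 hC0
    _ = _ := by ring

theorem Dat.i2 (h : Dat A β C ρ ρ' V V' g t) (w : InfinitePlace F) {f : Fin k → ι}
    (hf : Function.Injective f) :
    ∏ l, ρ' (β (f l)) ≤ (k.factorial * C ^ (k + 1)) *
      (w g.det * (∏ l, w (t (β (f l)))) * ∏ l, ρ (β (f l))) := by
  have h2 := h.hV'.lo w f hf
  have h3 := h.hV.mup h.hC h.hρ w f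
  rw [h.wmnr] at h2
  have h4 : 0 ≤ w g.det * ∏ l, w (t (β (f l))) :=
    mul_nonneg (apply_nonneg _ _) (prod_nonneg fun _ _ => apply_nonneg _ _)
  have hC0 : 0 ≤ C := by linarith [h.hC]
  calc _ ≤ C * (w g.det * (∏ l, w (t (β (f l)))) * w ((mnr V f : 𝓞 F) : F)) := h2
    _ ≤ C * (w g.det * (∏ l, w (t (β (f l)))) * (k.factorial * C ^ k * ∏ l, ρ (β (f l)))) :=
        mul_le_mul_of_nonneg_left (mul_le_mul_of_nonneg_left h3 h4) hC0
    _ = _ := by ring

theorem wpos (w : InfinitePlace F) {x : F} (hx : x ≠ 0) : 0 < w x := (InfinitePlace.pos_iff).2 hx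

/-- exchange of two columns -/
theorem Dat.ex (h : Dat A β C ρ ρ' V V' g t) (hk : 2 ≤ k) (hki : k + 2 ≤ Fintype.card ι)
    (h5 : 5 ≤ Fintype.card ι) (w : InfinitePlace F) (i i' : ι) :
    w (t (β i)) * ρ (β i) * ρ' (β i') ≤ (k.factorial * C ^ (k + 1)) ^ 2 *
      (w (t (β i')) * ρ (β i') * ρ' (β i)) := by
  have hK1 : (1 : ℝ) ≤ k.factorial * C ^ (k + 1) := by
    have h1 : (1 : ℝ) ≤ k.factorial := by exact_mod_cast Nat.factorial_pos k
    have h2 : (1 : ℝ) ≤ C ^ (k + 1) := one_le_pow₀ h.hC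
    nlinarith
  rcases eq_or_ne i i' with rfl | hii
  · have h1 : 0 ≤ w (t (β i)) * ρ (β i) * ρ' (β i) :=
      mul_nonneg (mul_nonneg (apply_nonneg _ _) (h.hρ _).le) (h.hρ' _).le
    have h2 : (1 : ℝ) ≤ (k.factorial * C ^ (k + 1)) ^ 2 := one_le_pow₀ hK1
    nlinarith
  obtain ⟨l₀, f, f', hf, hf', hfi, hfi', hff, -⟩ := exch' hk hki h5 hii ∅ ∅
  have e1 : ∀ φ : ι → ℝ, ∏ l, φ (f l) = φ i * ∏ l ∈ univ.erase l₀, φ (f l) := fun φ => by
    rw [← mul_prod_erase univ (fun l => φ (f l)) (mem_univ l₀), hfi]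
  have e2 : ∀ φ : ι → ℝ, ∏ l, φ (f' l) = φ i' * ∏ l ∈ univ.erase l₀, φ (f l) := fun φ => by
    rw [← mul_prod_erase univ (fun l => φ (f' l)) (mem_univ l₀), hfi']
    congr 1
    exact prod_congr rfl fun l hl => by rw [hff l (mem_erase.1 hl).1]
  have h1 := h.i1 w hf
  have h2 := h.i2 w hf'
  rw [e1 (fun i => w (t (β i))), e1 (fun i => ρ (β i)), e1 (fun i => ρ' (β i))] at h1
  rw [e2 (fun i => w (t (β i))), e2 (fun i => ρ (β i)), e2 (fun i => ρ' (β i))] at h2
  have hP : 0 < ∏ l ∈ univ.erase l₀, w (t (β (f l))) := prod_pos fun l _ => wpos w (h.ht _)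
  have hR : 0 < ∏ l ∈ univ.erase l₀, ρ (β (f l)) := prod_pos fun l _ => h.hρ _
  have hR' : 0 < ∏ l ∈ univ.erase l₀, ρ' (β (f l)) := prod_pos fun l _ => h.hρ' _
  have ha : 0 < w g.det := wpos w h.hg
  generalize (∏ l ∈ univ.erase l₀, w (t (β (f l)))) = P at *
  generalize (∏ l ∈ univ.erase l₀, ρ (β (f l))) = R at *
  generalize (∏ l ∈ univ.erase l₀, ρ' (β (f l))) = R' at *
  generalize (k.factorial * C ^ (k + 1) : ℝ) = K at *
  have hρi := h.hρ (β i)
  have hρi' := h.hρ (β i')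
  have hρ'i := h.hρ' (β i)
  have hρ'i' := h.hρ' (β i')
  have hti := wpos w (h.ht (β i))
  have hti' := wpos w (h.ht (β i'))
  have h3 := mul_le_mul h1 h2 (by positivity) (by positivity)
  refine le_of_mul_le_mul_left (a := w g.det * P * R * R') ?_ (by positivity)
  calc _ = w g.det * (w (t (β i)) * P) * (ρ (β i) * R) * (ρ' (β i') * R') := by ring
    _ ≤ _ := h3
    _ = _ := by ring

/-- **Bounds for a transformation between good matrices.** -/
theorem Dat.res (h : Dat A β C ρ ρ' V V' g t) (hk : 2 ≤ k) (hki : k + 2 ≤ Fintype.card ι)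
    (h5 : 5 ≤ Fintype.card ι) (i₀ : ι) {K L : ℝ} (hK : K = k.factorial * C ^ (k + 1))
    (hL : L = K ^ (1 + 6 * k)) :
    (∀ i, ρ' (β i) ≤ K ^ 2 * L * ρ (β i)) ∧ (∀ i, ρ (β i) ≤ K ^ 2 * L * ρ' (β i)) ∧
    (∀ (w : InfinitePlace F) i, w (t (β i) / t (β i₀)) ≤ K ^ 4) ∧
    ∀ (w : InfinitePlace F) j l, w (t (β i₀) * g j l) ≤ k * K ^ 7 * L := by
  have hK1 : (1 : ℝ) ≤ K := by
    rw [hK]
    have h1 : (1 : ℝ) ≤ k.factorial := by exact_mod_cast Nat.factorial_pos k
    have h2 : (1 : ℝ) ≤ C ^ (k + 1) := one_le_pow₀ h.hC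
    nlinarith
  have hK0 : 0 < K := by linarith
  have hL1 : 1 ≤ L := by rw [hL]; exact one_le_pow₀ hK1
  obtain ⟨r, hr⟩ : ∃ r : ι → ℝ, ∀ i, r i = ρ' (β i) / ρ (β i) := ⟨_, fun _ => rfl⟩
  have hr0 : ∀ i, 0 < r i := fun i => by rw [hr]; exact div_pos (h.hρ' _) (h.hρ _)
  obtain ⟨u, hu⟩ : ∃ u : ι → F, ∀ i, u i = t (β i) / t (β i₀) := ⟨_, fun _ => rfl⟩
  have hu0 : ∀ i, u i ≠ 0 := fun i => by rw [hu]; exact div_ne_zero (h.ht _) (h.ht _)
  have hwu : ∀ (w : InfinitePlace F) i, w (u i) = w (t (β i)) / w (t (β i₀)) := fun w i => by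
    rw [hu, map_div₀]
  have hup : ∀ i, ∏ w : InfinitePlace F, w (u i) ^ w.mult = 1 := by
    intro i
    obtain ⟨z, hz⟩ := h.quot hk hki h5 i i₀
    obtain ⟨z', hz'⟩ := h.quot hk hki h5 i₀ i
    have h1 : z * z' = 1 := by
      apply RingOfIntegers.ext
      rw [cmul, ← hz, ← hz', cone]
      have := h.ht (β i)
      have := h.ht (β i₀)
      field_simp
    rw [hu, hz]
    exact unit_prod h1
  -- (1)
  have a1 : ∀ (w : InfinitePlace F) i, w (u i) * r i₀ ≤ K ^ 2 * r i := by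
    intro w i
    have h1 := h.ex hk hki h5 w i i₀
    rw [← hK] at h1
    have h2 := h.hρ (β i)
    have h3 := h.hρ (β i₀)
    have h4 := wpos w (h.ht (β i₀))
    rw [hwu, hr, hr]
    refine le_of_mul_le_mul_left (a := w (t (β i₀)) * ρ (β i) * ρ (β i₀)) ?_ (by positivity)
    calc _ = w (t (β i)) * ρ (β i) * ρ' (β i₀) := by field_simp
      _ ≤ _ := h1
      _ = _ := by field_simp
  have a2 : ∀ (w : InfinitePlace F) i, r i ≤ K ^ 2 * r i₀ * w (u i) := by
    intro w i
    have h1 := h.ex hk hki h5 w i₀ i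
    rw [← hK] at h1
    have h2 := h.hρ (β i)
    have h3 := h.hρ (β i₀)
    have h4 := wpos w (h.ht (β i₀))
    rw [hwu, hr, hr]
    refine le_of_mul_le_mul_left (a := w (t (β i₀)) * ρ (β i) * ρ (β i₀)) ?_ (by positivity)
    calc _ = w (t (β i₀)) * ρ (β i₀) * ρ' (β i) := by field_simp
      _ ≤ _ := h1
      _ = _ := by field_simp
  -- (2)
  have b1 : ∀ i, r i₀ ≤ K ^ 2 * r i := fun i =>
    pl2 (hup i) (hr0 _).le (by have := hr0 i; positivity) fun w => a1 w i
  have b2 : ∀ i, r i ≤ K ^ 2 * r i₀ := fun i =>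
    pl1 (hup i) (hr0 _).le (by have := hr0 i₀; positivity) fun w => a2 w i
  have c1 : ∀ (w : InfinitePlace F) i, w (u i) ≤ K ^ 4 := by
    intro w i
    refine le_of_mul_le_mul_right (a := r i₀) ?_ (hr0 _)
    calc w (u i) * r i₀ ≤ K ^ 2 * r i := a1 w i
      _ ≤ K ^ 2 * (K ^ 2 * r i₀) := mul_le_mul_of_nonneg_left (b2 i) (by positivity)
      _ = _ := by ring
  have c2 : ∀ (w : InfinitePlace F) i, 1 ≤ K ^ 4 * w (u i) := by
    intro w i
    refine le_of_mul_le_mul_right (a := r i) ?_ (hr0 _)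
    calc 1 * r i ≤ K ^ 2 * r i₀ * w (u i) := by rw [one_mul]; exact a2 w i
      _ ≤ K ^ 2 * (K ^ 2 * r i) * w (u i) :=
        mul_le_mul_of_nonneg_right (mul_le_mul_of_nonneg_left (b1 i) (by positivity))
          (apply_nonneg _ _)
      _ = _ := by ring
  -- the determinant
  obtain ⟨H, hH⟩ : ∃ H : F, H = g.det * t (β i₀) ^ k := ⟨_, rfl⟩
  have hHp : ∏ w : InfinitePlace F, w H ^ w.mult = 1 := by
    obtain ⟨⟨z, hz⟩, z', hz'⟩ := h.det_int hk hki h5 i₀
    have h1 : z * z' = 1 := by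
      apply RingOfIntegers.ext
      rw [cmul, ← hz, ← hz', cone, mul_inv_cancel₀]
      exact mul_ne_zero h.hg (pow_ne_zero _ (h.ht _))
    rw [hH, hz]
    exact unit_prod h1
  obtain ⟨f, hf⟩ : ∃ f : Fin k → ι, Function.Injective f := by
    obtain ⟨f⟩ := Function.Embedding.nonempty_of_card_le (α := Fin k) (β := ι)
      (by rw [Fintype.card_fin]; omega)
    exact ⟨f, f.injective⟩
  have hHt : ∀ w : InfinitePlace F, w g.det * ∏ l, w (t (β (f l))) =
      w H * ∏ l, w (u (f l)) := by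
    intro w
    have h4 := wpos w (h.ht (β i₀))
    rw [hH, map_mul, map_pow, prod_congr rfl fun l _ => hwu w (f l), prod_div_distrib, prod_const,
      card_univ, Fintype.card_fin]
    field_simp
  have hρf : 0 < ∏ l, ρ (β (f l)) := prod_pos fun l _ => h.hρ _
  have hrf : ∏ l, r (f l) * ρ (β (f l)) = ∏ l, ρ' (β (f l)) := by
    refine prod_congr rfl fun l _ => ?_
    have := h.hρ (β (f l))
    rw [hr]
    field_simp
  rw [prod_mul_distrib] at hrf
  have d1 : ∀ w : InfinitePlace F, w H * ∏ l, w (u (f l)) ≤ K * ∏ l, r (f l) := by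
    intro w
    have h1 := h.i1 w hf
    rw [← hK, hHt, ← hrf, ← mul_assoc] at h1
    exact le_of_mul_le_mul_right h1 hρf
  have d2 : ∀ w : InfinitePlace F, ∏ l, r (f l) ≤ K * (w H * ∏ l, w (u (f l))) := by
    intro w
    have h1 := h.i2 w hf
    rw [← hK, hHt, ← hrf, ← mul_assoc K] at h1
    exact le_of_mul_le_mul_right h1 hρf
  have hcard : (univ : Finset (Fin k)).card = k := by rw [card_univ, Fintype.card_fin]
  have p1 : r i₀ ^ k ≤ (K ^ 2) ^ k * ∏ l, r (f l) := by
    calc r i₀ ^ k = ∏ l : Fin k, r i₀ := by rw [prod_const, hcard]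
      _ ≤ ∏ l : Fin k, (K ^ 2 * r (f l)) := prod_le_prod (fun _ _ => (hr0 _).le) fun l _ => b1 _
      _ = _ := by rw [prod_mul_distrib, prod_const, hcard]
  have p2 : ∏ l, r (f l) ≤ (K ^ 2) ^ k * r i₀ ^ k := by
    calc ∏ l, r (f l) ≤ ∏ l : Fin k, (K ^ 2 * r i₀) :=
          prod_le_prod (fun _ _ => (hr0 _).le) fun l _ => b2 _
      _ = _ := by rw [prod_mul_distrib, prod_const, prod_const, hcard]
  have p3 : ∀ w : InfinitePlace F, ∏ l, w (u (f l)) ≤ (K ^ 4) ^ k := by
    intro w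
    calc ∏ l, w (u (f l)) ≤ ∏ l : Fin k, K ^ 4 :=
          prod_le_prod (fun _ _ => apply_nonneg _ _) fun l _ => c1 w _
      _ = _ := by rw [prod_const, hcard]
  have p4 : ∀ w : InfinitePlace F, 1 ≤ (K ^ 4) ^ k * ∏ l, w (u (f l)) := by
    intro w
    calc (1 : ℝ) = ∏ l : Fin k, 1 := by rw [prod_const_one]
      _ ≤ ∏ l : Fin k, (K ^ 4 * w (u (f l))) :=
          prod_le_prod (fun _ _ => zero_le_one) fun l _ => c2 w _
      _ = _ := by rw [prod_mul_distrib, prod_const, hcard]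
  have e1 : r i₀ ^ k ≤ L := by
    refine pl1 hHp (by have := hr0 i₀; positivity) (by linarith) fun w => ?_
    calc r i₀ ^ k ≤ (K ^ 2) ^ k * ∏ l, r (f l) := p1
      _ ≤ (K ^ 2) ^ k * (K * (w H * ∏ l, w (u (f l)))) :=
        mul_le_mul_of_nonneg_left (d2 w) (by positivity)
      _ ≤ (K ^ 2) ^ k * (K * (w H * (K ^ 4) ^ k)) := by
        refine mul_le_mul_of_nonneg_left (mul_le_mul_of_nonneg_left
          (mul_le_mul_of_nonneg_left (p3 w) (apply_nonneg _ _)) hK0.le) (by positivity)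
      _ = L * w H := by rw [hL]; ring
  have e2 : 1 ≤ L * r i₀ ^ k := by
    refine pl2 hHp zero_le_one (by have := hr0 i₀; positivity) fun w => ?_
    rw [mul_one]
    calc w H = w H * 1 := (mul_one _).symm
      _ ≤ w H * ((K ^ 4) ^ k * ∏ l, w (u (f l))) :=
        mul_le_mul_of_nonneg_left (p4 w) (apply_nonneg _ _)
      _ = (K ^ 4) ^ k * (w H * ∏ l, w (u (f l))) := by ring
      _ ≤ (K ^ 4) ^ k * (K * ∏ l, r (f l)) := mul_le_mul_of_nonneg_left (d1 w) (by positivity)
      _ ≤ (K ^ 4) ^ k * (K * ((K ^ 2) ^ k * r i₀ ^ k)) :=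
        mul_le_mul_of_nonneg_left (mul_le_mul_of_nonneg_left p2 hK0.le) (by positivity)
      _ = _ := by rw [hL]; ring
  have hk0 : k ≠ 0 := by omega
  have f1 : r i₀ ≤ L := by
    rcases le_total (r i₀) 1 with h1 | h1
    · exact h1.trans hL1
    · exact (le_self_pow₀ h1 hk0).trans e1
  have f2 : 1 ≤ L * r i₀ := by
    rcases le_total (r i₀) 1 with h1 | h1
    · exact e2.trans (mul_le_mul_of_nonneg_left (pow_le_of_le_one (hr0 _).le h1 hk0) (by linarith))
    · nlinarith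
  have g1 : ∀ i, r i ≤ K ^ 2 * L := fun i =>
    (b2 i).trans (mul_le_mul_of_nonneg_left f1 (by positivity))
  have g2 : ∀ i, 1 ≤ K ^ 2 * L * r i := fun i => by
    calc 1 ≤ L * r i₀ := f2
      _ ≤ L * (K ^ 2 * r i) := mul_le_mul_of_nonneg_left (b1 i) (by linarith)
      _ = _ := by ring
  refine ⟨fun i => ?_, fun i => ?_, fun w i => ?_, fun w j l => ?_⟩
  · have h1 := g1 i
    rw [hr, div_le_iff₀ (h.hρ _)] at h1
    exact h1
  · have h1 := g2 i
    rw [hr, ← mul_div_assoc, le_div_iff₀ (h.hρ _), one_mul] at h1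
    exact h1
  · rw [← hu]
    exact c1 w i
  · -- the entries
    have hlo := h.hV.lo w f hf
    have hmpos : 0 < w ((mnr V f : 𝓞 F) : F) := by
      have h1 : 0 < C * w ((mnr V f : 𝓞 F) : F) := hρf.trans_le hlo
      have hC0 : 0 < C := by linarith [h.hC]
      exact (mul_pos_iff_of_pos_left hC0).1 h1
    have hC0 : 0 < C := by linarith [h.hC]
    refine le_of_mul_le_mul_left (a := w ((mnr V f : 𝓞 F) : F)) ?_ hmpos
    rw [← map_mul, h.sq i₀ f j l]
    have hadj : ∀ m, w ((((V.submatrix id f).adjugate m l : 𝓞 F)) : F) ≤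
        k.factorial * (C ^ k * ∏ l', ρ (β (f l'))) * (C * ρ (β (f m)))⁻¹ := by
      intro m
      have hρm := h.hρ (β (f m))
      set M : Matrix (Fin k) (Fin k) F := (V.submatrix id f).map (algebraMap (𝓞 F) F) with hM
      have q1 : ((((V.submatrix id f).adjugate m l : 𝓞 F)) : F) = M.adjugate m l := by
        have q2 := RingHom.map_adjugate (algebraMap (𝓞 F) F) (V.submatrix id f)
        exact congrFun (congrFun q2 m) l
      rw [q1, Matrix.adjugate_apply]
      have q3 := det_bound w (M.updateRow l (Pi.single m 1))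
        (a := fun j' => if j' = l then (C * ρ (β (f m)))⁻¹ else 1)
        (b := fun l' => C * ρ (β (f l'))) (fun j' => by
          split_ifs
          · positivity
          · exact zero_le_one) (fun l' => by have := h.hρ (β (f l')); positivity) (by
          intro j' l'
          have hρl := h.hρ (β (f l'))
          split_ifs with h1
          · rw [h1, Matrix.updateRow_self]
            by_cases h2 : l' = m
            · rw [h2, Pi.single_eq_same, map_one, inv_mul_cancel₀ (by positivity)]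
            · rw [Pi.single_eq_of_ne h2, map_zero]
              positivity
          · rw [Matrix.updateRow_ne h1, one_mul]
            exact h.hV.up w j' (f l'))
      refine q3.trans (le_of_eq ?_)
      rw [prod_ite_eq' univ l, if_pos (mem_univ _), prod_mul_distrib, prod_const, hcard]
      ring
    refine (place_sum_le w univ _).trans ?_
    have hterm : ∀ m ∈ (univ : Finset (Fin k)), w (((V' j (f m) : 𝓞 F) : F) *
        (t (β i₀) / t (β (f m))) * ((((V.submatrix id f).adjugate m l : 𝓞 F)) : F)) ≤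
        K ^ 7 * L * w ((mnr V f : 𝓞 F) : F) := by
      intro m _
      rw [map_mul, map_mul]
      have hρm := h.hρ (β (f m))
      have q1 := h.hV'.up w j (f m)
      have q2 : w (t (β i₀) / t (β (f m))) ≤ K ^ 4 := by
        have h1 := c2 w (f m)
        rw [hwu] at h1
        have h2 := wpos w (h.ht (β i₀))
        have h3 := wpos w (h.ht (β (f m)))
        rw [map_div₀, div_le_iff₀ h3]
        rw [← mul_div_assoc, le_div_iff₀ h2, one_mul] at h1
        exact h1
      have q3 := hadj m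
      have q4 := g1 (f m)
      rw [hr, div_le_iff₀ hρm] at q4
      have q5 : C * ρ' (β (f m)) ≤ C * (K ^ 2 * L * ρ (β (f m))) :=
        mul_le_mul_of_nonneg_left q4 hC0.le
      calc w ((V' j (f m) : 𝓞 F) : F) * w (t (β i₀) / t (β (f m))) *
            w ((((V.submatrix id f).adjugate m l : 𝓞 F)) : F) ≤
            C * (K ^ 2 * L * ρ (β (f m))) * K ^ 4 *
              (k.factorial * (C ^ k * ∏ l', ρ (β (f l'))) * (C * ρ (β (f m)))⁻¹) := by
            refine mul_le_mul (mul_le_mul (q1.trans q5) q2 (apply_nonneg _ _) (by positivity)) q3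
              (apply_nonneg _ _) (by positivity)
        _ = K ^ 6 * L * (k.factorial * C ^ k) * ∏ l', ρ (β (f l')) := by
            field_simp
        _ ≤ K ^ 6 * L * (k.factorial * C ^ k) * (C * w ((mnr V f : 𝓞 F) : F)) :=
            mul_le_mul_of_nonneg_left hlo (by positivity)
        _ = K ^ 6 * L * (k.factorial * C ^ (k + 1)) * w ((mnr V f : 𝓞 F) : F) := by ring
        _ = _ := by rw [← hK]; ring
    refine (sum_le_sum hterm).trans (le_of_eq ?_)
    rw [sum_const, hcard, nsmul_eq_mul]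
    ring

end

end Run7.h3.OM
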