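import Pool.Agent.Run7.h3.OM.Fib2

set_option autoImplicit false
set_option linter.unusedSectionVars false
set_option linter.unusedVariables false

/-! Bounded fibres. -/

namespace Run7.h3.OM

open Finset Module NumberField Run7.h3.GT

section

variable {F : Type} [Field F] [NumberField F] {ι s : Type} [Fintype ι] [DecidableEq ι]
  [Fintype s] [DecidableEq s] {k : ℕ}

/-- a common multiple of the minors -/
def DA (A : Matrix (Fin k) ι ℤ) : ℕ :=
  ∏ f ∈ univ.filter fun f : Fin k → ι => Function.Injective f, (mnr A f).natAbs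

theorem DA_ne {A : Matrix (Fin k) ι ℤ} (hA : ∀ f, Function.Injective f → mnr A f ≠ 0) :
    DA A ≠ 0 := by
  unfold DA
  rw [prod_ne_zero_iff]
  intro f hf
  exact Int.natAbs_ne_zero.2 (hA f (mem_filter.1 hf).2)

theorem dvd_DA (A : Matrix (Fin k) ι ℤ) {f : Fin k → ι} (hf : Function.Injective f) :
    mnr A f ∣ (DA A : ℤ) := by
  rw [← Int.natAbs_dvd]
  unfold DA
  exact Int.natCast_dvd_natCast.2 (dvd_prod_of_mem (fun f => (mnr A f).natAbs)
    (mem_filter.2 ⟨mem_univ _, hf⟩))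

/-- **The fibres are bounded.** -/
theorem fibre (hk : 2 ≤ k) (hki : k + 2 ≤ Fintype.card ι) (h5 : 5 ≤ Fintype.card ι)
    (A : Matrix (Fin k) ι ℤ) (hA : ∀ f, Function.Injective f → mnr A f ≠ 0) (β : ι → s)
    (hβ : Function.Surjective β) {C : ℝ} (hC : 1 ≤ C) :
    ∃ (M : ℕ) (Λ : ℝ), 0 < M ∧ 1 ≤ Λ ∧
    (∀ (ρ ρ' : s → ℝ) (V V' : Matrix (Fin k) ι (𝓞 F)), (∀ b, 0 < ρ b) → (∀ b, 0 < ρ' b) →
      Gd A β C ρ V → Gd A β C ρ' V' →
      Rel β (V.map (algebraMap (𝓞 F) F)) (V'.map (algebraMap (𝓞 F) F)) →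
      ∀ b, ρ' b ≤ Λ * ρ b ∧ ρ b ≤ Λ * ρ' b) ∧
    ∀ (T : Finset (Matrix (Fin k) ι (𝓞 F))) (V : Matrix (Fin k) ι (𝓞 F)) (ρ : s → ℝ),
      (∀ b, 0 < ρ b) → Gd A β C ρ V →
      (∀ V' ∈ T, (∃ ρ' : s → ℝ, (∀ b, 0 < ρ' b) ∧ Gd A β C ρ' V') ∧
        Rel β (V.map (algebraMap (𝓞 F) F)) (V'.map (algebraMap (𝓞 F) F))) → T.card ≤ M := by
  classical
  obtain ⟨K, hK⟩ : ∃ K : ℝ, K = k.factorial * C ^ (k + 1) := ⟨_, rfl⟩
  obtain ⟨L, hL⟩ : ∃ L : ℝ, L = K ^ (1 + 6 * k) := ⟨_, rfl⟩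
  have hK1 : (1 : ℝ) ≤ K := by
    rw [hK]
    have h1 : (1 : ℝ) ≤ k.factorial := by exact_mod_cast Nat.factorial_pos k
    have h2 : (1 : ℝ) ≤ C ^ (k + 1) := one_le_pow₀ hC
    nlinarith
  have hL1 : 1 ≤ L := by rw [hL]; exact one_le_pow₀ hK1
  obtain ⟨i₀⟩ : Nonempty ι := Fintype.card_pos_iff.1 (by omega)
  obtain ⟨R₁, hR₁⟩ : ∃ R₁ : ℝ, R₁ = (DA A : ℝ) * (k * K ^ 7 * L) + K ^ 4 := ⟨_, rfl⟩
  have hR₁0 : 0 ≤ R₁ := by
    rw [hR₁]
    positivity
  have hdat : ∀ {ρ ρ' : s → ℝ} {V V' : Matrix (Fin k) ι (𝓞 F)}, (∀ b, 0 < ρ b) →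
      (∀ b, 0 < ρ' b) → Gd A β C ρ V → Gd A β C ρ' V' →
      Rel β (V.map (algebraMap (𝓞 F) F)) (V'.map (algebraMap (𝓞 F) F)) →
      ∃ (g : Matrix (Fin k) (Fin k) F) (t : s → F), Dat A β C ρ ρ' V V' g t := by
    rintro ρ ρ' V V' h1 h2 h3 h4 ⟨g, t, h5, h6, h7⟩
    exact ⟨g, t, ⟨hC, h1, h2, hA, h3, h4, h5, h6, h7⟩⟩
  have h0bx : (0 : 𝓞 F) ∈ bx F R₁ := by
    rw [mem_bx hR₁0]
    intro w
    rw [czero, map_zero]
    exact hR₁0
  refine ⟨(bx F R₁).card ^ Fintype.card ((Fin k × Fin k) ⊕ s), K ^ 2 * L,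
    pow_pos (card_pos.2 ⟨0, h0bx⟩) _, ?_, ?_, ?_⟩
  · have : (1 : ℝ) ≤ K ^ 2 := one_le_pow₀ hK1
    nlinarith
  · intro ρ ρ' V V' h1 h2 h3 h4 h6 b
    obtain ⟨g, t, h⟩ := hdat h1 h2 h3 h4 h6
    obtain ⟨r1, r2, -⟩ := h.res hk hki h5 i₀ hK hL
    obtain ⟨i, rfl⟩ := hβ b
    exact ⟨r1 i, r2 i⟩
  · intro T V ρ hρ hV hT
    have key : ∀ V' ∈ T, ∃ φ : (Fin k × Fin k) ⊕ s → 𝓞 F, (∀ x, φ x ∈ bx F R₁) ∧
        ∀ j i, ((DA A : ℕ) : 𝓞 F) * V' j i =
          ∑ l, φ (Sum.inl (j, l)) * V l i * φ (Sum.inr (β i)) := by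
      intro V' hV'
      obtain ⟨⟨ρ', hρ', hG'⟩, hR⟩ := hT V' hV'
      obtain ⟨g, t, h⟩ := hdat hρ hρ' hV hG' hR
      obtain ⟨-, -, r3, r4⟩ := h.res hk hki h5 i₀ hK hL
      have q1 : ∀ x : Fin k × Fin k, ∃ z : 𝓞 F,
          ((DA A : ℤ) : F) * (t (β i₀) * g x.1 x.2) = (z : F) := fun x =>
        h.h_int hk hki h5 i₀ (fun f hf => dvd_DA A hf) x.1 x.2
      choose z hz using q1
      have q2 : ∀ b : s, ∃ y : 𝓞 F, t b / t (β i₀) = (y : F) ∧
          ∀ w : InfinitePlace F, w (y : F) ≤ K ^ 4 := by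
        intro b
        obtain ⟨i, rfl⟩ := hβ b
        obtain ⟨y, hy⟩ := h.quot hk hki h5 i i₀
        exact ⟨y, hy, fun w => by rw [← hy]; exact r3 w i⟩
      choose y hy hy' using q2
      refine ⟨Sum.elim z y, ?_, ?_⟩
      · rintro (x | b)
        · rw [mem_bx hR₁0]
          intro w
          rw [Sum.elim_inl, ← hz, map_mul]
          have h1 : w (((DA A : ℤ) : F)) ≤ (DA A : ℝ) := by
            have h2 := natCast_mem_bxs (F := F) (DA A) w
            have h3 : ((((DA A : ℕ) : 𝓞 F)) : F) = ((DA A : ℤ) : F) := by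
              push_cast
              exact map_natCast (algebraMap (𝓞 F) F) _
            rwa [h3] at h2
          have h2 := mul_le_mul h1 (r4 w x.1 x.2) (apply_nonneg _ _) (Nat.cast_nonneg _)
          rw [hR₁]
          have : 0 ≤ K ^ 4 := by positivity
          linarith
        · rw [mem_bx hR₁0]
          intro w
          rw [Sum.elim_inr]
          refine (hy' b w).trans ?_
          rw [hR₁]
          have : 0 ≤ (DA A : ℝ) * (k * K ^ 7 * L) := by positivity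
          linarith
      · intro j i
        apply RingOfIntegers.ext
        have e1 : ((V' j i : 𝓞 F) : F) = ∑ l, g j l * (V l i : F) * t (β i) := by
          have h1 := congrFun (congrFun h.rel j) i
          rw [Matrix.mul_diagonal, Matrix.mul_apply, sum_mul] at h1
          exact h1
        have e2 : (((∑ l, Sum.elim z y (Sum.inl (j, l)) * V l i * Sum.elim z y (Sum.inr (β i)) :
            𝓞 F)) : F) = ∑ l, (z (j, l) : F) * (V l i : F) * (y (β i) : F) := by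
          show algebraMap (𝓞 F) F (∑ l, Sum.elim z y (Sum.inl (j, l)) * V l i *
            Sum.elim z y (Sum.inr (β i))) = _
          rw [map_sum]
          refine sum_congr rfl fun l _ => ?_
          rw [Sum.elim_inl, Sum.elim_inr]
          exact (cmul _ _).trans (by rw [cmul])
        have h3 : ((((DA A : ℕ) : 𝓞 F)) : F) = ((DA A : ℤ) : F) := by
          push_cast
          exact map_natCast (algebraMap (𝓞 F) F) _
        rw [cmul, e1, e2, mul_sum, h3]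
        refine sum_congr rfl fun l _ => ?_
        rw [← hz, ← hy]
        have := h.ht (β i₀)
        field_simp
    choose! φ hφ1 hφ2 using key
    have hinj : Set.InjOn φ (T : Set (Matrix (Fin k) ι (𝓞 F))) := by
      intro V' hV' V'' hV'' hVV
      ext j i
      have h1 := hφ2 V' hV' j i
      have h2 := hφ2 V'' hV'' j i
      rw [hVV, ← h2] at h1
      have h3 : ((DA A : ℕ) : 𝓞 F) ≠ 0 := by
        exact_mod_cast DA_ne hA
      exact congrArg _ (mul_left_cancel₀ h3 h1)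
    have hcard : T.card ≤ (Fintype.piFinset fun _ : (Fin k × Fin k) ⊕ s => bx F R₁).card := by
      refine card_le_card_of_injOn φ (fun V' hV' => ?_) hinj
      rw [mem_coe, Fintype.mem_piFinset]
      exact hφ1 V' hV'
    refine hcard.trans (le_of_eq ?_)
    rw [Fintype.card_piFinset, prod_const, card_univ]

end

end Run7.h3.OM
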