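import Pool.Agent.Run7.h3.OM.Cls

set_option autoImplicit false
set_option linter.unusedSectionVars false
set_option linter.unusedVariables false

/-! Prime ideals: the primes which contain a given element; sums over primes. -/

namespace Run7.h3.OM

open Finset Module NumberField Run7.h3.GT

section

variable (F : Type) [Field F] [NumberField F]

theorem prod_absNorm_le {P : 𝓞 F} (hP : P ≠ 0) (S : Finset (Ideal (𝓞 F)))
    (hS : ∀ p ∈ S, p.IsMaximal ∧ P ∈ p) :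
    ∏ p ∈ S, Ideal.absNorm p ≤ (Algebra.norm ℤ P).natAbs := by
  classical
  have h1 : ∏ p ∈ S, p ∣ Ideal.span {P} := by
    refine Finset.prod_primes_dvd _ (fun p hp => ?_) fun p hp => ?_
    · have h2 : p ≠ ⊥ := by
        intro h3
        have := (hS p hp).2
        rw [h3, Ideal.mem_bot] at this
        exact hP this
      exact (Ideal.prime_iff_isPrime h2).2 (hS p hp).1.isPrime
    · rw [Ideal.dvd_iff_le, Ideal.span_singleton_le_iff_mem]
      exact (hS p hp).2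
  have h2 := map_dvd Ideal.absNorm h1
  rw [map_prod, Ideal.absNorm_span_singleton] at h2
  refine Nat.le_of_dvd ?_ h2
  rw [Int.natAbs_pos]
  exact Algebra.norm_ne_zero_iff.2 hP

theorem two_le_absNorm {p : Ideal (𝓞 F)} (hp : p.IsMaximal) (h0 : p ≠ ⊥) : 2 ≤ Ideal.absNorm p := by
  have h1 : Ideal.absNorm p ≠ 0 :=
    Ideal.absNorm_ne_zero_iff_mem_nonZeroDivisors.2 (mem_nonZeroDivisors_iff_ne_zero.2 h0)
  have h2 : Ideal.absNorm p ≠ 1 := by
    rw [Ne, Ideal.absNorm_eq_one_iff]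
    exact hp.ne_top
  omega

/-- the number of the primes which contain an element -/
theorem card_primes_le {P : 𝓞 F} (hP : P ≠ 0) (S : Finset (Ideal (𝓞 F)))
    (hS : ∀ p ∈ S, p.IsMaximal ∧ P ∈ p) {X : ℝ} (hX : P ∈ bxs F X) :
    (S.card : ℝ) * Real.log 2 ≤ finrank ℚ F * Real.log X := by
  have h1 := prod_absNorm_le F hP S hS
  have h2 : 2 ^ S.card ≤ ∏ p ∈ S, Ideal.absNorm p := by
    rw [← prod_const]
    refine prod_le_prod' fun p hp => ?_
    refine two_le_absNorm F (hS p hp).1 ?_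
    intro h3
    have := (hS p hp).2
    rw [h3, Ideal.mem_bot] at this
    exact hP this
  have h3 : ((2 ^ S.card : ℕ) : ℝ) ≤ X ^ finrank ℚ F := by
    refine (Nat.cast_le.2 (h2.trans h1)).trans ?_
    rw [Nat.cast_natAbs]
    push_cast
    exact norm_le_of_mem F hX
  push_cast at h3
  have h4 := Real.log_le_log (by positivity) h3
  rw [Real.log_pow, Real.log_pow] at h4
  exact h4

theorem natCast_mem_bxs (m : ℕ) : (m : 𝓞 F) ∈ bxs F m := by
  intro w
  have h1 : (((m : ℕ) : 𝓞 F) : F) = ((m : ℚ) : F) := by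
    push_cast
    rfl
  rw [h1, place_rat]
  rw [abs_of_nonneg (by positivity)]
  push_cast
  exact le_refl _

/-- there are at most `[F : ℚ]` primes of norm `m` -/
theorem card_norm_eq {m : ℕ} (hm : 2 ≤ m) (S : Finset (Ideal (𝓞 F)))
    (hS : ∀ p ∈ S, p.IsMaximal ∧ Ideal.absNorm p = m) : S.card ≤ finrank ℚ F := by
  have hm0 : ((m : ℕ) : 𝓞 F) ≠ 0 := by
    rw [Nat.cast_ne_zero]
    omega
  have h1 := prod_absNorm_le F hm0 S fun p hp => ⟨(hS p hp).1, by
    have := Ideal.absNorm_mem p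
    rwa [(hS p hp).2] at this⟩
  rw [prod_congr rfl fun p hp => (hS p hp).2, prod_const] at h1
  have h2 : (((Algebra.norm ℤ ((m : ℕ) : 𝓞 F)).natAbs : ℕ) : ℝ) ≤ (m : ℝ) ^ finrank ℚ F := by
    rw [Nat.cast_natAbs]
    push_cast
    exact norm_le_of_mem F (natCast_mem_bxs F m)
  have h3 : (((m ^ S.card : ℕ)) : ℝ) ≤ (m : ℝ) ^ finrank ℚ F := (Nat.cast_le.2 h1).trans h2
  have h4 : m ^ S.card ≤ m ^ finrank ℚ F := by exact_mod_cast h3
  exact (Nat.pow_le_pow_iff_right (by omega)).1 h4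

/-- the primes with norm in `(Y, Z]` -/
noncomputable def prs (Y Z : ℕ) : Finset (Ideal (𝓞 F)) :=
  open Classical in
  ((Ideal.finite_setOfPred_absNorm_le (S := 𝓞 F) Z).toFinset.filter fun p => p.IsMaximal ∧ Y < Ideal.absNorm p)

theorem mem_prs {Y Z : ℕ} {p : Ideal (𝓞 F)} :
    p ∈ prs F Y Z ↔ p.IsMaximal ∧ Y < Ideal.absNorm p ∧ Ideal.absNorm p ≤ Z := by
  classical
  unfold prs
  rw [mem_filter, Set.Finite.mem_toFinset]
  exact ⟨fun h => ⟨h.2.1, h.2.2, h.1⟩, fun h => ⟨h.2.2, h.1, h.2.1⟩⟩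

theorem sum_prs_le {Y Z : ℕ} (hY : 1 ≤ Y) (g : ℕ → ℝ) (hg : ∀ m, 0 ≤ g m) :
    ∑ p ∈ prs F Y Z, g (Ideal.absNorm p) ≤ finrank ℚ F * ∑ m ∈ Ioc Y Z, g m := by
  classical
  rw [← sum_fiberwise_of_maps_to (s := prs F Y Z) (t := Ioc Y Z) (g := fun p => Ideal.absNorm p)
    (fun p hp => by
      rw [mem_prs] at hp
      exact mem_Ioc.2 hp.2), mul_sum]
  refine sum_le_sum fun m hm => ?_
  rw [mem_Ioc] at hm
  have h1 : ∀ p ∈ (prs F Y Z).filter (fun p => Ideal.absNorm p = m), g (Ideal.absNorm p) = g m := by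
    intro p hp
    rw [(mem_filter.1 hp).2]
  rw [sum_congr rfl h1, sum_const, nsmul_eq_mul]
  refine mul_le_mul_of_nonneg_right ?_ (hg m)
  have h2 := card_norm_eq F (m := m) (by omega) ((prs F Y Z).filter (fun p => Ideal.absNorm p = m))
    fun p hp => ⟨((mem_prs F).1 (mem_filter.1 hp).1).1, (mem_filter.1 hp).2⟩
  exact_mod_cast h2

theorem sum_sq_le (Y Z : ℕ) (hY : 1 ≤ Y) : ∑ m ∈ Ioc Y Z, (1 : ℝ) / (m : ℝ) ^ 2 ≤ 1 / (Y : ℝ) := by
  rcases le_or_gt Y Z with h | h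
  · have h1 : ∀ Z : ℕ, Y ≤ Z → ∑ m ∈ Ioc Y Z, (1 : ℝ) / (m : ℝ) ^ 2 ≤ 1 / (Y : ℝ) - 1 / (Z : ℝ) := by
      intro Z hZ
      induction Z, hZ using Nat.le_induction with
      | base => simp
      | succ n hn ih =>
        rw [← Finset.insert_Ioc_right_eq_Ioc_add_one hn, sum_insert (by simp)]
        have hn0 : (0 : ℝ) < n := by
          have : 0 < n := by omega
          exact_mod_cast this
        have h2 : (1 : ℝ) / ((n + 1 : ℕ) : ℝ) ^ 2 ≤ 1 / (n : ℝ) - 1 / ((n + 1 : ℕ) : ℝ) := by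
          push_cast
          rw [div_sub_div _ _ hn0.ne' (by positivity), div_le_div_iff₀ (by positivity) (by positivity)]
          nlinarith
        linarith
    have h2 := h1 Z h
    have h3 : (0 : ℝ) ≤ 1 / (Z : ℝ) := by positivity
    linarith
  · rw [Ioc_eq_empty_of_le h.le]
    simp

theorem sum_inv_le (Y Z : ℕ) (hY : 1 ≤ Y) : ∑ m ∈ Ioc Y Z, (1 : ℝ) / (m : ℝ) ≤ 1 + Real.log (max 1 Z) := by
  rcases le_or_gt 1 Z with h | h
  · have h1 : ∑ m ∈ Ioc Y Z, (1 : ℝ) / (m : ℝ) ≤ ∑ m ∈ Icc 1 Z, (1 : ℝ) / (m : ℝ) := by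
      refine sum_le_sum_of_subset_of_nonneg (fun m hm => ?_) fun m _ _ => by positivity
      rw [mem_Ioc] at hm
      rw [mem_Icc]
      omega
    have h2 := harmonic_le_one_add_log Z
    have h3 : ((harmonic Z : ℚ) : ℝ) = ∑ m ∈ Icc 1 Z, (1 : ℝ) / (m : ℝ) := by
      rw [harmonic_eq_sum_Icc]
      push_cast
      exact sum_congr rfl fun m _ => by rw [one_div]
    rw [h3] at h2
    have h4 : max (1 : ℝ) (Z : ℝ) = Z := max_eq_right (by exact_mod_cast h)
    rw [h4]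
    linarith
  · have : Z = 0 := by omega
    subst this
    rw [Ioc_eq_empty_of_le (by omega)]
    simp

end

end Run7.h3.OM
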