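import Pool.Agent.Run7.h3.OM.Fib3

set_option autoImplicit false
set_option linter.unusedSectionVars false
set_option linter.unusedVariables false

/-! The classes and the heights of good matrices. -/

namespace Run7.h3.OM

open Finset Module NumberField Run7.h3.GT

section

variable {F : Type} [Field F] [NumberField F] {ι s : Type} [Fintype ι] [DecidableEq ι]
  [Fintype s] [DecidableEq s] {k : ℕ}

variable {A : Matrix (Fin k) ι ℤ} {β : ι → s} {C : ℝ} {ρ ρ' : s → ℝ}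
  {V V' : Matrix (Fin k) ι (𝓞 F)}

theorem Gd.gen (hV : Gd A β C ρ V) (hC : 1 ≤ C) (hρ : ∀ b, 0 < ρ b) :
    Gen (V.map (algebraMap (𝓞 F) F)) := by
  intro f hf h0
  rw [← mnr_coe] at h0
  obtain ⟨w⟩ : Nonempty (InfinitePlace F) := inferInstance
  have h1 := hV.lo w f hf
  rw [h0, map_zero, mul_zero] at h1
  exact absurd h1 (not_le.2 (prod_pos fun l _ => hρ _))

/-- the height of a good matrix -/
theorem Gd.height {d : s → ℕ} {N : ℕ} (hV : Gd A β C ρ V) (hC : 1 ≤ C) (hρ : ∀ b, 0 < ρ b)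
    (hk : 0 < k) (hki : k ≤ Fintype.card ι) (hd : ∑ b, d b = k * N)
    (hn : ∀ b, d b ≤ (univ.filter fun i => β i = b).card * N) :
    Height.mulHeight (fun m : Mon k β d => mono (V.map (algebraMap (𝓞 F) F)) m) ≤
      ((k.factorial * C ^ k) ^ N * ∏ b, ρ b ^ d b) ^ finrank ℚ F := by
  classical
  have := mon_finite (β := β) (d := d) hk
  have hft := Fintype.ofFinite (Mon k β d)
  obtain ⟨m₀, hm₀⟩ := gen_mono hk hki hd hn _ (hV.gen hC hρ)
  have hne : Nonempty (Mon k β d) := ⟨m₀⟩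
  have hKpos : (0 : ℝ) ≤ k.factorial * C ^ k := by positivity
  have hρd : 0 ≤ ∏ b, ρ b ^ d b := prod_nonneg fun b _ => (pow_pos (hρ b) _).le
  have hx' : ∀ m : Mon k β d, mono (V.map (algebraMap (𝓞 F) F)) m = ((mono V m : 𝓞 F) : F) :=
    fun m => (mono_coe V m).symm
  rw [hid _ ⟨m₀, hm₀⟩]
  simp only [hx']
  have h1 : (1 : ℝ) ≤ GT.nm (∑ m : Mon k β d, sp ((mono V m : 𝓞 F) : F)) := by
    rw [← ideal_sum, nm_coe]
    have h2 : Ideal.absNorm (Ideal.span (Set.range fun m : Mon k β d => (mono V m : 𝓞 F))) ≠ 0 := by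
      rw [Ne, Ideal.absNorm_eq_zero_iff, Ideal.span_eq_bot]
      intro h3
      apply hm₀
      have h4 : (mono V m₀ : 𝓞 F) = 0 := h3 _ ⟨m₀, rfl⟩
      rw [← mono_coe, h4]
      exact czero
    exact_mod_cast Nat.one_le_iff_ne_zero.2 h2
  have h0 : ∀ w : InfinitePlace F, 0 ≤ ⨆ m : Mon k β d, w ((mono V m : 𝓞 F) : F) :=
    fun w => Real.iSup_nonneg fun m => apply_nonneg w _
  refine (div_le_self (prod_nonneg fun w _ => pow_nonneg (h0 w) _) h1).trans ?_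
  have h2 : ∀ w : InfinitePlace F, (⨆ m : Mon k β d, w ((mono V m : 𝓞 F) : F)) ≤
      (k.factorial * C ^ k) ^ N * ∏ b, ρ b ^ d b := by
    intro w
    refine ciSup_le fun m => ?_
    have h3 : w ((mono V m : 𝓞 F) : F) = ∏ f, w ((mnr V f : 𝓞 F) : F) ^ m.1 f := by
      rw [mono_coe]
      unfold mono
      rw [map_prod]
      refine prod_congr rfl fun f _ => ?_
      rw [map_pow, mnr_coe]
    rw [h3]
    have h5 := fun f => hV.mup hC hρ w f
    generalize (k.factorial * C ^ k : ℝ) = K₂ at h5 hKpos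
    have h6 : ∑ f, m.1 f = N := sum_mon hk hd m
    have h7 : ∏ f, K₂ ^ m.1 f = K₂ ^ N := by rw [prod_pow_eq_pow_sum, h6]
    have h8 : ∏ f, wt β ρ f ^ m.1 f = ∏ b, ρ b ^ d b := prod_wt (β := β) ρ m
    calc ∏ f, w ((mnr V f : 𝓞 F) : F) ^ m.1 f ≤
          ∏ f, (K₂ * wt β ρ f) ^ m.1 f :=
          prod_le_prod (fun f _ => pow_nonneg (apply_nonneg _ _) _) fun f _ =>
            pow_le_pow_left₀ (apply_nonneg _ _) (h5 f) _
      _ = (∏ f, K₂ ^ m.1 f) * ∏ f, wt β ρ f ^ m.1 f := by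
          rw [← prod_mul_distrib]
          exact prod_congr rfl fun f _ => mul_pow _ _ _
      _ = _ := by rw [h7, h8]
  calc ∏ w : InfinitePlace F, (⨆ m : Mon k β d, w ((mono V m : 𝓞 F) : F)) ^ w.mult ≤
        ∏ w : InfinitePlace F, ((k.factorial * C ^ k) ^ N * ∏ b, ρ b ^ d b) ^ w.mult :=
        prod_le_prod (fun w _ => pow_nonneg (h0 w) _) fun w _ => pow_le_pow_left₀ (h0 w) (h2 w) _
    _ = _ := by rw [prod_pow_eq_pow_sum, InfinitePlace.sum_mult_eq]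

/-- good matrices of bounded height give many points -/
theorem pts_ge {M : ℕ} (hC : 1 ≤ C)
    (hM : ∀ (T : Finset (Matrix (Fin k) ι (𝓞 F))) (V : Matrix (Fin k) ι (𝓞 F)) (ρ : s → ℝ),
      (∀ b, 0 < ρ b) → Gd A β C ρ V →
      (∀ V' ∈ T, (∃ ρ' : s → ℝ, (∀ b, 0 < ρ' b) ∧ Gd A β C ρ' V') ∧
        Rel β (V.map (algebraMap (𝓞 F) F)) (V'.map (algebraMap (𝓞 F) F))) → T.card ≤ M)
    {d : s → ℕ} {B : ℝ} (hfin : (pts F k β d B).Finite) (G : MvPolynomial (Fin k × ι) F)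
    (T : Finset (Matrix (Fin k) ι (𝓞 F)))
    (hT : ∀ V ∈ T, (∃ ρ : s → ℝ, (∀ b, 0 < ρ b) ∧ Gd A β C ρ V) ∧
      MvPolynomial.eval (fun p => ((V p.1 p.2 : 𝓞 F) : F)) G ≠ 0 ∧
      Height.mulHeight (fun m : Mon k β d => mono (V.map (algebraMap (𝓞 F) F)) m) ≤ B) :
    T.card ≤ M * {P ∈ pts F k β d B | ∃ V ∈ P,
      MvPolynomial.eval (fun p => V p.1 p.2) G ≠ 0}.ncard := by
  classical
  set cl : Matrix (Fin k) ι (𝓞 F) → Set (Matrix (Fin k) ι F) :=
    fun V => {V' | Rel β (V.map (algebraMap (𝓞 F) F)) V'} with hcl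
  have hrefl : ∀ V' : Matrix (Fin k) ι (𝓞 F), V'.map (algebraMap (𝓞 F) F) ∈ cl V' := by
    intro V'
    refine ⟨1, fun _ => 1, ?_, fun _ => one_ne_zero, ?_⟩
    · rw [Matrix.det_one]
      exact one_ne_zero
    · have h3 : (Matrix.diagonal fun _ => 1 : Matrix ι ι F) = 1 := Matrix.diagonal_one
      rw [h3, Matrix.mul_one, Matrix.one_mul]
  have h1 : (T.image cl).card ≤ {P ∈ pts F k β d B | ∃ V ∈ P,
      MvPolynomial.eval (fun p => V p.1 p.2) G ≠ 0}.ncard := by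
    rw [← Set.ncard_coe_finset]
    refine Set.ncard_le_ncard ?_ (hfin.subset fun P hP => hP.1)
    intro P hP
    rw [mem_coe, mem_image] at hP
    obtain ⟨V, hV, rfl⟩ := hP
    obtain ⟨⟨ρ, hρ, hG⟩, hG0, hB⟩ := hT V hV
    exact ⟨⟨_, hG.gen hC hρ, rfl, hB⟩, _, hrefl V, hG0⟩
  refine (card_le_mul_card_image T M fun a ha => ?_).trans (Nat.mul_le_mul_left _ h1)
  obtain ⟨V, hV, rfl⟩ := mem_image.1 ha
  obtain ⟨⟨ρ, hρ, hG⟩, hG0, hB⟩ := hT V hV
  refine hM _ V ρ hρ hG fun V' hV' => ?_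
  rw [mem_filter] at hV'
  refine ⟨(hT V' hV'.1).1, ?_⟩
  have h2 := hrefl V'
  rw [hV'.2] at h2
  exact h2

end

end Run7.h3.OM
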