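import Pool.Agent.Run7.h3.OM.Mat2
import Pool.Agent.Run7.h3.OM.Pts

set_option autoImplicit false
set_option linter.unusedSectionVars false
set_option linter.unusedVariables false

/-! The lower bound. -/

namespace Run7.h3.OM

open Finset Module NumberField Run7.h3.GT

section

/-- the scales -/
theorem tuples {s : Type} [Fintype s] [DecidableEq s] (d : s → ℕ) (hd : ∀ b, 0 < d b) (b₀ : s)
    (m M : ℕ) (hM : 4 * (∑ b, d b) * m ≤ M) : ∃ J : Finset (s → ℕ),
    J.card = m ^ (Fintype.card s - 1) ∧ ∀ j ∈ J, (∀ b, m ≤ j b) ∧ (∀ b, j b ≤ M) ∧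
      ∑ b, d b * j b ≤ M ∧ M ≤ ∑ b, d b * j b + d b₀ := by
  classical
  set Φ : (s → ℕ) → (s → ℕ) := fun a => Function.update a b₀
    ((M - ∑ b ∈ univ.erase b₀, d b * a b) / d b₀) with hΦ
  set P : Finset (s → ℕ) := Fintype.piFinset fun b : s => if b = b₀ then ({0} : Finset ℕ) else
    Finset.Ico m (2 * m) with hP
  have hPm : ∀ a ∈ P, a b₀ = 0 ∧ ∀ b, b ≠ b₀ → m ≤ a b ∧ a b ≤ 2 * m := by
    intro a ha
    rw [hP, Fintype.mem_piFinset] at ha
    refine ⟨?_, fun b hb => ?_⟩
    · have h1 := ha b₀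
      rw [if_pos rfl, mem_singleton] at h1
      exact h1
    · have h1 := ha b
      rw [if_neg hb, Finset.mem_Ico] at h1
      exact ⟨h1.1, h1.2.le⟩
  refine ⟨P.image Φ, ?_, ?_⟩
  · rw [card_image_of_injOn]
    · rw [hP, Fintype.card_piFinset, ← mul_prod_erase univ _ (mem_univ b₀), if_pos rfl,
        card_singleton, one_mul]
      have h1 : ∏ b ∈ univ.erase b₀, (if b = b₀ then ({0} : Finset ℕ) else Finset.Ico m (2 * m)).card =
          ∏ b ∈ univ.erase b₀, m := by
        refine prod_congr rfl fun b hb => ?_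
        rw [if_neg (mem_erase.1 hb).1, Nat.card_Ico]
        omega
      rw [h1, prod_const, card_erase_of_mem (mem_univ _), card_univ]
    · intro a ha a' ha' h
      rw [mem_coe] at ha ha'
      funext b
      rcases eq_or_ne b b₀ with rfl | hb
      · rw [(hPm a ha).1, (hPm a' ha').1]
      · have h1 := congrFun h b
        rw [hΦ] at h1
        simp only at h1
        rw [Function.update_of_ne hb, Function.update_of_ne hb] at h1
        exact h1
  · intro j hj
    obtain ⟨a, ha, rfl⟩ := mem_image.1 hj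
    obtain ⟨h0, h1⟩ := hPm a ha
    obtain ⟨S, hS⟩ : ∃ S, S = ∑ b ∈ univ.erase b₀, d b * a b := ⟨_, rfl⟩
    have hS2 : S ≤ 2 * m * ∑ b, d b := by
      rw [hS]
      calc ∑ b ∈ univ.erase b₀, d b * a b ≤ ∑ b ∈ univ.erase b₀, d b * (2 * m) :=
            sum_le_sum fun b hb => Nat.mul_le_mul_left _ (h1 b (mem_erase.1 hb).1).2
        _ ≤ ∑ b, d b * (2 * m) := sum_le_sum_of_subset (subset_univ _)
        _ = _ := by rw [← sum_mul, mul_comm]
    have hd0 : d b₀ ≤ ∑ b, d b := single_le_sum (f := d) (fun _ _ => Nat.zero_le _) (mem_univ b₀)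
    have hΦb : Φ a b₀ = (M - S) / d b₀ := by
      rw [hΦ, hS]
      simp only
      rw [Function.update_self]
    have hΦn : ∀ b, b ≠ b₀ → Φ a b = a b := fun b hb => by
      rw [hΦ]
      simp only
      rw [Function.update_of_ne hb]
    have hsum : ∑ b, d b * Φ a b = d b₀ * ((M - S) / d b₀) + S := by
      rw [← add_sum_erase univ _ (mem_univ b₀), hΦb, hS]
      congr 1
      exact sum_congr rfl fun b hb => by rw [hΦn b (mem_erase.1 hb).1]
    have hSM : S ≤ M := by nlinarith
    have h2 : d b₀ * ((M - S) / d b₀) ≤ M - S := Nat.mul_div_le _ _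
    have h3 : M - S < d b₀ * ((M - S) / d b₀) + d b₀ := by
      have := Nat.lt_mul_div_succ (M - S) (hd b₀)
      rw [mul_add, mul_one] at this
      exact this
    have hle : ∑ b, d b * Φ a b ≤ M := by
      rw [hsum]
      omega
    refine ⟨fun b => ?_, fun b => ?_, hle, ?_⟩
    · rcases eq_or_ne b b₀ with rfl | hb
      · rw [hΦb, Nat.le_div_iff_mul_le (hd _)]
        have h4 : m * d b ≤ m * ∑ b, d b := Nat.mul_le_mul_left _ hd0
        have h5 : 4 * (∑ b, d b) * m = 4 * (m * ∑ b, d b) := by ring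
        have h6 : 2 * m * ∑ b, d b = 2 * (m * ∑ b, d b) := by ring
        omega
      · rw [hΦn b hb]
        exact (h1 b hb).1
    · calc Φ a b ≤ d b * Φ a b := Nat.le_mul_of_pos_left _ (hd b)
        _ ≤ ∑ b, d b * Φ a b :=
          single_le_sum (f := fun b => d b * Φ a b) (fun _ _ => Nat.zero_le _) (mem_univ b)
        _ ≤ M := hle
    · rw [hsum]
      omega

/-- a generic integral matrix -/
theorem exists_A (k : ℕ) (ι : Type) [Fintype ι] : ∃ A : Matrix (Fin k) ι ℤ,
    ∀ f : Fin k → ι, Function.Injective f → mnr A f ≠ 0 := by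
  classical
  obtain ⟨ε⟩ : Nonempty (ι ≃ Fin (Fintype.card ι)) := ⟨Fintype.equivFin ι⟩
  refine ⟨fun j i => ((ε i).val : ℤ) ^ (j : ℕ), fun f hf => ?_⟩
  have h1 : mnr (fun (j : Fin k) i => ((ε i).val : ℤ) ^ (j : ℕ)) f =
      (Matrix.vandermonde fun l => ((ε (f l)).val : ℤ)).det := by
    rw [← Matrix.det_transpose]
    rfl
  rw [h1, Matrix.det_vandermonde_ne_zero_iff]
  intro a b h
  apply hf
  apply ε.injective
  apply Fin.ext
  simp only at h
  exact_mod_cast h

/-- powers beat linear functions -/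
theorem pow_beats (K : ℝ) : ∃ m₁ : ℕ, ∀ m : ℕ, m₁ ≤ m → K * (m + 1) ≤ 2 ^ m := by
  have h := tendsto_pow_const_div_const_pow_of_one_lt 1 (show (1 : ℝ) < 2 by norm_num)
  have h1 := (h.eventually_lt_const (show (0 : ℝ) < 1 / (2 * (|K| + 1)) by positivity))
  obtain ⟨m₁, hm₁⟩ := Filter.eventually_atTop.1 h1
  refine ⟨max 1 m₁, fun m hm => ?_⟩
  have h2 := hm₁ m ((le_max_right _ _).trans hm)
  have h3 : (1 : ℝ) ≤ m := by exact_mod_cast (le_max_left _ _).trans hm
  rw [pow_one, div_lt_div_iff₀ (by positivity) (by positivity), one_mul] at h2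
  have h4 : K ≤ |K| + 1 := by linarith [le_abs_self K]
  have h5 : K * (m + 1) ≤ (|K| + 1) * (m + 1) := mul_le_mul_of_nonneg_right h4 (by positivity)
  have h6 : (|K| + 1) * (m + 1) ≤ (|K| + 1) * (2 * m) :=
    mul_le_mul_of_nonneg_left (by linarith) (by positivity)
  linarith

end

end Run7.h3.OM
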