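import Pool.Agent.Run7.h3.OM.Low

set_option autoImplicit false
set_option linter.unusedSectionVars false
set_option linter.unusedVariables false

/-! The lower bound for the number of points. -/

namespace Run7.h3.OM

open Finset Module NumberField Run7.h3.GT

section

theorem lower (F : Type) [Field F] [NumberField F] {k : ℕ} {ι s : Type} [Fintype ι] [DecidableEq ι]
    [Fintype s] [DecidableEq s] (hk : 2 ≤ k) (hki : k + 2 ≤ Fintype.card ι)
    (h5 : 5 ≤ Fintype.card ι) (β : ι → s) (hβ : Function.Surjective β) (d : s → ℕ)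
    (hdn : ∀ b, d b = k * (univ.filter fun i => β i = b).card)
    (hfin : ∀ T : ℝ, 1 ≤ T → (pts F k β d T).Finite) :
    ∃ c : ℝ, 0 < c ∧ ∀ G : MvPolynomial (Fin k × ι) F, G ≠ 0 → ∃ B₀ : ℝ, 1 ≤ B₀ ∧
      ∀ B : ℝ, B₀ ≤ B → c * B * Real.log B ^ (Fintype.card s - 1) ≤
        ({P ∈ pts F k β d B | ∃ V ∈ P,
          MvPolynomial.eval (fun p => V p.1 p.2) G ≠ 0}.ncard : ℝ) := by
  classical
  obtain ⟨i₀⟩ : Nonempty ι := Fintype.card_pos_iff.1 (by omega)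
  obtain ⟨A, hA⟩ := exists_A k ι
  obtain ⟨C, c, K₃, δ, N, hC, hc, hK₃, hN, hδ, hmat⟩ := mat F A (by omega) ⟨i₀⟩ hA β
  obtain ⟨Mf, Λ, hMf, hΛ, hcmp, hfib⟩ := fibre (F := F) hk hki h5 A hA β hβ hC
  obtain ⟨e, he⟩ : ∃ e, e = finrank ℚ F := ⟨_, rfl⟩
  have he0 : 0 < e := by
    rw [he]
    exact finrank_pos
  rw [← he] at hmat
  obtain ⟨Q, hQ⟩ : ∃ Q : ℕ, Q = ⌈2 * Λ⌉₊ + 2 := ⟨_, rfl⟩
  have hQΛ : 2 * Λ < (Q : ℝ) := by
    rw [hQ]
    push_cast
    linarith [Nat.le_ceil (2 * Λ)]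
  have hQ2 : 2 ≤ Q := by omega
  have hQ2' : (2 : ℝ) ≤ Q := by exact_mod_cast hQ2
  have hlQ : 0 < Real.log Q := Real.log_pos (by linarith)
  obtain ⟨n, hn⟩ : ∃ n, n = Fintype.card ι := ⟨_, rfl⟩
  obtain ⟨Sg, hSg⟩ : ∃ Sg, Sg = ∑ b, d b := ⟨_, rfl⟩
  have hcard : ∑ b, (univ.filter fun i => β i = b).card = n := by
    rw [hn, ← card_univ, card_eq_sum_card_fiberwise (s := (univ : Finset ι)) (t := univ) (f := β)
      fun _ _ => mem_univ _]
  have hSgk : Sg = k * n := by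
    rw [hSg, sum_congr rfl fun b _ => hdn b, ← mul_sum, hcard]
  have hd0 : ∀ b, 0 < d b := by
    intro b
    obtain ⟨i, hi⟩ := hβ b
    rw [hdn]
    exact Nat.mul_pos (by omega) (card_pos.2 ⟨i, mem_filter.2 ⟨mem_univ _, hi⟩⟩)
  have hdN : ∀ b, d b ≤ (univ.filter fun i => β i = b).card * n := by
    intro b
    rw [hdn, mul_comm]
    exact Nat.mul_le_mul_left _ (by omega)
  have hSg0 : 0 < Sg := by
    rw [hSgk]
    have : 0 < n := by omega
    exact Nat.mul_pos (by omega) this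
  set b₀ := β i₀ with hb₀
  -- constants
  obtain ⟨H₁, hH₁⟩ : ∃ H₁ : ℝ, H₁ = ((k.factorial * C ^ k) ^ n * (1 + N) ^ Sg) ^ e := ⟨_, rfl⟩
  have hH₁1 : 1 ≤ H₁ := by
    rw [hH₁]
    have h1 : (1 : ℝ) ≤ k.factorial := by exact_mod_cast Nat.factorial_pos k
    have h2 : (1 : ℝ) ≤ C ^ k := one_le_pow₀ hC
    have h3 : (1 : ℝ) ≤ (k.factorial * C ^ k) ^ n := one_le_pow₀ (by nlinarith)
    have h4 : (1 : ℝ) ≤ (1 + N) ^ Sg := one_le_pow₀ (by
      have : (0 : ℝ) ≤ N := Nat.cast_nonneg _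
      linarith)
    exact one_le_pow₀ (by nlinarith)
  obtain ⟨q, hq⟩ : ∃ q : ℝ, q = (Q : ℝ) ^ e := ⟨_, rfl⟩
  have hq2 : 2 ≤ q := by
    rw [hq]
    exact hQ2'.trans (le_self_pow₀ (by linarith) he0.ne')
  have hq0 : 0 < q := by linarith
  have hlq : 0 < Real.log q := Real.log_pos (by linarith)
  obtain ⟨m₁, hm₁⟩ := pow_beats (K₃ * (1 + 4 * Sg * Real.log Q))
  obtain ⟨m₂, hm₂⟩ := pow_beats (1 / δ)
  obtain ⟨W, hW⟩ : ∃ W : ℝ, W = 16 * Sg * Real.log q := ⟨_, rfl⟩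
  have hSg1 : (1 : ℝ) ≤ Sg := by exact_mod_cast hSg0
  have hW0 : 0 < W := by
    rw [hW]
    positivity
  have hlH : 0 ≤ Real.log H₁ := Real.log_nonneg hH₁1
  refine ⟨c / (H₁ * q * q ^ d b₀) / (W ^ (Fintype.card s - 1) * Mf), by positivity,
    fun G hG => ?_⟩
  obtain ⟨K₄, hmat'⟩ := hmat G hG
  obtain ⟨m₃, hm₃⟩ := pow_beats |K₄|
  refine ⟨Real.exp (2 * Real.log H₁ + 2 * W + W * m₁ + W * m₂ + W * m₃), ?_, ?_⟩
  · apply Real.one_le_exp
    positivity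
  intro B hB
  have hB0 : 0 < B := (Real.exp_pos _).trans_le hB
  obtain ⟨x, hx⟩ : ∃ x, x = Real.log B := ⟨_, rfl⟩
  have hx1 : 2 * Real.log H₁ + 2 * W + W * m₁ + W * m₂ + W * m₃ ≤ x := by
    rw [hx, Real.le_log_iff_exp_le hB0]
    exact hB
  have hWm₁ : 0 ≤ W * m₁ := by positivity
  have hWm₂ : 0 ≤ W * m₂ := by positivity
  have hWm₃ : 0 ≤ W * m₃ := by positivity
  have hx0 : 0 ≤ x := by linarith
  have hB1 : 1 ≤ B := by
    rw [← Real.log_nonneg_iff hB0, ← hx]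
    exact hx0
  rw [← hx]
  -- the scale
  obtain ⟨y, hy⟩ : ∃ y : ℝ, y = (x - Real.log H₁) / Real.log q := ⟨_, rfl⟩
  have hy0 : 0 ≤ y := by
    rw [hy]
    exact div_nonneg (by linarith) hlq.le
  obtain ⟨M, hM⟩ : ∃ M : ℕ, M = ⌊y⌋₊ := ⟨_, rfl⟩
  obtain ⟨m, hm⟩ : ∃ m : ℕ, m = M / (4 * Sg) := ⟨_, rfl⟩
  have hMy : (M : ℝ) ≤ y := by
    rw [hM]
    exact Nat.floor_le hy0
  have hMy' : y < M + 1 := by
    rw [hM]
    exact Nat.lt_floor_add_one y
  have hmM : 4 * Sg * m ≤ M := by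
    rw [hm]
    exact Nat.mul_div_le _ _
  have hmM' : M < 4 * Sg * (m + 1) := by
    rw [hm]
    exact Nat.lt_mul_div_succ _ (by omega)
  have hmx : x / W ≤ m := by
    have h1 : (M : ℝ) < 4 * Sg * (m + 1) := by exact_mod_cast hmM'
    have h2 : y < 4 * Sg * (m + 1) + 1 := by linarith
    have h3 : x / 2 ≤ y * Real.log q := by
      rw [hy, div_mul_cancel₀ _ hlq.ne']
      linarith
    have h4 : y * Real.log q < (4 * Sg * (m + 1) + 1) * Real.log q :=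
      mul_lt_mul_of_pos_right h2 hlq
    have h5 : (4 * Sg * ((m : ℝ) + 1) + 1) * Real.log q ≤ W / 4 * (m + 1) + W / 16 := by
      have h6 : Real.log q ≤ W / 16 := by
        rw [hW]
        nlinarith
      have h7 : 4 * Sg * ((m : ℝ) + 1) * Real.log q = W / 4 * (m + 1) := by
        rw [hW]
        ring
      linarith
    have h6 : x / 2 < W / 4 * (m + 1) + W / 16 := by linarith
    rw [div_le_iff₀ hW0]
    nlinarith
  have hm1 : m₁ ≤ m := by
    have h1 : (m₁ : ℝ) ≤ x / W := by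
      rw [le_div_iff₀ hW0]
      nlinarith
    exact_mod_cast h1.trans hmx
  have hm2 : m₂ ≤ m := by
    have h1 : (m₂ : ℝ) ≤ x / W := by
      rw [le_div_iff₀ hW0]
      nlinarith
    exact_mod_cast h1.trans hmx
  have hm3 : m₃ ≤ m := by
    have h1 : (m₃ : ℝ) ≤ x / W := by
      rw [le_div_iff₀ hW0]
      nlinarith
    exact_mod_cast h1.trans hmx
  have hcond3 : K₄ ≤ (Q : ℝ) ^ m := by
    have h1 := hm₃ m hm3
    have h2 : (2 : ℝ) ^ m ≤ (Q : ℝ) ^ m := pow_le_pow_left₀ (by norm_num) hQ2' _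
    have h3 : |K₄| ≤ |K₄| * ((m : ℝ) + 1) := by
      have : 0 ≤ |K₄| * (m : ℝ) := by positivity
      linarith
    linarith [le_abs_self K₄]
  obtain ⟨J, hJc, hJ⟩ := tuples d hd0 b₀ m M (hSg ▸ hmM)
  -- conditions on the scale
  have hcond1 : 1 ≤ δ * ((Q : ℝ) ^ m) := by
    have h1 := hm₂ m hm2
    have h2 : (2 : ℝ) ^ m ≤ (Q : ℝ) ^ m := pow_le_pow_left₀ (by norm_num) hQ2' _
    have h3 : 1 / δ ≤ 1 / δ * ((m : ℝ) + 1) := by
      have : 0 ≤ 1 / δ * (m : ℝ) := by positivity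
      linarith
    have h4 : 1 / δ ≤ (Q : ℝ) ^ m := by linarith
    rw [div_le_iff₀ hδ] at h4
    linarith
  have hcond2 : K₃ * (1 + Real.log ((Q : ℝ) ^ M)) ≤ ((Q : ℝ) ^ m) ^ e := by
    have h1 := hm₁ m hm1
    have h2 : (2 : ℝ) ^ m ≤ (Q : ℝ) ^ m := pow_le_pow_left₀ (by norm_num) hQ2' _
    have h3 : (Q : ℝ) ^ m ≤ ((Q : ℝ) ^ m) ^ e :=
      le_self_pow₀ (one_le_pow₀ (by linarith)) he0.ne'
    refine le_trans ?_ (h1.trans (h2.trans h3))
    rw [mul_assoc]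
    refine mul_le_mul_of_nonneg_left ?_ (by linarith)
    rw [Real.log_pow]
    have h4 : (M : ℝ) ≤ 4 * Sg * (m + 1) := by exact_mod_cast hmM'.le
    have h5 : (M : ℝ) * Real.log Q ≤ 4 * Sg * (m + 1) * Real.log Q :=
      mul_le_mul_of_nonneg_right h4 hlQ.le
    have h6 : (0 : ℝ) ≤ m := Nat.cast_nonneg _
    calc 1 + (M : ℝ) * Real.log Q ≤ 1 + 4 * Sg * (m + 1) * Real.log Q := by linarith
      _ ≤ (m + 1) + 4 * Sg * (m + 1) * Real.log Q := by linarith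
      _ = _ := by ring
  -- the matrices
  have hT : ∀ j ∈ J, ∃ T : Finset (Matrix (Fin k) ι (𝓞 F)),
      (∀ V ∈ T, Gd A β C (fun b => 1 + N * ((Q ^ j b : ℕ) : ℝ)) V ∧
        MvPolynomial.eval (fun p => ((V p.1 p.2 : 𝓞 F) : F)) G ≠ 0) ∧
      c * ∏ i, (((Q ^ j (β i) : ℕ) : ℝ) ^ e) ^ k ≤ T.card := by
    intro j hj
    obtain ⟨h1, h2, h3, h4⟩ := hJ j hj
    refine hmat' (fun b => Q ^ j b) ((Q : ℝ) ^ m) ((Q : ℝ) ^ M) (fun b => ?_) (fun b => ?_) hcond1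
      (one_le_pow₀ (by linarith)) hcond2 hcond3
    · push_cast
      exact pow_le_pow_right₀ (by linarith) (h1 b)
    · push_cast
      exact pow_le_pow_right₀ (by linarith) (h2 b)
  choose! T hT1 hT2 using hT
  have hρ0 : ∀ (j : s → ℕ) b, (0 : ℝ) < 1 + N * ((Q ^ j b : ℕ) : ℝ) := fun j b => by positivity
  -- sizes
  have hqM : q ^ M ≤ B / H₁ := by
    have h1 : (M : ℝ) * Real.log q ≤ x - Real.log H₁ := by
      have := mul_le_mul_of_nonneg_right hMy hlq.le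
      rwa [hy, div_mul_cancel₀ _ hlq.ne'] at this
    rw [← Real.log_le_log_iff (by positivity) (by positivity), Real.log_pow,
      Real.log_div hB0.ne' (by linarith), ← hx]
    exact h1
  have hqM' : B / H₁ ≤ q ^ M * q := by
    have h1 : x - Real.log H₁ ≤ ((M + 1 : ℕ) : ℝ) * Real.log q := by
      have := mul_le_mul_of_nonneg_right hMy'.le hlq.le
      rw [hy, div_mul_cancel₀ _ hlq.ne'] at this
      push_cast
      exact this
    rw [← pow_succ, ← Real.log_le_log_iff (by positivity) (by positivity), Real.log_pow,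
      Real.log_div hB0.ne' (by linarith), ← hx]
    exact h1
  have hprod : ∀ j : s → ℕ, ∏ i, (((Q ^ j (β i) : ℕ) : ℝ) ^ e) ^ k = q ^ (∑ b, d b * j b) := by
    intro j
    have h1 : ∀ i, (((Q ^ j (β i) : ℕ) : ℝ) ^ e) ^ k = q ^ (k * j (β i)) := by
      intro i
      rw [hq]
      push_cast
      rw [← pow_mul, ← pow_mul, ← pow_mul]
      congr 1
      ring
    rw [prod_congr rfl fun i _ => h1 i, prod_pow_eq_pow_sum]
    congr 1
    rw [← sum_fiberwise_of_maps_to (s := univ) (t := univ) (g := β) (fun _ _ => mem_univ _)]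
    refine sum_congr rfl fun b _ => ?_
    rw [sum_congr rfl (g := fun _ => k * j b) fun i hi => by rw [(mem_filter.1 hi).2], sum_const,
      smul_eq_mul, hdn]
    ring
  have hTc : ∀ j ∈ J, c / (H₁ * q * q ^ d b₀) * B ≤ ((T j).card : ℝ) := by
    intro j hj
    obtain ⟨h1, h2, h3, h4⟩ := hJ j hj
    refine le_trans ?_ (hT2 j hj)
    rw [hprod]
    have h6 : q ^ M ≤ q ^ (∑ b, d b * j b) * q ^ d b₀ := by
      rw [← pow_add]
      exact pow_le_pow_right₀ (by linarith) h4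
    have h7 : B ≤ H₁ * q * q ^ d b₀ * q ^ (∑ b, d b * j b) := by
      rw [div_le_iff₀ (by positivity)] at hqM'
      calc B ≤ q ^ M * q * H₁ := hqM'
        _ ≤ q ^ (∑ b, d b * j b) * q ^ d b₀ * q * H₁ :=
          mul_le_mul_of_nonneg_right (mul_le_mul_of_nonneg_right h6 hq0.le) (by linarith)
        _ = _ := by ring
    rw [div_mul_eq_mul_div, div_le_iff₀ (by positivity)]
    calc c * B ≤ c * (H₁ * q * q ^ d b₀ * q ^ (∑ b, d b * j b)) :=
          mul_le_mul_of_nonneg_left h7 hc.le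
      _ = _ := by ring
  -- heights
  have hTh : ∀ j ∈ J, ∀ V ∈ T j,
      Height.mulHeight (fun m : Mon k β d => mono (V.map (algebraMap (𝓞 F) F)) m) ≤ B := by
    intro j hj V hV
    obtain ⟨h1, h2, h3, h4⟩ := hJ j hj
    have h6 := (hT1 j hj V hV).1.height hC (hρ0 j) (by omega) (by omega)
      (show ∑ b, d b = k * n by rw [← hSg, hSgk]) hdN
    refine h6.trans ?_
    rw [← he]
    have h7 : ∏ b, ((1 : ℝ) + N * ((Q ^ j b : ℕ) : ℝ)) ^ d b ≤
        (1 + N) ^ Sg * (Q : ℝ) ^ (∑ b, d b * j b) := by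
      rw [hSg, ← prod_pow_eq_pow_sum, ← prod_pow_eq_pow_sum, ← prod_mul_distrib]
      refine prod_le_prod (fun b _ => by positivity) fun b _ => ?_
      have h8 : (1 : ℝ) + N * ((Q ^ j b : ℕ) : ℝ) ≤ (1 + N) * (Q : ℝ) ^ j b := by
        push_cast
        have : (1 : ℝ) ≤ (Q : ℝ) ^ j b := one_le_pow₀ (by linarith)
        linarith
      calc ((1 : ℝ) + N * ((Q ^ j b : ℕ) : ℝ)) ^ d b ≤ ((1 + N) * (Q : ℝ) ^ j b) ^ d b :=
            pow_le_pow_left₀ (hρ0 j b).le h8 _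
        _ = _ := by rw [mul_pow, ← pow_mul, mul_comm (j b)]
    have h8 : (k.factorial * C ^ k) ^ n * ∏ b, ((1 : ℝ) + N * ((Q ^ j b : ℕ) : ℝ)) ^ d b ≤
        (k.factorial * C ^ k) ^ n * (1 + N) ^ Sg * (Q : ℝ) ^ (∑ b, d b * j b) := by
      rw [mul_assoc]
      exact mul_le_mul_of_nonneg_left h7 (by positivity)
    have h9 : 0 ≤ (k.factorial * C ^ k) ^ n * ∏ b, ((1 : ℝ) + N * ((Q ^ j b : ℕ) : ℝ)) ^ d b := by
      have : 0 ≤ ∏ b, ((1 : ℝ) + N * ((Q ^ j b : ℕ) : ℝ)) ^ d b :=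
        prod_nonneg fun b _ => by positivity
      positivity
    calc _ ≤ ((k.factorial * C ^ k) ^ n * (1 + N) ^ Sg * (Q : ℝ) ^ (∑ b, d b * j b)) ^ e :=
          pow_le_pow_left₀ h9 h8 _
      _ = H₁ * q ^ (∑ b, d b * j b) := by
          rw [mul_pow, ← hH₁, hq, ← pow_mul, ← pow_mul, mul_comm e]
      _ ≤ H₁ * q ^ M :=
          mul_le_mul_of_nonneg_left (pow_le_pow_right₀ (by linarith) h3) (by linarith)
      _ ≤ H₁ * (B / H₁) := mul_le_mul_of_nonneg_left hqM (by linarith)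
      _ = B := by
          have : H₁ ≠ 0 := by linarith
          field_simp
  -- the sets are disjoint
  have hrefl : ∀ V : Matrix (Fin k) ι (𝓞 F), Rel β (V.map (algebraMap (𝓞 F) F))
      (V.map (algebraMap (𝓞 F) F)) := by
    intro V
    refine ⟨1, fun _ => 1, ?_, fun _ => one_ne_zero, ?_⟩
    · rw [Matrix.det_one]
      exact one_ne_zero
    · have h3 : (Matrix.diagonal fun _ => 1 : Matrix ι ι F) = 1 := Matrix.diagonal_one
      rw [h3, Matrix.mul_one, Matrix.one_mul]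
  have hstep : ∀ a a' : ℕ, (1 : ℝ) + N * ((Q ^ a : ℕ) : ℝ) ≤ Λ * (1 + N * ((Q ^ a' : ℕ) : ℝ)) →
      a ≤ a' := by
    intro a a' h
    by_contra hcon
    push Not at hcon
    have h1 : (Q : ℝ) ^ (a' + 1) ≤ (Q : ℝ) ^ a := pow_le_pow_right₀ (by linarith) hcon
    have h2 : (1 : ℝ) ≤ (Q : ℝ) ^ a' := one_le_pow₀ (by linarith)
    have hN1 : (1 : ℝ) ≤ N := by exact_mod_cast hN
    push_cast at h
    rw [pow_succ] at h1
    have h3 : (N : ℝ) * ((Q : ℝ) ^ a' * Q) ≤ N * (Q : ℝ) ^ a :=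
      mul_le_mul_of_nonneg_left h1 (by linarith)
    have h4 : (1 : ℝ) ≤ N * (Q : ℝ) ^ a' := by nlinarith
    have h5 : Λ * (1 + N * (Q : ℝ) ^ a') ≤ Λ * (2 * (N * (Q : ℝ) ^ a')) :=
      mul_le_mul_of_nonneg_left (by linarith) (by linarith)
    have h6 : 2 * Λ * (N * (Q : ℝ) ^ a') ≤ Q * (N * (Q : ℝ) ^ a') :=
      mul_le_mul_of_nonneg_right hQΛ.le (by linarith)
    nlinarith
  have hdisj : Set.PairwiseDisjoint (J : Set (s → ℕ)) T := by
    intro j hj j' hj' hjj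
    rw [Function.onFun, Finset.disjoint_left]
    intro V hV hV'
    apply hjj
    have h1 := hcmp _ _ V V (hρ0 j) (hρ0 j') (hT1 j hj V hV).1 (hT1 j' hj' V hV').1 (hrefl V)
    funext b
    exact le_antisymm (hstep _ _ (h1 b).2) (hstep _ _ (h1 b).1)
  have hpts := pts_ge hC hfib (hfin B hB1) G (J.biUnion T) fun V hV => by
    obtain ⟨j, hj, hVj⟩ := mem_biUnion.1 hV
    exact ⟨⟨_, hρ0 j, (hT1 j hj V hVj).1⟩, (hT1 j hj V hVj).2, hTh j hj V hVj⟩
  rw [card_biUnion hdisj] at hpts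
  obtain ⟨Np, hNp⟩ : ∃ Np : ℕ, Np = {P ∈ pts F k β d B | ∃ V ∈ P,
    MvPolynomial.eval (fun p => V p.1 p.2) G ≠ 0}.ncard := ⟨_, rfl⟩
  rw [← hNp] at hpts ⊢
  have hpts' : ∑ j ∈ J, ((T j).card : ℝ) ≤ Mf * (Np : ℝ) := by
    exact_mod_cast hpts
  have h1 : ((m : ℝ) ^ (Fintype.card s - 1)) * (c / (H₁ * q * q ^ d b₀) * B) ≤
      ∑ j ∈ J, ((T j).card : ℝ) := by
    calc _ = ∑ j ∈ J, c / (H₁ * q * q ^ d b₀) * B := by
          rw [sum_const, hJc, nsmul_eq_mul]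
          push_cast
          rfl
      _ ≤ _ := sum_le_sum hTc
  have h2 : (x / W) ^ (Fintype.card s - 1) ≤ (m : ℝ) ^ (Fintype.card s - 1) :=
    pow_le_pow_left₀ (by positivity) hmx _
  have h3 : (x / W) ^ (Fintype.card s - 1) * (c / (H₁ * q * q ^ d b₀) * B) ≤
      Mf * (Np : ℝ) :=
    (mul_le_mul_of_nonneg_right h2 (by positivity)).trans (h1.trans hpts')
  have hMf' : (0 : ℝ) < Mf := by exact_mod_cast hMf
  calc c / (H₁ * q * q ^ d b₀) / (W ^ (Fintype.card s - 1) * Mf) * B * x ^ (Fintype.card s - 1) =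
        (x / W) ^ (Fintype.card s - 1) * (c / (H₁ * q * q ^ d b₀) * B) / Mf := by
        rw [div_pow]
        field_simp
    _ ≤ _ := by
        rw [div_le_iff₀ hMf', mul_comm _ (Mf : ℝ)]
        exact h3

end

end Run7.h3.OM
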