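import Pool.Agent.Run7.h3.OM.Sv

set_option autoImplicit false
set_option linter.unusedSectionVars false
set_option linter.unusedVariables false

/-! Two minors are rarely divisible by one large prime. -/

namespace Run7.h3.OM

open Finset Module NumberField Run7.h3.GT

section

variable (F : Type) [Field F] [NumberField F]

/-- the main estimate: one minor is a linear function of a variable, which the other element does
not contain -/
theorem bl (k : ℕ) {CP : ℝ} (hCP : 1 ≤ CP) : ∃ K : ℝ, 1 ≤ K ∧ ∀ (ι : Type) [Fintype ι] [DecidableEq ι]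
    (c : ℕ → ι → 𝓞 F) (N : 𝓞 F) (X : ι → ℝ) (Xm : ℝ) (Y₀ : ℕ) (R : ℝ), 1 ≤ Xm → (∀ i, Xm ≤ X i) →
    1 ≤ Y₀ → 1 ≤ R → N ≠ 0 → (∀ p : Ideal (𝓞 F), p.IsMaximal → N ∉ p → Y₀ < Ideal.absNorm p) →
    ∀ (r : ℕ) (hr : r < k) (f : Fin (r + 1) → ι), Function.Injective f → ∀ (l : Fin (r + 1))
    (P : (Fin k × ι → 𝓞 F) → 𝓞 F), (∀ y x, P (Function.update y (⟨r, hr⟩, f l) x) = P y) →
    (∀ I : Ideal (𝓞 F), I.IsPrime → N ∉ I → ∀ T : Finset (Fin k × ι → 𝓞 F),
      (∀ y ∈ T, y ∈ YS F k X ∧ P y ∈ I) → (T.card : ℝ) ≤ CP * (YS F k X).card *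
        (1 / (Ideal.absNorm I : ℝ) + 1 / Xm ^ finrank ℚ F)) →
    (∀ y ∈ YS F k X, P y ∈ bxs F R) →
    ∀ T : Finset (Fin k × ι → 𝓞 F), (∀ y ∈ T, y ∈ YS F k X ∧ ∃ p : Ideal (𝓞 F), p.IsMaximal ∧ N ∉ p ∧
      P y ∈ p ∧ mn c N y r (fun j => f (l.succAbove j)) ∉ p ∧ mn c N y (r + 1) f ∈ p) →
    (T.card : ℝ) ≤ K * (YS F k X).card * (1 / (Y₀ : ℝ) + (1 + Real.log R) / Xm ^ finrank ℚ F) := by
  classical
  obtain ⟨K₁, hK₁, hlin⟩ := lin_cnt F
  obtain ⟨c₀, hc₀, hlow⟩ := bxs_lower F
  set e := finrank ℚ F with he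
  have he0 : 0 < e := finrank_pos
  have he1 : (1 : ℝ) ≤ e := by exact_mod_cast he0
  have hl2 : 0 < Real.log 2 := Real.log_pos (by norm_num)
  refine ⟨CP + K₁ * e / (Real.log 2 * c₀) + K₁ / c₀ * CP * e * (2 + e), ?_,
    fun ι _ _ c N X Xm Y₀ R hXm hX hY₀ hR hN hNp r hr f hf l P hPu hPp hPR T hT => ?_⟩
  · have h1 : 0 ≤ K₁ * e / (Real.log 2 * c₀) := by positivity
    have h2 : 0 ≤ K₁ / c₀ * CP * e * (2 + e) := by positivity
    linarith
  set S := YS F k X with hS
  set v : Fin k × ι := (⟨r, hr⟩, f l) with hv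
  set g : Fin r → ι := fun j => f (l.succAbove j) with hg
  set Xi : ℝ := X (f l) with hXi
  have hXi1 : 1 ≤ Xi := hXm.trans (hX _)
  set Z : ℕ := ⌈R ^ e⌉₊ with hZ
  have hRe : 1 ≤ R ^ e := one_le_pow₀ hR
  set Q : (Fin k × ι → 𝓞 F) → Prop := fun y => ∃ p : Ideal (𝓞 F), p.IsMaximal ∧ N ∉ p ∧
      P y ∈ p ∧ mn c N y r g ∉ p ∧ mn c N y (r + 1) f ∈ p with hQ
  set prs' := (prs F Y₀ Z).filter fun p => N ∉ p with hprs'
  set b : ℝ := ((bx F Xi).card : ℝ) with hb
  have hb1 : c₀ * Xi ^ e ≤ b := by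
    rw [hb, card_bx F (by linarith)]
    exact hlow _ hXi1
  have hXie : 0 < Xi ^ e := by positivity
  have hXme : 0 < Xm ^ e := by positivity
  have hXX : Xm ^ e ≤ Xi ^ e := pow_le_pow_left₀ (by linarith) (hX _) _
  have hb0 : 0 < b := lt_of_lt_of_le (by positivity) hb1
  have hlR : 0 ≤ Real.log R := Real.log_nonneg hR
  -- the bound for one fibre
  set ω : (Fin k × ι → 𝓞 F) → Finset (Ideal (𝓞 F)) := fun y => prs'.filter fun p => P y ∈ p with hω
  have hfib : ∀ y ∈ S, ((((bx F Xi).filter fun x => Q (Function.update y v x)).card : ℕ) : ℝ) ≤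
      (if P y = 0 then b else 0) + (K₁ * (e * Real.log R / Real.log 2) +
        ∑ p ∈ prs', K₁ * Xi ^ e * (1 / (Ideal.absNorm p : ℝ)) * (if P y ∈ p then 1 else 0)) := by
    intro y hy
    have hnn : 0 ≤ K₁ * (e * Real.log R / Real.log 2) +
        ∑ p ∈ prs', K₁ * Xi ^ e * (1 / (Ideal.absNorm p : ℝ)) * (if P y ∈ p then 1 else 0) := by
      refine add_nonneg (by positivity) (sum_nonneg fun p _ => ?_)
      split_ifs <;> positivity
    rcases eq_or_ne (P y) 0 with h0 | h0
    · rw [if_pos h0]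
      have h1 : ((((bx F Xi).filter fun x => Q (Function.update y v x)).card : ℕ) : ℝ) ≤ b := by
        rw [hb]
        exact_mod_cast card_filter_le _ _
      linarith
    · rw [if_neg h0, zero_add]
      obtain ⟨b', hb'⟩ := mn_lin c N y hr f hf l
      have h1 : ((bx F Xi).filter fun x => Q (Function.update y v x)) ⊆
          (ω y).biUnion fun p => (bx F Xi).filter fun x =>
            mn c N y r g ∉ p ∧ mn c N (Function.update y v x) (r + 1) f ∈ p := by
        intro x hx
        rw [mem_filter] at hx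
        obtain ⟨hx1, p, hp, hNp', hPp', hm1, hm2⟩ := hx
        rw [hPu] at hPp'
        rw [mn_update_row c N y _ x le_rfl] at hm1
        rw [mem_biUnion]
        refine ⟨p, ?_, mem_filter.2 ⟨hx1, hm1, hm2⟩⟩
        rw [hω, mem_filter, hprs', mem_filter, mem_prs]
        refine ⟨⟨⟨hp, hNp p hp hNp', ?_⟩, hNp'⟩, hPp'⟩
        have h2 := nrm_ge F hPp' h0 (hPR y hy)
        rw [← he] at h2
        have h3 : (Ideal.absNorm p : ℝ) ≤ Z := h2.trans (Nat.le_ceil _)
        exact_mod_cast h3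
      have h2 : ∀ p ∈ ω y, ((((bx F Xi).filter fun x =>
            mn c N y r g ∉ p ∧ mn c N (Function.update y v x) (r + 1) f ∈ p).card : ℕ) : ℝ) ≤
          K₁ * (1 + Xi ^ e / (Ideal.absNorm p : ℝ)) := by
        intro p hp
        rw [hω, mem_filter, hprs', mem_filter, mem_prs] at hp
        have hpp := hp.1.1.1.isPrime
        rcases em (mn c N y r g ∈ p) with h | h
        · have : ((bx F Xi).filter fun x =>
            mn c N y r g ∉ p ∧ mn c N (Function.update y v x) (r + 1) f ∈ p) = ∅ := by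
            rw [eq_empty_iff_forall_notMem]
            intro x hx
            exact (mem_filter.1 hx).2.1 h
          rw [this]
          simp only [card_empty, Nat.cast_zero]
          positivity
        · refine hlin Xi hXi1 p hpp ((-1) ^ (r + l.val) * mn c N y r g) N b' ?_ hp.1.2 _ ?_
          · intro h5
            rcases hpp.mem_or_mem h5 with h6 | h6
            · have h7 : ((-1 : 𝓞 F)) ^ (r + l.val) * (-1) ^ (r + l.val) = 1 := by
                rw [← mul_pow]
                norm_num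
              have h8 := p.mul_mem_right ((-1) ^ (r + l.val)) h6
              rw [h7] at h8
              exact hpp.ne_top ((Ideal.eq_top_iff_one _).2 h8)
            · exact h h6
          · intro x hx
            rw [mem_filter] at hx
            refine ⟨(mem_bx F (by linarith)).1 hx.1, ?_⟩
            have h5 := hx.2.2
            rw [hb' x] at h5
            exact h5
      have h3 : ((((bx F Xi).filter fun x => Q (Function.update y v x)).card : ℕ) : ℝ) ≤
          ∑ p ∈ ω y, K₁ * (1 + Xi ^ e / (Ideal.absNorm p : ℝ)) := by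
        have h4 := (card_le_card h1).trans card_biUnion_le
        have h5 : ((((bx F Xi).filter fun x => Q (Function.update y v x)).card : ℕ) : ℝ) ≤
            ∑ p ∈ ω y, ((((bx F Xi).filter fun x =>
            mn c N y r g ∉ p ∧ mn c N (Function.update y v x) (r + 1) f ∈ p).card : ℕ) : ℝ) := by
          exact_mod_cast h4
        exact h5.trans (sum_le_sum h2)
      refine h3.trans ?_
      have h4 : ∑ p ∈ ω y, K₁ * (1 + Xi ^ e / (Ideal.absNorm p : ℝ)) = K₁ * (ω y).card +
          ∑ p ∈ ω y, K₁ * Xi ^ e * (1 / (Ideal.absNorm p : ℝ)) := by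
        rw [mul_comm K₁, ← nsmul_eq_mul, ← sum_const, ← sum_add_distrib]
        refine sum_congr rfl fun p _ => ?_
        ring
      rw [h4]
      refine add_le_add (mul_le_mul_of_nonneg_left ?_ (by linarith)) (le_of_eq ?_)
      · rw [le_div_iff₀ hl2]
        refine card_primes_le F h0 (ω y) (fun p hp => ?_) (hPR y hy)
        rw [hω, mem_filter, hprs', mem_filter, mem_prs] at hp
        exact ⟨hp.1.1.1, hp.2⟩
      · rw [hω]
        simp only
        rw [sum_filter]
        refine sum_congr rfl fun p _ => ?_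
        split_ifs <;> ring
  have hiso := iso (fun p : Fin k × ι => bx F (X p.2)) v Q
  have h1 : ((S.filter Q).card : ℝ) * b ≤ ∑ y ∈ S, ((if P y = 0 then b else 0) +
      (K₁ * (e * Real.log R / Real.log 2) +
        ∑ p ∈ prs', K₁ * Xi ^ e * (1 / (Ideal.absNorm p : ℝ)) * (if P y ∈ p then 1 else 0))) := by
    have h7 := congrArg (fun n : ℕ => (n : ℝ)) hiso
    rw [Nat.cast_sum, Nat.cast_mul] at h7
    have h8 : ((S.filter Q).card : ℝ) * b = ∑ y ∈ S, ((((bx F Xi).filter fun x =>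
        Q (Function.update y v x)).card : ℕ) : ℝ) := h7
    rw [h8]
    exact sum_le_sum hfib
  -- the three sums
  have hP0 : ∑ y ∈ S, (if P y = 0 then b else 0) ≤ b * (CP * S.card * (1 / Xm ^ e)) := by
    have h2 := hPp ⊥ Ideal.isPrime_bot (by rw [Ideal.mem_bot]; exact hN) (S.filter fun y => P y = 0)
      fun y hy => ⟨(mem_filter.1 hy).1, by rw [Ideal.mem_bot]; exact (mem_filter.1 hy).2⟩
    rw [Ideal.absNorm_bot, Nat.cast_zero, div_zero, zero_add] at h2
    rw [← sum_filter, sum_const, nsmul_eq_mul, mul_comm]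
    exact mul_le_mul_of_nonneg_left h2 hb0.le
  have hP1 : ∑ y ∈ S, ∑ p ∈ prs', K₁ * Xi ^ e * (1 / (Ideal.absNorm p : ℝ)) *
      (if P y ∈ p then 1 else 0) ≤ K₁ * Xi ^ e * (CP * S.card) * (e * (1 / (Y₀ : ℝ)) +
        e * (1 + Real.log (max 1 Z)) * (1 / Xm ^ e)) := by
    rw [sum_comm]
    have h2 : ∀ p ∈ prs', ∑ y ∈ S, K₁ * Xi ^ e * (1 / (Ideal.absNorm p : ℝ)) *
        (if P y ∈ p then 1 else 0) ≤ K₁ * Xi ^ e * (CP * S.card) * (1 / (Ideal.absNorm p : ℝ) ^ 2 +
          1 / (Ideal.absNorm p : ℝ) * (1 / Xm ^ e)) := by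
      intro p hp
      rw [hprs', mem_filter, mem_prs] at hp
      have h3 := hPp p hp.1.1.isPrime hp.2 (S.filter fun y => P y ∈ p)
        fun y hy => ⟨(mem_filter.1 hy).1, (mem_filter.1 hy).2⟩
      rw [← mul_sum, ← sum_filter, sum_const, nsmul_eq_mul, mul_one]
      have h4 : 0 ≤ K₁ * Xi ^ e * (1 / (Ideal.absNorm p : ℝ)) := by positivity
      refine (mul_le_mul_of_nonneg_left h3 h4).trans (le_of_eq ?_)
      ring
    refine (sum_le_sum h2).trans ?_
    rw [← mul_sum]
    refine mul_le_mul_of_nonneg_left ?_ (by positivity)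
    rw [sum_add_distrib, ← sum_mul]
    have h3 : ∑ p ∈ prs', 1 / (Ideal.absNorm p : ℝ) ^ 2 ≤ e * (1 / (Y₀ : ℝ)) := by
      calc ∑ p ∈ prs', 1 / (Ideal.absNorm p : ℝ) ^ 2 ≤ ∑ p ∈ prs F Y₀ Z, 1 / (Ideal.absNorm p : ℝ) ^ 2 :=
            sum_le_sum_of_subset_of_nonneg (filter_subset _ _) fun _ _ _ => by positivity
        _ ≤ e * ∑ m ∈ Ioc Y₀ Z, (1 : ℝ) / (m : ℝ) ^ 2 :=
            sum_prs_le F hY₀ (fun m => 1 / (m : ℝ) ^ 2) fun m => by positivity
        _ ≤ _ := mul_le_mul_of_nonneg_left (sum_sq_le Y₀ Z hY₀) (by positivity)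
    have h4 : ∑ p ∈ prs', 1 / (Ideal.absNorm p : ℝ) ≤ e * (1 + Real.log (max 1 Z)) := by
      calc ∑ p ∈ prs', 1 / (Ideal.absNorm p : ℝ) ≤ ∑ p ∈ prs F Y₀ Z, 1 / (Ideal.absNorm p : ℝ) :=
            sum_le_sum_of_subset_of_nonneg (filter_subset _ _) fun _ _ _ => by positivity
        _ ≤ e * ∑ m ∈ Ioc Y₀ Z, (1 : ℝ) / (m : ℝ) :=
            sum_prs_le F hY₀ (fun m => 1 / (m : ℝ)) fun m => by positivity
        _ ≤ _ := mul_le_mul_of_nonneg_left (sum_inv_le Y₀ Z hY₀) (by positivity)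
    exact add_le_add h3 (mul_le_mul_of_nonneg_right h4 (by positivity))
  have hlZ : Real.log (max 1 Z) ≤ 1 + e * Real.log R := by
    have h2 : (max 1 (Z : ℝ)) ≤ 2 * R ^ e := by
      refine max_le (by linarith) ?_
      have := (Nat.ceil_lt_add_one (show 0 ≤ R ^ e by positivity)).le
      linarith
    have h3 := Real.log_le_log (lt_of_lt_of_le one_pos (le_max_left _ _)) h2
    rw [Real.log_mul (by norm_num) (by positivity), Real.log_pow] at h3
    have h4 : Real.log 2 ≤ 1 := by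
      have := Real.log_two_lt_d9
      linarith
    linarith
  have h2 : ((S.filter Q).card : ℝ) * b ≤ b * (CP * S.card * (1 / Xm ^ e)) +
      (S.card * (K₁ * (e * Real.log R / Real.log 2)) + K₁ * Xi ^ e * (CP * S.card) *
        (e * (1 / (Y₀ : ℝ)) + e * (2 + e * Real.log R) * (1 / Xm ^ e))) := by
    refine h1.trans ?_
    rw [sum_add_distrib, sum_add_distrib, sum_const, nsmul_eq_mul]
    refine add_le_add hP0 (add_le_add le_rfl (hP1.trans ?_))
    refine mul_le_mul_of_nonneg_left ?_ (by positivity)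
    refine add_le_add le_rfl (mul_le_mul_of_nonneg_right ?_ (by positivity))
    exact mul_le_mul_of_nonneg_left (by linarith) (by positivity)
  have h3 : ((S.filter Q).card : ℝ) ≤ CP * S.card * (1 / Xm ^ e) +
      (S.card * (K₁ * (e * Real.log R / Real.log 2)) / (c₀ * Xm ^ e) + K₁ / c₀ * (CP * S.card) *
        (e * (1 / (Y₀ : ℝ)) + e * (2 + e * Real.log R) * (1 / Xm ^ e))) := by
    rw [← mul_le_mul_iff_left₀ hb0]
    refine h2.trans ?_
    rw [add_mul, add_mul]
    refine add_le_add (le_of_eq (mul_comm _ _)) (add_le_add ?_ ?_)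
    · have h4 : c₀ * Xm ^ e ≤ b := (mul_le_mul_of_nonneg_left hXX hc₀.le).trans hb1
      have h5 : 0 < c₀ * Xm ^ e := by positivity
      have h6 : 0 ≤ S.card * (K₁ * (e * Real.log R / Real.log 2)) := by positivity
      rw [div_mul_eq_mul_div, le_div_iff₀ h5]
      exact mul_le_mul_of_nonneg_left h4 h6
    · have h6 : 0 ≤ CP * S.card * (e * (1 / (Y₀ : ℝ)) + e * (2 + e * Real.log R) * (1 / Xm ^ e)) := by
        positivity
      have h7 : K₁ * Xi ^ e ≤ K₁ / c₀ * b := by
        calc K₁ * Xi ^ e = K₁ / c₀ * (c₀ * Xi ^ e) := by field_simp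
          _ ≤ _ := mul_le_mul_of_nonneg_left hb1 (by positivity)
      calc K₁ * Xi ^ e * (CP * S.card) * (e * (1 / (Y₀ : ℝ)) + e * (2 + e * Real.log R) * (1 / Xm ^ e)) =
          K₁ * Xi ^ e * (CP * S.card * (e * (1 / (Y₀ : ℝ)) + e * (2 + e * Real.log R) * (1 / Xm ^ e))) := by
            ring
        _ ≤ K₁ / c₀ * b * (CP * S.card * (e * (1 / (Y₀ : ℝ)) + e * (2 + e * Real.log R) * (1 / Xm ^ e))) :=
            mul_le_mul_of_nonneg_right h7 h6
        _ = _ := by ring
  have h4 : (T.card : ℝ) ≤ ((S.filter Q).card : ℝ) := by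
    have : T ⊆ S.filter Q := fun y hy => mem_filter.2 ⟨(hT y hy).1, (hT y hy).2⟩
    exact_mod_cast card_le_card this
  refine h4.trans (h3.trans ?_)
  set A : ℝ := 1 / (Y₀ : ℝ) with hA
  set B : ℝ := (1 + Real.log R) / Xm ^ e with hB
  have hA0 : 0 ≤ A := by positivity
  have hB0 : 0 ≤ B := by positivity
  have hB1 : 1 / Xm ^ e ≤ B := div_le_div_of_nonneg_right (by linarith) hXme.le
  have hB2 : Real.log R / Xm ^ e ≤ B := div_le_div_of_nonneg_right (by linarith) hXme.le
  have t1 : CP * S.card * (1 / Xm ^ e) ≤ CP * S.card * (A + B) :=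
    mul_le_mul_of_nonneg_left (by linarith) (by positivity)
  have t2 : S.card * (K₁ * (e * Real.log R / Real.log 2)) / (c₀ * Xm ^ e) ≤
      K₁ * e / (Real.log 2 * c₀) * S.card * (A + B) := by
    calc S.card * (K₁ * (e * Real.log R / Real.log 2)) / (c₀ * Xm ^ e) =
        K₁ * e / (Real.log 2 * c₀) * S.card * (Real.log R / Xm ^ e) := by
          field_simp
      _ ≤ _ := mul_le_mul_of_nonneg_left (by linarith) (by positivity)
  have t3 : e * A + e * (2 + e * Real.log R) * (1 / Xm ^ e) ≤ e * (2 + e) * (A + B) := by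
    have h5 : (2 + e * Real.log R) * (1 / Xm ^ e) ≤ (2 + e) * B := by
      rw [hB, mul_one_div, mul_div_assoc']
      refine div_le_div_of_nonneg_right ?_ hXme.le
      nlinarith
    have h6 : A ≤ (2 + e) * A := by nlinarith
    calc e * A + e * (2 + e * Real.log R) * (1 / Xm ^ e) =
        e * (A + (2 + e * Real.log R) * (1 / Xm ^ e)) := by ring
      _ ≤ e * ((2 + e) * A + (2 + e) * B) := mul_le_mul_of_nonneg_left (by linarith) (by positivity)
      _ = _ := by ring
  have t4 : K₁ / c₀ * (CP * S.card) * (e * A + e * (2 + e * Real.log R) * (1 / Xm ^ e)) ≤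
      K₁ / c₀ * CP * e * (2 + e) * S.card * (A + B) := by
    refine (mul_le_mul_of_nonneg_left t3 (by positivity)).trans (le_of_eq ?_)
    ring
  calc _ ≤ CP * S.card * (A + B) + (K₁ * e / (Real.log 2 * c₀) * S.card * (A + B) +
      K₁ / c₀ * CP * e * (2 + e) * S.card * (A + B)) := add_le_add t1 (add_le_add t2 t4)
    _ = _ := by ring

/-- two minors with different columns are rarely divisible by one large prime -/
theorem pair (k : ℕ) : ∀ r : ℕ, ∃ K : ℝ, 1 ≤ K ∧ ∀ (ι : Type) [Fintype ι] [DecidableEq ι]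
    (c : ℕ → ι → 𝓞 F) (N : 𝓞 F) (X : ι → ℝ) (Xm : ℝ) (Y₀ : ℕ) (R : ℝ), 1 ≤ Xm → (∀ i, Xm ≤ X i) →
    1 ≤ Y₀ → 1 ≤ R → N ≠ 0 → (∀ p : Ideal (𝓞 F), p.IsMaximal → N ∉ p → Y₀ < Ideal.absNorm p) →
    (∀ y ∈ YS F k X, ∀ r ≤ k, ∀ f : Fin r → ι, mn c N y r f ∈ bxs F R) → r ≤ k →
    ∀ f g : Fin r → ι, Function.Injective f → Function.Injective g → Set.range f ≠ Set.range g →
    ∀ T : Finset (Fin k × ι → 𝓞 F), (∀ y ∈ T, y ∈ YS F k X ∧ ∃ p : Ideal (𝓞 F), p.IsMaximal ∧ N ∉ p ∧
      mn c N y r f ∈ p ∧ mn c N y r g ∈ p) →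
    (T.card : ℝ) ≤ K * (YS F k X).card * (1 / (Y₀ : ℝ) + (1 + Real.log R) / Xm ^ finrank ℚ F) := by
  classical
  intro r
  induction r with
  | zero =>
    refine ⟨1, le_rfl, fun ι _ _ c N X Xm Y₀ R hXm hX hY₀ hR hN hNp hmR hr f g hf hg hfg T hT => ?_⟩
    exfalso
    apply hfg
    rw [Set.range_eq_empty, Set.range_eq_empty]
  | succ r ih =>
    obtain ⟨K, hK, ih⟩ := ih
    obtain ⟨C₁, hC₁, hp1⟩ := prob F k (r + 1)
    obtain ⟨C₂, hC₂, hp2⟩ := prob F k r
    obtain ⟨K₁, hK₁, hbl1⟩ := bl F k hC₁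
    obtain ⟨K₂, hK₂, hbl2⟩ := bl F k hC₂
    refine ⟨K + K₁ + K₂, by linarith,
      fun ι _ _ c N X Xm Y₀ R hXm hX hY₀ hR hN hNp hmR hr f g hf hg hfg T hT => ?_⟩
    set S := YS F k X with hS
    set E : ℝ := 1 / (Y₀ : ℝ) + (1 + Real.log R) / Xm ^ finrank ℚ F with hE
    have hE0 : 0 ≤ E := by
      have : 0 ≤ Real.log R := Real.log_nonneg hR
      positivity
    -- a column of g outside of the range of f
    obtain ⟨l₀, hl₀⟩ : ∃ l₀, g l₀ ∉ Set.range f := by
      by_contra hcon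
      push Not at hcon
      apply hfg
      have h1 : Set.range g ⊆ Set.range f := by
        rintro _ ⟨l, rfl⟩
        exact hcon l
      refine (Set.eq_of_subset_of_ncard_le h1 ?_ (Set.finite_range f)).symm
      rw [Set.ncard_range_of_injective hf, Set.ncard_range_of_injective hg]
    set g' : Fin r → ι := fun j => g (l₀.succAbove j) with hg'
    have hg'inj : Function.Injective g' := fun a b h => Fin.succAbove_right_injective (hg h)
    -- the first case
    set TA := T.filter fun y => ∃ p : Ideal (𝓞 F), p.IsMaximal ∧ N ∉ p ∧ mn c N y (r + 1) f ∈ p ∧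
      mn c N y r g' ∉ p ∧ mn c N y (r + 1) g ∈ p with hTA
    have hA : (TA.card : ℝ) ≤ K₁ * S.card * E := by
      refine hbl1 ι c N X Xm Y₀ R hXm hX hY₀ hR hN hNp r (by omega) g hg l₀
        (fun y => mn c N y (r + 1) f) (fun y x => ?_) (fun I hI hNI T' hT' => ?_)
        (fun y hy => hmR y hy (r + 1) hr f) TA fun y hy => ?_
      · exact mn_update_col c N y _ x f fun l h => hl₀ ⟨l, h⟩
      · exact hp1 ι c N X Xm hXm hX I hI hNI hr f hf T' hT'
      · rw [hTA, mem_filter] at hy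
        exact ⟨(hT y hy.1).1, hy.2⟩
    rcases Nat.eq_zero_or_pos r with hr0 | hr0
    · subst hr0
      have h1 : T ⊆ TA := by
        intro y hy
        obtain ⟨h1, p, h2, h3, h4, h5⟩ := hT y hy
        rw [hTA, mem_filter]
        refine ⟨hy, p, h2, h3, h4, ?_, h5⟩
        rw [mn_zero]
        exact fun h => h2.ne_top ((Ideal.eq_top_iff_one _).2 h)
      have h2 : (T.card : ℝ) ≤ (TA.card : ℝ) := by exact_mod_cast card_le_card h1
      refine h2.trans (hA.trans ?_)
      have h3 : 0 ≤ (S.card : ℝ) * E := by positivity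
      nlinarith
    · -- a column of f whose removal gives another set
      obtain ⟨l₁, hl₁⟩ : ∃ l₁ : Fin (r + 1), Set.range (fun j : Fin r => f (l₁.succAbove j)) ≠ Set.range g' := by
        by_contra hcon
        push Not at hcon
        have h1 := hcon 0
        have h2 := hcon (Fin.last r)
        have h3 : Set.range (fun j : Fin r => f ((0 : Fin (r + 1)).succAbove j)) =
            Set.range (fun j : Fin r => f ((Fin.last r).succAbove j)) := h1.trans h2.symm
        have hne : (Fin.last r) ≠ 0 := by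
          intro h
          have := congrArg Fin.val h
          simp at this
          omega
        obtain ⟨j, hj⟩ := Fin.exists_succAbove_eq hne
        have h4 : f (Fin.last r) ∈ Set.range (fun j : Fin r => f ((0 : Fin (r + 1)).succAbove j)) :=
          ⟨j, by simp only; rw [hj]⟩
        rw [h3] at h4
        obtain ⟨j', hj'⟩ := h4
        exact Fin.succAbove_ne _ _ (hf hj')
      set f' : Fin r → ι := fun j => f (l₁.succAbove j) with hf'
      have hf'inj : Function.Injective f' := fun a b h => Fin.succAbove_right_injective (hf h)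
      set TB := T.filter fun y => ∃ p : Ideal (𝓞 F), p.IsMaximal ∧ N ∉ p ∧ mn c N y r g' ∈ p ∧
        mn c N y r f' ∉ p ∧ mn c N y (r + 1) f ∈ p with hTB
      set TC := T.filter fun y => ∃ p : Ideal (𝓞 F), p.IsMaximal ∧ N ∉ p ∧ mn c N y r f' ∈ p ∧
        mn c N y r g' ∈ p with hTC
      have hB : (TB.card : ℝ) ≤ K₂ * S.card * E := by
        refine hbl2 ι c N X Xm Y₀ R hXm hX hY₀ hR hN hNp r (by omega) f hf l₁
          (fun y => mn c N y r g') (fun y x => ?_) (fun I hI hNI T' hT' => ?_)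
          (fun y hy => hmR y hy r (by omega) g') TB fun y hy => ?_
        · exact mn_update_row c N y (⟨r, by omega⟩, f l₁) x (r := r) (le_refl r) g'
        · exact hp2 ι c N X Xm hXm hX I hI hNI (by omega) g' hg'inj T' hT'
        · rw [hTB, mem_filter] at hy
          exact ⟨(hT y hy.1).1, hy.2⟩
      have hC : (TC.card : ℝ) ≤ K * S.card * E := by
        refine ih ι c N X Xm Y₀ R hXm hX hY₀ hR hN hNp hmR (by omega) f' g' hf'inj hg'inj hl₁ TC
          fun y hy => ?_
        rw [hTC, mem_filter] at hy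
        exact ⟨(hT y hy.1).1, hy.2⟩
      have h1 : T ⊆ TA ∪ (TB ∪ TC) := by
        intro y hy
        obtain ⟨h1, p, h2, h3, h4, h5⟩ := hT y hy
        rw [mem_union, mem_union, hTA, hTB, hTC, mem_filter, mem_filter, mem_filter]
        rcases em (mn c N y r g' ∈ p) with h6 | h6
        · rcases em (mn c N y r f' ∈ p) with h7 | h7
          · exact Or.inr (Or.inr ⟨hy, p, h2, h3, h7, h6⟩)
          · exact Or.inr (Or.inl ⟨hy, p, h2, h3, h6, h7, h4⟩)
        · exact Or.inl ⟨hy, p, h2, h3, h4, h6, h5⟩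
      have h2 : (T.card : ℝ) ≤ (TA.card : ℝ) + ((TB.card : ℝ) + (TC.card : ℝ)) := by
        have h3 := (card_le_card h1).trans ((card_union_le _ _).trans
          (Nat.add_le_add_left (card_union_le _ _) _))
        exact_mod_cast h3
      calc (T.card : ℝ) ≤ _ := h2
        _ ≤ K₁ * S.card * E + (K₂ * S.card * E + K * S.card * E) := add_le_add hA (add_le_add hB hC)
        _ = _ := by ring

end

end Run7.h3.OM
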