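import Pool.Agent.Run7.h3.OM.Fib3
import Pool.Agent.Run7.h3.OM.Sv2

set_option autoImplicit false
set_option linter.unusedSectionVars false
set_option linter.unusedVariables false

/-! The matrices near a fixed integral matrix. -/

namespace Run7.h3.OM

open Finset Module NumberField Run7.h3.GT

section

variable {ι : Type} [Fintype ι] [DecidableEq ι] {k : ℕ}

theorem pert (A : Matrix (Fin k) ι ℤ) (hA : ∀ f, Function.Injective f → mnr A f ≠ 0) :
    ∃ δ : ℝ, 0 < δ ∧ δ ≤ 1 ∧ ∀ f : Fin k → ι, Function.Injective f →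
      ∀ E : Fin k → Fin k → ℂ, (∀ j l, ‖E j l‖ ≤ δ) →
        1 / 2 ≤ ‖(Matrix.of fun j l => ((A j (f l) : ℤ) : ℂ) + E j l).det‖ := by
  set G : (Fin k → Fin k → ℂ) → ((Fin k → ι) → ℂ) := fun E f =>
    (Matrix.of fun j l => ((A j (f l) : ℤ) : ℂ) + E j l).det with hG
  have hGc : Continuous G := by
    refine continuous_pi fun f => ?_
    refine Continuous.matrix_det ?_
    refine continuous_matrix fun i j => ?_
    simp only [Matrix.of_apply]
    fun_prop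
  obtain ⟨δ, hδ, h⟩ := Metric.continuous_iff.1 hGc 0 (1/2) (by norm_num)
  refine ⟨min 1 (δ / 2), by positivity, min_le_left _ _, fun f hf E hE => ?_⟩
  have h1 : dist E 0 < δ := by
    rw [dist_pi_lt_iff hδ]
    intro j
    rw [dist_pi_lt_iff hδ]
    intro l
    rw [Pi.zero_apply, Pi.zero_apply, dist_zero_right]
    linarith [hE j l, min_le_right 1 (δ/2)]
  have h2 := h E h1
  rw [dist_pi_lt_iff (by norm_num)] at h2
  have h3 := h2 f
  have h4 : G 0 f = ((mnr A f : ℤ) : ℂ) := by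
    simp only [hG, Pi.zero_apply, add_zero]
    exact ((RingHom.map_det (Int.castRingHom ℂ) (A.submatrix id f)).symm)
  rw [h4, dist_eq_norm] at h3
  have h5 : (1 : ℝ) ≤ ‖((mnr A f : ℤ) : ℂ)‖ := by
    rw [Complex.norm_intCast]
    exact_mod_cast Int.one_le_abs (hA f hf)
  have h6 := norm_sub_norm_le ((mnr A f : ℤ) : ℂ) (G E f)
  rw [norm_sub_rev] at h6
  linarith

theorem det_mod {R : Type} [CommRing R] (M W : Matrix (Fin k) (Fin k) R) (N : R) :
    ∃ z, (Matrix.of fun j l => M j l + N * W j l).det = M.det + N * z := by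
  have h : Ideal.Quotient.mk (Ideal.span {N}) (Matrix.of fun j l => M j l + N * W j l).det =
      Ideal.Quotient.mk (Ideal.span {N}) M.det := by
    rw [RingHom.map_det, RingHom.map_det]
    congr 1
    ext j l
    have h0 : Ideal.Quotient.mk (Ideal.span {N}) N = 0 :=
      Ideal.Quotient.eq_zero_iff_mem.2 (Ideal.mem_span_singleton_self N)
    simp only [RingHom.mapMatrix_apply, Matrix.map_apply, Matrix.of_apply]
    rw [map_add, map_mul, h0, zero_mul, add_zero]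
  rw [Ideal.Quotient.eq, Ideal.mem_span_singleton] at h
  obtain ⟨z, hz⟩ := h
  exact ⟨z, by linear_combination hz⟩

end

section

variable {F : Type} [Field F] [NumberField F] {ι s : Type} [Fintype ι] [DecidableEq ι]
  [Fintype s] [DecidableEq s] {k : ℕ}

theorem w_int (w : InfinitePlace F) (n : ℤ) : w (n : F) = |(n : ℝ)| := by
  rw [← InfinitePlace.norm_embedding_eq w, map_intCast, Complex.norm_intCast]

theorem w_nat (w : InfinitePlace F) (n : ℕ) : w (n : F) = n := by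
  rw [← InfinitePlace.norm_embedding_eq w, map_natCast, Complex.norm_natCast]

theorem c_int (n : ℤ) : (((n : 𝓞 F)) : F) = (n : F) := map_intCast (algebraMap (𝓞 F) F) n

theorem c_nat (n : ℕ) : (((n : 𝓞 F)) : F) = (n : F) := map_natCast (algebraMap (𝓞 F) F) n

/-- the fixed part -/
def cf (A : Matrix (Fin k) ι ℤ) (ρ : ι → ℕ) (m : ℕ) (i : ι) : 𝓞 F :=
  if h : m < k then ((A ⟨m, h⟩ i : ℤ) : 𝓞 F) * (ρ i : 𝓞 F) else 0

/-- the matrix -/
def VM (A : Matrix (Fin k) ι ℤ) (ρ : ι → ℕ) (N : ℕ) (y : Fin k × ι → 𝓞 F) :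
    Matrix (Fin k) ι (𝓞 F) :=
  fun j i => ((A j i : ℤ) : 𝓞 F) * (ρ i : 𝓞 F) + (N : 𝓞 F) * y (j, i)

theorem VV_cf (A : Matrix (Fin k) ι ℤ) (ρ : ι → ℕ) (N : ℕ) (y : Fin k × ι → 𝓞 F) {m : ℕ}
    (hm : m < k) (i : ι) : VV (cf A ρ) (N : 𝓞 F) y m i = VM A ρ N y ⟨m, hm⟩ i := by
  unfold VV cf VM
  rw [dif_pos hm, dif_pos hm]

theorem mn_eq (A : Matrix (Fin k) ι ℤ) (ρ : ι → ℕ) (N : ℕ) (y : Fin k × ι → 𝓞 F)
    (f : Fin k → ι) : mn (cf A ρ) (N : 𝓞 F) y k f = mnr (VM A ρ N y) f := by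
  unfold mn mnr
  congr 1
  ext j l
  simp only [Matrix.of_apply, Matrix.submatrix_apply, id]
  rw [VV_cf A ρ N y j.2]

theorem mnr_mod (A : Matrix (Fin k) ι ℤ) (N : ℕ) (q : ι → ℕ) (y : Fin k × ι → 𝓞 F)
    (f : Fin k → ι) : ∃ z : 𝓞 F, mnr (VM A (fun i => 1 + N * q i) N y) f =
      ((mnr A f : ℤ) : 𝓞 F) + (N : 𝓞 F) * z := by
  obtain ⟨z, hz⟩ := det_mod ((A.submatrix id f).map (Int.castRingHom (𝓞 F)))
    (Matrix.of fun j l => ((A j (f l) : ℤ) : 𝓞 F) * (q (f l) : 𝓞 F) + y (j, f l)) (N : 𝓞 F)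
  refine ⟨z, ?_⟩
  have h1 : ((mnr A f : ℤ) : 𝓞 F) = ((A.submatrix id f).map (Int.castRingHom (𝓞 F))).det :=
    RingHom.map_det (Int.castRingHom (𝓞 F)) (A.submatrix id f)
  rw [h1, ← hz]
  unfold mnr
  congr 1
  ext j l
  simp only [Matrix.submatrix_apply, Matrix.of_apply, Matrix.map_apply, id, VM, Int.coe_castRingHom]
  push_cast
  ring

/-- the arithmetic condition -/
theorem gd_nm (A : Matrix (Fin k) ι ℤ) {Y₀ N : ℕ} (hN : N = DA A ^ 2 * Y₀.factorial)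
    (q : ι → ℕ) (y : Fin k × ι → 𝓞 F)
    (hy : ∀ p : Ideal (𝓞 F), p.IsMaximal → (N : 𝓞 F) ∉ p → ∀ f g : Fin k → ι,
      Function.Injective f → Function.Injective g → Set.range f ≠ Set.range g →
      ¬ (mnr (VM A (fun i => 1 + N * q i) N y) f ∈ p ∧
        mnr (VM A (fun i => 1 + N * q i) N y) g ∈ p)) :
    ∃ Dt : (Fin k → ι) → 𝓞 F, (∀ f, Function.Injective f →
      mnr (VM A (fun i => 1 + N * q i) N y) f = ((mnr A f : ℤ) : 𝓞 F) * Dt f) ∧
      ∀ p : Ideal (𝓞 F), p.IsMaximal → ∀ f g : Fin k → ι, Function.Injective f →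
        Function.Injective g → Set.range f ≠ Set.range g → ¬ (Dt f ∈ p ∧ Dt g ∈ p) := by
  have h1 : ∀ f : Fin k → ι, ∃ u : 𝓞 F, Function.Injective f →
      mnr (VM A (fun i => 1 + N * q i) N y) f = ((mnr A f : ℤ) : 𝓞 F) *
        (1 + (DA A : 𝓞 F) * (Y₀.factorial : 𝓞 F) * u) := by
    intro f
    by_cases hf : Function.Injective f
    · obtain ⟨z, hz⟩ := mnr_mod A N q y f
      obtain ⟨D', hD'⟩ := dvd_DA A hf
      refine ⟨(D' : 𝓞 F) * z, fun _ => ?_⟩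
      rw [hz, hN]
      have h2 : ((DA A : ℕ) : 𝓞 F) = ((mnr A f : ℤ) : 𝓞 F) * (D' : 𝓞 F) := by
        have h3 : (((DA A : ℕ) : ℤ) : 𝓞 F) = ((mnr A f * D' : ℤ) : 𝓞 F) := by rw [hD']
        push_cast at h3
        exact h3
      push_cast
      linear_combination (DA A : 𝓞 F) * (Y₀.factorial : 𝓞 F) * z * h2
    · exact ⟨0, fun h => absurd h hf⟩
  choose u hu using h1
  refine ⟨fun f => 1 + (DA A : 𝓞 F) * (Y₀.factorial : 𝓞 F) * u f, fun f hf => hu f hf,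
    fun p hp f g hf hg hfg ⟨h2, h3⟩ => ?_⟩
  by_cases hNp : (N : 𝓞 F) ∈ p
  · have h4 : (DA A : 𝓞 F) * (Y₀.factorial : 𝓞 F) ∈ p := by
      rw [hN] at hNp
      push_cast at hNp
      rcases hp.isPrime.mem_or_mem hNp with h5 | h5
      · exact p.mul_mem_right _ (hp.isPrime.mem_of_pow_mem _ h5)
      · exact p.mul_mem_left _ h5
    have h5 := p.sub_mem h2 (p.mul_mem_right (u f) h4)
    rw [add_sub_cancel_right] at h5
    exact hp.ne_top ((Ideal.eq_top_iff_one _).2 h5)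
  · refine hy p hp hNp f g hf hg hfg ⟨?_, ?_⟩
    · rw [hu f hf]
      exact p.mul_mem_left _ h2
    · rw [hu g hg]
      exact p.mul_mem_left _ h3

/-- the size of the entries -/
theorem gd_up (A : Matrix (Fin k) ι ℤ) (N : ℕ) (q : ι → ℕ) (y : Fin k × ι → 𝓞 F)
    {δ : ℝ} (hδ1 : δ ≤ 1) (hy : ∀ p (w : InfinitePlace F), w (y p : F) ≤ δ * q p.2)
    (w : InfinitePlace F) (j : Fin k) (i : ι) :
    w ((VM A (fun i => 1 + N * q i) N y j i : 𝓞 F) : F) ≤
      (∑ j, ∑ i, |(A j i : ℝ)| + 1) * (1 + N * q i) := by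
  unfold VM
  rw [cadd, cmul, cmul, c_int, c_nat, c_nat]
  have h0 : w (((A j i : ℤ) : F) * ((1 + N * q i : ℕ) : F) + (N : F) * (y (j, i) : F)) ≤
      w (((A j i : ℤ) : F) * ((1 + N * q i : ℕ) : F)) + w ((N : F) * (y (j, i) : F)) :=
    w.1.add_le _ _
  refine h0.trans ?_
  rw [map_mul, map_mul, w_int, w_nat, w_nat]
  have h1 : |(A j i : ℝ)| ≤ ∑ j, ∑ i, |(A j i : ℝ)| :=
    (single_le_sum (f := fun i => |(A j i : ℝ)|) (fun _ _ => abs_nonneg _) (mem_univ i)).trans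
      (single_le_sum (f := fun j => ∑ i, |(A j i : ℝ)|)
        (fun _ _ => sum_nonneg fun _ _ => abs_nonneg _) (mem_univ j))
  have h2 := hy (j, i) w
  have h3 : w (y (j, i) : F) ≤ q i := by
    have : (0 : ℝ) ≤ q i := Nat.cast_nonneg _
    simp only at h2
    nlinarith
  have h4 : (N : ℝ) * w (y (j, i) : F) ≤ N * q i := mul_le_mul_of_nonneg_left h3 (Nat.cast_nonneg _)
  have h5 : |(A j i : ℝ)| * ((1 + N * q i : ℕ) : ℝ) ≤ (∑ j, ∑ i, |(A j i : ℝ)|) * (1 + N * q i) := by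
    push_cast
    exact mul_le_mul_of_nonneg_right h1 (by positivity)
  linarith

/-- the size of the minors -/
theorem gd_lo (A : Matrix (Fin k) ι ℤ) (N : ℕ) (q : ι → ℕ) (y : Fin k × ι → 𝓞 F)
    {δ : ℝ} (hδ : 0 < δ) (hy : ∀ p (w : InfinitePlace F), w (y p : F) ≤ δ * q p.2) (f : Fin k → ι)
    (hA : ∀ E : Fin k → Fin k → ℂ, (∀ j l, ‖E j l‖ ≤ δ) →
        1 / 2 ≤ ‖(Matrix.of fun j l => ((A j (f l) : ℤ) : ℂ) + E j l).det‖)
    (w : InfinitePlace F) :
    ∏ l, ((1 : ℝ) + N * q (f l)) ≤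
      2 * w ((mnr (VM A (fun i => 1 + N * q i) N y) f : 𝓞 F) : F) := by
  obtain ⟨σ, hσ⟩ : ∃ σ : F →+* ℂ, σ = w.embedding := ⟨_, rfl⟩
  have hσn : ∀ x : F, ‖σ x‖ = w x := fun x => by rw [hσ, InfinitePlace.norm_embedding_eq]
  obtain ⟨E, hE⟩ : ∃ E : Fin k → Fin k → ℂ, ∀ j l, E j l =
      N * σ (y (j, f l) : F) / (1 + N * q (f l)) := ⟨_, fun _ _ => rfl⟩
  have hρ : ∀ i, (0 : ℝ) < 1 + N * q i := fun i => by positivity
  have hρc : ∀ i, ((1 : ℂ) + N * q i) ≠ 0 := fun i => by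
    have h1 := (hρ i).ne'
    exact_mod_cast h1
  have hρn : ∀ i, ‖((1 : ℂ) + N * q i)‖ = 1 + N * q i := fun i => by
    have h1 : ((1 : ℂ) + N * q i) = ((1 + N * q i : ℕ) : ℂ) := by push_cast; ring
    rw [h1, Complex.norm_natCast]
    push_cast
    ring
  have h1 := hA E fun j l => by
    rw [hE, norm_div, norm_mul, hρn, Complex.norm_natCast, hσn, div_le_iff₀ (hρ _)]
    have h2 := hy (j, f l) w
    simp only at h2
    have h3 : (N : ℝ) * w (y (j, f l) : F) ≤ N * (δ * q (f l)) :=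
      mul_le_mul_of_nonneg_left h2 (Nat.cast_nonneg _)
    calc _ ≤ (N : ℝ) * (δ * q (f l)) := h3
      _ = δ * (N * q (f l)) := by ring
      _ ≤ δ * (1 + N * q (f l)) := mul_le_mul_of_nonneg_left (by linarith) hδ.le
  have h2 : σ ((mnr (VM A (fun i => 1 + N * q i) N y) f : 𝓞 F) : F) =
      (∏ l, ((1 : ℂ) + N * q (f l))) *
        (Matrix.of fun j l => ((A j (f l) : ℤ) : ℂ) + E j l).det := by
    have h3 : σ ((mnr (VM A (fun i => 1 + N * q i) N y) f : 𝓞 F) : F) =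
        ((((VM A (fun i => 1 + N * q i) N y).submatrix id f).map
          (σ.comp (algebraMap (𝓞 F) F)))).det :=
      RingHom.map_det (σ.comp (algebraMap (𝓞 F) F)) _
    rw [h3, ← Matrix.det_mul_row]
    congr 1
    ext j l
    simp only [Matrix.map_apply, Matrix.submatrix_apply, Matrix.of_apply, id, VM]
    have h4 : (σ.comp (algebraMap (𝓞 F) F)) (((A j (f l) : ℤ) : 𝓞 F) * ((1 + N * q (f l) : ℕ) : 𝓞 F) +
        (N : 𝓞 F) * y (j, f l)) = ((A j (f l) : ℤ) : ℂ) * ((1 + N * q (f l) : ℕ) : ℂ) +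
        N * σ (y (j, f l) : F) := by
      rw [map_add, map_mul, map_mul, map_intCast, map_natCast, map_natCast]
      rfl
    rw [h4, hE]
    have := hρc (f l)
    push_cast
    field_simp
  rw [← hσn, h2, norm_mul, norm_prod, prod_congr rfl fun l _ => hρn (f l)]
  have h3 : 0 ≤ ∏ l, ((1 : ℝ) + N * q (f l)) := prod_nonneg fun l _ => (hρ _).le
  nlinarith

end

end Run7.h3.OM
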