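import Pool.Agent.Run7.h3.OM.Sz

set_option autoImplicit false
set_option linter.unusedSectionVars false
set_option linter.unusedVariables false

/-! Many good matrices. -/

namespace Run7.h3.OM

open Finset Module NumberField Run7.h3.GT

section

variable (F : Type) [Field F] [NumberField F] {ι s : Type} [Fintype ι] [DecidableEq ι]
  [Fintype s] [DecidableEq s] {k : ℕ}

theorem absNorm_gt {Y₀ N : ℕ} (hN : Y₀.factorial ∣ N) (p : Ideal (𝓞 F)) (hp : p.IsMaximal)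
    (h : (N : 𝓞 F) ∉ p) : Y₀ < Ideal.absNorm p := by
  by_contra hcon
  push Not at hcon
  have hpb : p ≠ ⊥ := Ring.ne_bot_of_isMaximal_of_not_isField hp (RingOfIntegers.not_isField F)
  have h1 := two_le_absNorm F hp hpb
  have h2 : Ideal.absNorm p ∣ N := (Nat.dvd_factorial (by omega) hcon).trans hN
  obtain ⟨m, hm⟩ := h2
  apply h
  rw [hm, Nat.cast_mul]
  exact p.mul_mem_right _ (Ideal.absNorm_mem p)

/-- a bound for all the minors -/
theorem mn_bound (A : Matrix (Fin k) ι ℤ) (N : ℕ) (q : ι → ℕ) (y : Fin k × ι → 𝓞 F)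
    {δ : ℝ} (hδ1 : δ ≤ 1) (hy : ∀ p (w : InfinitePlace F), w (y p : F) ≤ δ * q p.2) {QM : ℝ}
    (hQM : ∀ i, (q i : ℝ) ≤ QM) (hQM1 : 1 ≤ QM) {r : ℕ} (hr : r ≤ k) (f : Fin r → ι) :
    mn (cf A (fun i => 1 + N * q i)) (N : 𝓞 F) y r f ∈
      bxs F (k.factorial * ((∑ j, ∑ i, |(A j i : ℝ)| + 1) * (1 + N * QM)) ^ k) := by
  intro w
  set a : ℝ := ∑ j, ∑ i, |(A j i : ℝ)| with ha
  have ha0 : 0 ≤ a := sum_nonneg fun _ _ => sum_nonneg fun _ _ => abs_nonneg _
  set Z : ℝ := (a + 1) * (1 + N * QM) with hZ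
  have hN0 : (0 : ℝ) ≤ N := Nat.cast_nonneg _
  have hZ1 : 1 ≤ Z := by
    rw [hZ]
    have : 0 ≤ (N : ℝ) * QM := mul_nonneg hN0 (by linarith)
    nlinarith
  have h1 := det_bound w ((Matrix.of fun (j l : Fin r) =>
      VV (cf A (fun i => 1 + N * q i)) (N : 𝓞 F) y j (f l)).map (algebraMap (𝓞 F) F))
    (a := fun _ => 1) (b := fun _ => Z) (fun _ => zero_le_one) (fun _ => by linarith)
    (fun j l => by
      rw [one_mul, Matrix.map_apply, Matrix.of_apply, VV_cf A _ N y (j.2.trans_le hr)]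
      refine (gd_up A N q y hδ1 hy w _ _).trans ?_
      rw [hZ]
      refine mul_le_mul_of_nonneg_left ?_ (by linarith)
      have := mul_le_mul_of_nonneg_left (hQM (f l)) hN0
      linarith)
  have h2 : ((mn (cf A (fun i => 1 + N * q i)) (N : 𝓞 F) y r f : 𝓞 F) : F) =
      ((Matrix.of fun (j l : Fin r) =>
      VV (cf A (fun i => 1 + N * q i)) (N : 𝓞 F) y j (f l)).map (algebraMap (𝓞 F) F)).det :=
    RingHom.map_det (algebraMap (𝓞 F) F) _
  rw [h2]
  refine h1.trans ?_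
  rw [prod_const_one, one_mul, prod_const, card_univ, Fintype.card_fin]
  have h3 : (r.factorial : ℝ) ≤ k.factorial := by exact_mod_cast Nat.factorial_le hr
  have h4 : Z ^ r ≤ Z ^ k := pow_le_pow_right₀ hZ1 hr
  exact mul_le_mul h3 h4 (by positivity) (by positivity)

theorem mat (A : Matrix (Fin k) ι ℤ) (hk : 0 < k) (hι : Nonempty ι)
    (hA : ∀ f, Function.Injective f → mnr A f ≠ 0) (β : ι → s) :
    ∃ (C c K₃ δ : ℝ) (N : ℕ), 1 ≤ C ∧ 0 < c ∧ 1 ≤ K₃ ∧ 0 < N ∧ 0 < δ ∧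
    ∀ G : MvPolynomial (Fin k × ι) F, G ≠ 0 → ∃ K₄ : ℝ,
    ∀ (q : s → ℕ) (Qm QM : ℝ), (∀ b, Qm ≤ q b) → (∀ b, (q b : ℝ) ≤ QM) → 1 ≤ δ * Qm → 1 ≤ QM →
    K₃ * (1 + Real.log QM) ≤ Qm ^ finrank ℚ F → K₄ ≤ Qm →
    ∃ T : Finset (Matrix (Fin k) ι (𝓞 F)),
      (∀ V ∈ T, Gd A β C (fun b => 1 + N * q b) V ∧
        MvPolynomial.eval (fun p => ((V p.1 p.2 : 𝓞 F) : F)) G ≠ 0) ∧
      c * ∏ i, ((q (β i) : ℝ) ^ finrank ℚ F) ^ k ≤ T.card := by
  classical
  obtain ⟨δ, hδ, hδ1, hpert⟩ := pert A hA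
  obtain ⟨Kp, hKp, hpair⟩ := pair F k k
  obtain ⟨c₀, hc₀, hlow⟩ := bxs_lower F
  obtain ⟨e, he⟩ : ∃ e, e = finrank ℚ F := ⟨_, rfl⟩
  rw [← he] at hpair hlow ⊢
  obtain ⟨P, hP⟩ : ∃ P : ℕ, P = Fintype.card ((Fin k → ι) × (Fin k → ι)) := ⟨_, rfl⟩
  have hP0 : 0 < P := by
    rw [hP]
    exact Fintype.card_pos
  have hP1 : (1 : ℝ) ≤ P := by exact_mod_cast hP0
  obtain ⟨Y₀, hY₀⟩ : ∃ Y₀ : ℕ, Y₀ = ⌈4 * P * Kp⌉₊ + 1 := ⟨_, rfl⟩
  have hY₀1 : 1 ≤ Y₀ := by omega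
  have hY₀P : 4 * P * Kp ≤ (Y₀ : ℝ) := by
    rw [hY₀]
    push_cast
    linarith [Nat.le_ceil (4 * P * Kp)]
  obtain ⟨N, hN⟩ : ∃ N : ℕ, N = DA A ^ 2 * Y₀.factorial := ⟨_, rfl⟩
  have hN0 : 0 < N := by
    rw [hN]
    have := DA_ne hA
    positivity
  obtain ⟨a, ha⟩ : ∃ a : ℝ, a = ∑ j, ∑ i, |(A j i : ℝ)| := ⟨_, rfl⟩
  have ha0 : 0 ≤ a := by
    rw [ha]
    exact sum_nonneg fun _ _ => sum_nonneg fun _ _ => abs_nonneg _
  obtain ⟨c', hc'⟩ : ∃ c' : ℝ, c' = 1 + Real.log k.factorial +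
    k * Real.log ((a + 1) * (1 + N)) + k := ⟨_, rfl⟩
  have hlk : 0 ≤ Real.log (k.factorial : ℝ) :=
    Real.log_nonneg (by exact_mod_cast Nat.factorial_pos k)
  have hlN : 0 ≤ Real.log ((a + 1) * (1 + N)) := by
    apply Real.log_nonneg
    have : (0 : ℝ) ≤ N := Nat.cast_nonneg _
    nlinarith
  have hc'1 : 1 ≤ c' := by
    rw [hc']
    have : 0 ≤ (k : ℝ) * Real.log ((a + 1) * (1 + N)) := by positivity
    have : (0 : ℝ) ≤ k := Nat.cast_nonneg _
    linarith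
  refine ⟨a + 2, (c₀ * δ ^ e) ^ (k * Fintype.card ι) / 4, max 1 (4 * P * Kp * c' / δ ^ e), δ, N,
    by linarith, by positivity, le_max_left _ _, hN0, hδ, ?_⟩
  intro Gp hGp
  obtain ⟨Dg, hDg⟩ := szV F Gp hGp
  refine ⟨4 * Dg / (c₀ * δ), ?_⟩
  intro q Qm QM hQm hQM hδQm hQM1 hK₃ hK₄
  have hQm0 : 0 < Qm := by
    by_contra hcon
    push Not at hcon
    nlinarith
  -- the variables
  obtain ⟨X, hX⟩ : ∃ X : ι → ℝ, ∀ i, X i = δ * q (β i) := ⟨_, fun _ => rfl⟩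
  have hXm : ∀ i, δ * Qm ≤ X i := fun i => by
    rw [hX]
    exact mul_le_mul_of_nonneg_left (hQm _) hδ.le
  have hX0 : ∀ i, 0 ≤ X i := fun i => by linarith [hXm i]
  obtain ⟨S, hS⟩ : ∃ S, S = YS F k X := ⟨_, rfl⟩
  have hSy : ∀ y ∈ S, ∀ p (w : InfinitePlace F), w (y p : F) ≤ δ * q (β p.2) := by
    intro y hy p w
    rw [hS, YS, Fintype.mem_piFinset] at hy
    have h1 := (mem_bx F (hX0 p.2)).1 (hy p) w
    rw [hX] at h1
    exact h1
  obtain ⟨R, hR⟩ : ∃ R : ℝ, R = k.factorial * ((a + 1) * (1 + N * QM)) ^ k := ⟨_, rfl⟩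
  have hZ1 : 1 ≤ (a + 1) * (1 + N * QM) := by
    have : 0 ≤ (N : ℝ) * QM := by positivity
    nlinarith
  have hfac : (1 : ℝ) ≤ k.factorial := by exact_mod_cast Nat.factorial_pos k
  have hR1 : 1 ≤ R := by
    rw [hR]
    have := one_le_pow₀ hZ1 (n := k)
    nlinarith
  have hlogR : 1 + Real.log R ≤ c' * (1 + Real.log QM) := by
    have hL : 0 ≤ Real.log QM := Real.log_nonneg hQM1
    have h1 : Real.log R = Real.log k.factorial + k * Real.log ((a + 1) * (1 + N * QM)) := by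
      rw [hR, Real.log_mul (by positivity) (by positivity), Real.log_pow]
    have h2 : (a + 1) * (1 + N * QM) ≤ (a + 1) * (1 + N) * QM := by
      have : (0 : ℝ) ≤ N := Nat.cast_nonneg _
      nlinarith
    have h3 : Real.log ((a + 1) * (1 + N * QM)) ≤ Real.log ((a + 1) * (1 + N)) + Real.log QM := by
      rw [← Real.log_mul (by positivity) (by positivity)]
      exact Real.log_le_log (by linarith) h2
    have h4 := mul_le_mul_of_nonneg_left h3 (Nat.cast_nonneg k)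
    rw [h1]
    have h5 : c' * (1 + Real.log QM) = c' + c' * Real.log QM := by ring
    have h6 : (k : ℝ) * Real.log QM ≤ c' * Real.log QM := by
      refine mul_le_mul_of_nonneg_right ?_ hL
      rw [hc']
      have : 0 ≤ (k : ℝ) * Real.log ((a + 1) * (1 + N)) := by positivity
      linarith
    have h7 : (0 : ℝ) ≤ k := Nat.cast_nonneg _
    rw [h5]
    have h8 : c' = 1 + Real.log k.factorial + k * Real.log ((a + 1) * (1 + N)) + k := hc'
    linarith
  have hE : (1 + Real.log R) / (δ * Qm) ^ e ≤ 1 / (4 * P * Kp) := by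
    have h1 : 4 * P * Kp * c' / δ ^ e * (1 + Real.log QM) ≤ Qm ^ e :=
      (mul_le_mul_of_nonneg_right (le_max_right _ _)
        (by linarith [Real.log_nonneg hQM1])).trans hK₃
    rw [div_mul_eq_mul_div, div_le_iff₀ (by positivity)] at h1
    rw [div_le_div_iff₀ (by positivity) (by positivity), one_mul, mul_pow]
    calc (1 + Real.log R) * (4 * P * Kp) ≤ c' * (1 + Real.log QM) * (4 * P * Kp) :=
          mul_le_mul_of_nonneg_right hlogR (by positivity)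
      _ = 4 * P * Kp * c' * (1 + Real.log QM) := by ring
      _ ≤ Qm ^ e * δ ^ e := h1
      _ = _ := by ring
  have hY : 1 / (Y₀ : ℝ) ≤ 1 / (4 * P * Kp) := one_div_le_one_div_of_le (by positivity) hY₀P
  obtain ⟨ρ, hρ⟩ : ∃ ρ : ι → ℕ, ρ = fun i => 1 + N * q (β i) := ⟨_, rfl⟩
  obtain ⟨bad, hbad⟩ : ∃ bad : (Fin k → ι) × (Fin k → ι) → Finset (Fin k × ι → 𝓞 F),
      bad = fun x => S.filter fun y => ∃ p : Ideal (𝓞 F), p.IsMaximal ∧ (N : 𝓞 F) ∉ p ∧
        mn (cf A ρ) (N : 𝓞 F) y k x.1 ∈ p ∧ mn (cf A ρ) (N : 𝓞 F) y k x.2 ∈ p := ⟨_, rfl⟩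
  obtain ⟨PP, hPP⟩ : ∃ PP : Finset ((Fin k → ι) × (Fin k → ι)), PP = univ.filter fun x =>
    Function.Injective x.1 ∧ Function.Injective x.2 ∧ Set.range x.1 ≠ Set.range x.2 := ⟨_, rfl⟩
  have hbadc : ∀ x ∈ PP, ((bad x).card : ℝ) ≤ S.card / (2 * P) := by
    intro x hx
    rw [hPP, mem_filter] at hx
    have h1 := hpair ι (cf A ρ) (N : 𝓞 F) X (δ * Qm) Y₀ R hδQm hXm hY₀1 hR1
      (by exact_mod_cast hN0.ne')
      (fun p hp h => absNorm_gt F (hN ▸ Dvd.intro_left _ rfl) p hp h)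
      (fun y hy r hr f => by
        rw [hR, ha, hρ]
        exact mn_bound F A N (fun i => q (β i)) y hδ1 (fun p w => hSy y (hS ▸ hy) p w)
          (fun i => hQM (β i)) hQM1 hr f) le_rfl x.1 x.2 hx.2.1 hx.2.2.1 hx.2.2.2 (bad x)
      (fun y hy => by
        rw [hbad, mem_filter] at hy
        exact ⟨hS ▸ hy.1, hy.2⟩)
    refine h1.trans ?_
    rw [← hS]
    calc Kp * S.card * (1 / (Y₀ : ℝ) + (1 + Real.log R) / (δ * Qm) ^ e) ≤
          Kp * S.card * (1 / (4 * P * Kp) + 1 / (4 * P * Kp)) :=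
          mul_le_mul_of_nonneg_left (add_le_add hY hE) (by positivity)
      _ = _ := by
          field_simp
          ring
  obtain ⟨ZZ, hZZ⟩ : ∃ ZZ : Finset (Fin k × ι → 𝓞 F), ZZ = S.filter fun y =>
    MvPolynomial.eval (fun p => ((VM A ρ N y p.1 p.2 : 𝓞 F) : F)) Gp = 0 := ⟨_, rfl⟩
  have hZZc : (ZZ.card : ℝ) ≤ S.card / 4 := by
    have he0 : e ≠ 0 := by
      rw [he]
      exact (finrank_pos (R := ℚ) (M := F)).ne'
    have h1 : 4 * (Dg : ℝ) ≤ c₀ * (δ * Qm) ^ e := by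
      rw [div_le_iff₀ (by positivity)] at hK₄
      have h2 : δ * Qm ≤ (δ * Qm) ^ e := le_self_pow₀ hδQm he0
      have h3 : c₀ * (δ * Qm) ≤ c₀ * (δ * Qm) ^ e := mul_le_mul_of_nonneg_left h2 hc₀.le
      calc 4 * (Dg : ℝ) ≤ Qm * (c₀ * δ) := hK₄
        _ = c₀ * (δ * Qm) := by ring
        _ ≤ _ := h3
    have hm0 : 0 < c₀ * (δ * Qm) ^ e := by positivity
    have h2 := hDg A ρ N X (c₀ * (δ * Qm) ^ e) hN0 hm0 (fun i => by
      rw [card_bx F (hX0 _)]
      have h3 : (δ * Qm) ^ e ≤ X i ^ e := pow_le_pow_left₀ (by positivity) (hXm i) _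
      exact (mul_le_mul_of_nonneg_left h3 hc₀.le).trans (hlow _ (hδQm.trans (hXm _)))) ZZ
      (fun y hy => by
        rw [hZZ, mem_filter] at hy
        exact ⟨hS ▸ hy.1, hy.2⟩)
    rw [← hS] at h2
    refine h2.trans ?_
    have h3 : (Dg : ℝ) / (c₀ * (δ * Qm) ^ e) ≤ 1 / 4 := by
      rw [div_le_div_iff₀ hm0 (by norm_num)]
      linarith
    have h4 := mul_le_mul_of_nonneg_right h3 (Nat.cast_nonneg S.card)
    linarith
  obtain ⟨G, hG⟩ : ∃ G, G = S \ (PP.biUnion bad ∪ ZZ) := ⟨_, rfl⟩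
  have hPPc : (PP.card : ℝ) ≤ P := by
    rw [hP]
    exact_mod_cast card_le_univ _
  have hGc : (S.card : ℝ) / 4 ≤ G.card := by
    have h1 : ((PP.biUnion bad).card : ℝ) ≤ S.card / 2 := by
      calc ((PP.biUnion bad).card : ℝ) ≤ ∑ x ∈ PP, ((bad x).card : ℝ) := by
            exact_mod_cast card_biUnion_le
        _ ≤ ∑ x ∈ PP, (S.card : ℝ) / (2 * P) := sum_le_sum hbadc
        _ = PP.card * ((S.card : ℝ) / (2 * P)) := by rw [sum_const, nsmul_eq_mul]
        _ ≤ P * ((S.card : ℝ) / (2 * P)) := mul_le_mul_of_nonneg_right hPPc (by positivity)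
        _ = _ := by field_simp
    have h2 : S.card ≤ G.card + ((PP.biUnion bad).card + ZZ.card) := by
      rw [hG]
      have := le_card_sdiff (PP.biUnion bad ∪ ZZ) S
      have := card_union_le (PP.biUnion bad) ZZ
      omega
    have h3 : (S.card : ℝ) ≤ G.card + ((PP.biUnion bad).card + ZZ.card) := by exact_mod_cast h2
    linarith
  refine ⟨G.image (VM A ρ N), ?_, ?_⟩
  · intro V hV
    obtain ⟨y, hy, rfl⟩ := mem_image.1 hV
    rw [hG, mem_sdiff] at hy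
    have hyS := hSy y hy.1
    rw [mem_union, not_or] at hy
    refine ⟨?_, fun h0 => hy.2.2 (by
      rw [hZZ, mem_filter]
      exact ⟨hy.1, h0⟩)⟩
    rw [hρ]
    refine ⟨gd_nm A hN (fun i => q (β i)) y ?_, ?_, ?_⟩
    · rintro p hp hNp f g hf hg hfg ⟨h1, h2⟩
      apply hy.2.1
      rw [mem_biUnion]
      refine ⟨(f, g), ?_, ?_⟩
      · rw [hPP, mem_filter]
        exact ⟨mem_univ _, hf, hg, hfg⟩
      · rw [hbad, mem_filter]
        refine ⟨hy.1, p, hp, hNp, ?_, ?_⟩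
        · rw [mn_eq, hρ]
          exact h1
        · rw [mn_eq, hρ]
          exact h2
    · intro w j i
      refine (gd_up A N (fun i => q (β i)) y hδ1 hyS w j i).trans ?_
      rw [← ha]
      have : (0 : ℝ) ≤ 1 + N * q (β i) := by positivity
      nlinarith
    · intro w f hf
      refine (gd_lo A N (fun i => q (β i)) y hδ hyS f (hpert f hf) w).trans ?_
      refine mul_le_mul_of_nonneg_right (by linarith) (apply_nonneg _ _)
  · have hinj : Function.Injective (VM (F := F) A ρ N) := by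
      intro y y' h
      funext p
      have h1 := congrFun (congrFun h p.1) p.2
      unfold VM at h1
      have h2 : (N : 𝓞 F) * y (p.1, p.2) = (N : 𝓞 F) * y' (p.1, p.2) := add_left_cancel h1
      have h3 : (N : 𝓞 F) ≠ 0 := by exact_mod_cast hN0.ne'
      exact mul_left_cancel₀ h3 h2
    rw [card_image_of_injective _ hinj]
    refine le_trans ?_ hGc
    have h1 : (c₀ * δ ^ e) ^ (k * Fintype.card ι) * ∏ i, ((q (β i) : ℝ) ^ e) ^ k ≤ S.card := by
      have h2 : (S.card : ℝ) = ∏ p : Fin k × ι, ((bx F (X p.2)).card : ℝ) := by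
        rw [hS, YS, Fintype.card_piFinset]
        push_cast
        rfl
      have h3 : (c₀ * δ ^ e) ^ (k * Fintype.card ι) * ∏ i, ((q (β i) : ℝ) ^ e) ^ k =
          ∏ p : Fin k × ι, (c₀ * X p.2 ^ e) := by
        rw [Fintype.prod_prod_type_right]
        simp only [prod_const, card_univ, Fintype.card_fin]
        rw [pow_mul, ← card_univ (α := ι), ← prod_const, ← prod_mul_distrib]
        refine prod_congr rfl fun i _ => ?_
        rw [hX, mul_pow, ← mul_pow]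
        ring
      rw [h2, h3]
      refine prod_le_prod (fun p _ => by have := hX0 p.2; positivity) fun p _ => ?_
      rw [card_bx F (hX0 _)]
      exact hlow _ (hδQm.trans (hXm _))
    linarith

end

end Run7.h3.OM
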