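import Pool.Agent.Run7.h3.OM.Idl

set_option autoImplicit false
set_option linter.unusedSectionVars false
set_option linter.unusedVariables false

/-! Minors of random matrices of algebraic integers: probabilities modulo prime ideals. -/

namespace Run7.h3.OM

open Finset Module NumberField Run7.h3.GT

section iso

variable {κ α : Type} [Fintype κ] [DecidableEq κ] [DecidableEq α]

/-- counting with one isolated variable -/
theorem iso (t : κ → Finset α) (i : κ) (Q : (κ → α) → Prop) [DecidablePred Q] :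
    ((Fintype.piFinset t).filter Q).card * (t i).card =
      ∑ y ∈ Fintype.piFinset t, ((t i).filter fun x => Q (Function.update y i x)).card := by
  have h1 : ∑ y ∈ Fintype.piFinset t, ((t i).filter fun x => Q (Function.update y i x)).card =
      (((Fintype.piFinset t) ×ˢ (t i)).filter fun p => Q (Function.update p.1 i p.2)).card := by
    rw [card_filter, sum_product]
    refine sum_congr rfl fun y _ => ?_
    rw [card_filter]
  rw [h1, ← card_product]
  refine card_bij' (fun p _ => (Function.update p.1 i p.2, p.1 i))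
    (fun p _ => (Function.update p.1 i p.2, p.1 i)) ?_ ?_ ?_ ?_
  · rintro ⟨y, x⟩ hp
    simp only [mem_product, mem_filter, Fintype.mem_piFinset] at hp ⊢
    refine ⟨⟨fun j => ?_, hp.1.1 i⟩, ?_⟩
    · rcases eq_or_ne j i with rfl | h
      · rw [Function.update_self]; exact hp.2
      · rw [Function.update_of_ne h]; exact hp.1.1 j
    · rw [Function.update_idem, Function.update_eq_self]
      exact hp.1.2
  · rintro ⟨y, x⟩ hp
    simp only [mem_product, mem_filter, Fintype.mem_piFinset] at hp ⊢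
    refine ⟨⟨fun j => ?_, hp.2⟩, hp.1.1 i⟩
    rcases eq_or_ne j i with rfl | h
    · rw [Function.update_self]; exact hp.1.2
    · rw [Function.update_of_ne h]; exact hp.1.1 j
  · rintro ⟨y, x⟩ hp
    simp
  · rintro ⟨y, x⟩ hp
    simp

end iso

section

variable (F : Type) [Field F] [NumberField F]

/-- the box as a finite set -/
noncomputable def bx (X : ℝ) : Finset (𝓞 F) :=
  open Classical in if h : (bxs F X).Finite then h.toFinset else ∅

theorem mem_bx {X : ℝ} (hX : 0 ≤ X) {x : 𝓞 F} : x ∈ bx F X ↔ x ∈ bxs F X := by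
  classical
  obtain ⟨C, hC, h⟩ := bxs_upper F
  unfold bx
  rw [dif_pos (h X hX).1, Set.Finite.mem_toFinset]

theorem card_bx {X : ℝ} (hX : 0 ≤ X) : (bx F X).card = (bxs F X).ncard := by
  classical
  obtain ⟨C, hC, h⟩ := bxs_upper F
  unfold bx
  rw [dif_pos (h X hX).1]
  exact (Set.ncard_eq_toFinset_card _ _).symm

variable {F} {k : ℕ} {ι : Type} [Fintype ι] [DecidableEq ι]

/-- the entries of the matrix -/
def VV (c : ℕ → ι → 𝓞 F) (N : 𝓞 F) (y : Fin k × ι → 𝓞 F) (m : ℕ) (i : ι) : 𝓞 F :=
  if h : m < k then c m i + N * y (⟨m, h⟩, i) else 0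

/-- the minors of the first `r` rows -/
def mn (c : ℕ → ι → 𝓞 F) (N : 𝓞 F) (y : Fin k × ι → 𝓞 F) (r : ℕ) (f : Fin r → ι) : 𝓞 F :=
  (Matrix.of fun (j l : Fin r) => VV c N y j (f l)).det

variable (c : ℕ → ι → 𝓞 F) (N : 𝓞 F)

theorem mn_zero (y : Fin k × ι → 𝓞 F) (f : Fin 0 → ι) : mn c N y 0 f = 1 := by
  unfold mn
  exact Matrix.det_isEmpty

theorem VV_update_of_ne (y : Fin k × ι → 𝓞 F) (p : Fin k × ι) (x : 𝓞 F) {m : ℕ} {i : ι}
    (h : p.1.val ≠ m ∨ p.2 ≠ i) : VV c N (Function.update y p x) m i = VV c N y m i := by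
  unfold VV
  split_ifs with hm
  · rw [Function.update_of_ne]
    rintro rfl
    rcases h with h | h
    · exact h rfl
    · exact h rfl
  · rfl

theorem mn_update_row (y : Fin k × ι → 𝓞 F) (p : Fin k × ι) (x : 𝓞 F) {r : ℕ} (h : r ≤ p.1.val)
    (f : Fin r → ι) : mn c N (Function.update y p x) r f = mn c N y r f := by
  unfold mn
  congr 1
  ext j l
  have : VV c N (Function.update y p x) j (f l) = VV c N y j (f l) :=
    VV_update_of_ne c N y p x (Or.inl (by have := j.2; omega))
  simp only [Matrix.of_apply]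
  rw [this]

theorem mn_update_col (y : Fin k × ι → 𝓞 F) (p : Fin k × ι) (x : 𝓞 F) {r : ℕ}
    (f : Fin r → ι) (h : ∀ l, f l ≠ p.2) : mn c N (Function.update y p x) r f = mn c N y r f := by
  unfold mn
  congr 1
  ext j l
  have : VV c N (Function.update y p x) j (f l) = VV c N y j (f l) :=
    VV_update_of_ne c N y p x (Or.inr fun h' => h l h'.symm)
  simp only [Matrix.of_apply]
  rw [this]

theorem mn_succ (y : Fin k × ι → 𝓞 F) (r : ℕ) (f : Fin (r + 1) → ι) :
    mn c N y (r + 1) f = ∑ l : Fin (r + 1), (-1) ^ (r + l.val) * VV c N y r (f l) *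
      mn c N y r (fun j => f (l.succAbove j)) := by
  unfold mn
  rw [Matrix.det_succ_row _ (Fin.last r)]
  refine sum_congr rfl fun l _ => ?_
  simp only [Matrix.of_apply, Fin.val_last]
  congr 1
  congr 1
  ext i j
  simp [Matrix.submatrix_apply, Fin.succAbove_last]

/-- a minor as a linear function of one entry of the last row -/
theorem mn_lin (y : Fin k × ι → 𝓞 F) {r : ℕ} (hr : r < k) (f : Fin (r + 1) → ι)
    (hf : Function.Injective f) (l : Fin (r + 1)) :
    ∃ b : 𝓞 F, ∀ x : 𝓞 F, mn c N (Function.update y (⟨r, hr⟩, f l) x) (r + 1) f =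
      ((-1) ^ (r + l.val) * mn c N y r (fun j => f (l.succAbove j))) * (N * x) + b := by
  classical
  refine ⟨(-1) ^ (r + l.val) * c r (f l) * mn c N y r (fun j => f (l.succAbove j)) +
    ∑ m ∈ univ.erase l, (-1) ^ (r + m.val) * VV c N y r (f m) *
      mn c N y r (fun j => f (m.succAbove j)), fun x => ?_⟩
  rw [mn_succ, ← add_sum_erase _ _ (mem_univ l)]
  have h1 : ∀ m : Fin (r + 1), mn c N (Function.update y (⟨r, hr⟩, f l) x) r
      (fun j => f (m.succAbove j)) = mn c N y r (fun j => f (m.succAbove j)) :=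
    fun m => mn_update_row c N y _ x le_rfl _
  have h2 : ∑ m ∈ univ.erase l, (-1) ^ (r + m.val) * VV c N (Function.update y (⟨r, hr⟩, f l) x) r
      (f m) * mn c N (Function.update y (⟨r, hr⟩, f l) x) r (fun j => f (m.succAbove j)) =
      ∑ m ∈ univ.erase l, (-1) ^ (r + m.val) * VV c N y r (f m) *
      mn c N y r (fun j => f (m.succAbove j)) := by
    refine sum_congr rfl fun m hm => ?_
    rw [h1, VV_update_of_ne c N y _ x (Or.inr fun h => (mem_erase.1 hm).1 (hf h).symm)]
  rw [h2, h1]
  have h3 : VV c N (Function.update y (⟨r, hr⟩, f l) x) r (f l) = c r (f l) + N * x := by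
    unfold VV
    rw [dif_pos hr, Function.update_self]
  rw [h3]
  ring

end

section

variable (F : Type) [Field F] [NumberField F]

/-- the number of `x` in a box with `a N x + b` in a prime ideal -/
theorem lin_cnt : ∃ C : ℝ, 1 ≤ C ∧ ∀ (X : ℝ), 1 ≤ X → ∀ (I : Ideal (𝓞 F)), I.IsPrime →
    ∀ (a N b : 𝓞 F), a ∉ I → N ∉ I → ∀ (T : Finset (𝓞 F)), (∀ x ∈ T, x ∈ bxs F X ∧ a * (N * x) + b ∈ I) →
    (T.card : ℝ) ≤ C * (1 + X ^ finrank ℚ F / (Ideal.absNorm I : ℝ)) := by
  classical
  obtain ⟨C, hC, h⟩ := cls F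
  obtain ⟨C', hC', hup⟩ := bxs_upper F
  refine ⟨C, hC, fun X hX I hI a N b ha hN T hT => ?_⟩
  rcases T.eq_empty_or_nonempty with rfl | ⟨x₀, hx₀⟩
  · simp only [card_empty, Nat.cast_zero]
    have : 0 ≤ X ^ finrank ℚ F / (Ideal.absNorm I : ℝ) := by positivity
    nlinarith
  · refine le_trans ?_ (h X hX I x₀)
    have h1 : (T : Set (𝓞 F)) ⊆ {y ∈ bxs F X | y - x₀ ∈ I} := by
      intro x hx
      refine ⟨(hT x hx).1, ?_⟩
      have h2 : a * (N * (x - x₀)) ∈ I := by
        have := I.sub_mem (hT x hx).2 (hT x₀ hx₀).2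
        have e : a * (N * x) + b - (a * (N * x₀) + b) = a * (N * (x - x₀)) := by ring
        rwa [e] at this
      rcases hI.mem_or_mem h2 with h3 | h3
      · exact absurd h3 ha
      · rcases hI.mem_or_mem h3 with h4 | h4
        · exact absurd h4 hN
        · exact h4
    have h2 := Set.ncard_le_ncard h1 ((hup X (by linarith)).1.subset fun y hy => hy.1)
    rw [Set.ncard_coe_finset] at h2
    exact_mod_cast h2

variable {k : ℕ} {ι : Type} [Fintype ι] [DecidableEq ι]

/-- the family of the variables -/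
noncomputable def YS (k : ℕ) (X : ι → ℝ) : Finset (Fin k × ι → 𝓞 F) :=
  open Classical in Fintype.piFinset fun p : Fin k × ι => bx F (X p.2)

/-- the probability that a minor is in a prime ideal -/
theorem prob (k : ℕ) : ∀ r : ℕ, ∃ C : ℝ, 1 ≤ C ∧ ∀ (ι : Type) [Fintype ι] [DecidableEq ι]
    (c : ℕ → ι → 𝓞 F) (N : 𝓞 F) (X : ι → ℝ) (Xm : ℝ), 1 ≤ Xm → (∀ i, Xm ≤ X i) →
    ∀ (I : Ideal (𝓞 F)), I.IsPrime → N ∉ I → r ≤ k → ∀ f : Fin r → ι, Function.Injective f →
    ∀ (T : Finset (Fin k × ι → 𝓞 F)), (∀ y ∈ T, y ∈ YS F k X ∧ mn c N y r f ∈ I) →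
    (T.card : ℝ) ≤ C * (YS F k X).card * (1 / (Ideal.absNorm I : ℝ) + 1 / Xm ^ finrank ℚ F) := by
  classical
  intro r
  obtain ⟨K, hK, hlin⟩ := lin_cnt F
  obtain ⟨c₀, hc₀, hlow⟩ := bxs_lower F
  induction r with
  | zero =>
    refine ⟨1, le_rfl, fun ι _ _ c N X Xm hXm hX I hI hN hr f hf T hT => ?_⟩
    have : T = ∅ := by
      rw [eq_empty_iff_forall_notMem]
      intro y hy
      have h1 := (hT y hy).2
      rw [mn_zero] at h1
      exact hI.ne_top ((Ideal.eq_top_iff_one _).2 h1)
    rw [this]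
    simp only [card_empty, Nat.cast_zero]
    positivity
  | succ r ih =>
    obtain ⟨C, hC, ih⟩ := ih
    refine ⟨C + K / c₀, by have : 0 < K / c₀ := by positivity
                           linarith, fun ι _ _ c N X Xm hXm hX I hI hN hr f hf T hT => ?_⟩
    set e := finrank ℚ F with he
    set i₀ := f 0 with hi₀
    set S := YS F k X with hS
    have hX1 : 1 ≤ X i₀ := hXm.trans (hX i₀)
    set g : Fin r → ι := fun j => f ((0 : Fin (r + 1)).succAbove j) with hg
    have hginj : Function.Injective g := fun a b h => Fin.succAbove_right_injective (hf h)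
    set Q : (Fin k × ι → 𝓞 F) → Prop := fun y => mn c N y r g ∉ I ∧ mn c N y (r + 1) f ∈ I with hQ
    have h1 : T ⊆ (T.filter fun y => mn c N y r g ∈ I) ∪ S.filter Q := by
      intro y hy
      rw [mem_union, mem_filter, mem_filter]
      rcases em (mn c N y r g ∈ I) with h | h
      · exact Or.inl ⟨hy, h⟩
      · exact Or.inr ⟨(hT y hy).1, h, (hT y hy).2⟩
    have h2 := ih ι c N X Xm hXm hX I hI hN (by omega) g hginj (T.filter fun y => mn c N y r g ∈ I)
      fun y hy => ⟨(hT y (mem_filter.1 hy).1).1, (mem_filter.1 hy).2⟩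
    have h3 := iso (fun p : Fin k × ι => bx F (X p.2)) (⟨r, by omega⟩, i₀) Q
    have h4 : ∀ y ∈ S, ((((bx F (X i₀)).filter fun x =>
        Q (Function.update y (⟨r, by omega⟩, i₀) x)).card : ℕ) : ℝ) ≤
        K * (1 + X i₀ ^ e / (Ideal.absNorm I : ℝ)) := by
      intro y _
      obtain ⟨b, hb⟩ := mn_lin c N y (show r < k by omega) f hf 0
      rcases em (mn c N y r g ∈ I) with h | h
      · have : ((bx F (X i₀)).filter fun x => Q (Function.update y (⟨r, by omega⟩, i₀) x)) = ∅ := by
          rw [eq_empty_iff_forall_notMem]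
          intro x hx
          have h5 := (mem_filter.1 hx).2.1
          rw [mn_update_row c N y _ x le_rfl] at h5
          exact h5 h
        rw [this]
        simp only [card_empty, Nat.cast_zero]
        positivity
      · refine hlin (X i₀) hX1 I hI ((-1) ^ (r + (0 : Fin (r + 1)).val) * mn c N y r g) N b ?_ hN _ ?_
        · intro h5
          rcases hI.mem_or_mem h5 with h6 | h6
          · have h7 : ((-1 : 𝓞 F)) ^ (r + (0 : Fin (r + 1)).val) * (-1) ^ (r + (0 : Fin (r + 1)).val) = 1 := by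
              rw [← mul_pow]
              norm_num
            have h8 := I.mul_mem_right ((-1) ^ (r + (0 : Fin (r + 1)).val)) h6
            rw [h7] at h8
            exact hI.ne_top ((Ideal.eq_top_iff_one _).2 h8)
          · exact h h6
        · intro x hx
          rw [mem_filter] at hx
          refine ⟨(mem_bx F (by linarith)).1 hx.1, ?_⟩
          have h5 := hx.2.2
          rw [hb x] at h5
          exact h5
    have h5 : ((S.filter Q).card : ℝ) * ((bx F (X i₀)).card : ℝ) ≤
        S.card * (K * (1 + X i₀ ^ e / (Ideal.absNorm I : ℝ))) := by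
      have h6 : (((S.filter Q).card * (bx F (X i₀)).card : ℕ) : ℝ) =
          ∑ y ∈ S, ((((bx F (X i₀)).filter fun x =>
        Q (Function.update y (⟨r, by omega⟩, i₀) x)).card : ℕ) : ℝ) := by
        have h7 := congrArg (fun n : ℕ => (n : ℝ)) h3
        simp only at h7
        rw [Nat.cast_sum] at h7
        exact h7
      rw [Nat.cast_mul] at h6
      rw [h6]
      refine (sum_le_sum h4).trans ?_
      rw [sum_const, nsmul_eq_mul]
    have h6 : c₀ * X i₀ ^ e ≤ ((bx F (X i₀)).card : ℝ) := by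
      rw [card_bx F (by linarith)]
      exact hlow _ hX1
    have hXe : 0 < X i₀ ^ e := by positivity
    have h7 : ((S.filter Q).card : ℝ) ≤ K / c₀ * S.card * (1 / (Ideal.absNorm I : ℝ) + 1 / Xm ^ e) := by
      have h8 : ((S.filter Q).card : ℝ) * (c₀ * X i₀ ^ e) ≤
          S.card * (K * (1 + X i₀ ^ e / (Ideal.absNorm I : ℝ))) :=
        (mul_le_mul_of_nonneg_left h6 (Nat.cast_nonneg _)).trans h5
      have h9 : ((S.filter Q).card : ℝ) ≤ K / c₀ * S.card * (1 / (Ideal.absNorm I : ℝ) + 1 / X i₀ ^ e) := by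
        rw [← mul_le_mul_iff_left₀ (show 0 < c₀ * X i₀ ^ e by positivity)]
        refine h8.trans (le_of_eq ?_)
        rcases eq_or_ne (Ideal.absNorm I : ℝ) 0 with h10 | h10
        · rw [h10]
          field_simp
          simp
        · field_simp
          ring
      refine h9.trans (mul_le_mul_of_nonneg_left ?_ (by positivity))
      have h10 : Xm ^ e ≤ X i₀ ^ e := pow_le_pow_left₀ (by linarith) (hX i₀) _
      have h11 : 1 / X i₀ ^ e ≤ 1 / Xm ^ e := one_div_le_one_div_of_le (by positivity) h10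
      linarith
    have h8 : (T.card : ℝ) ≤ ((T.filter fun y => mn c N y r g ∈ I).card : ℝ) + ((S.filter Q).card : ℝ) := by
      have := (card_le_card h1).trans (card_union_le _ _)
      exact_mod_cast this
    calc (T.card : ℝ) ≤ _ := h8
      _ ≤ C * S.card * (1 / (Ideal.absNorm I : ℝ) + 1 / Xm ^ e) +
          K / c₀ * S.card * (1 / (Ideal.absNorm I : ℝ) + 1 / Xm ^ e) := add_le_add h2 h7
      _ = _ := by ring

end

end Run7.h3.OM
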