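import Pool.Agent.Run7.h3.OM.Mat

set_option autoImplicit false
set_option linter.unusedSectionVars false
set_option linter.unusedVariables false

/-! Zeros of polynomials in boxes. -/

namespace Run7.h3.OM

open Finset Module NumberField Run7.h3.GT

section

theorem sz {κ R : Type} [Fintype κ] [DecidableEq κ] [Field R] [DecidableEq R]
    (G : MvPolynomial κ R) (hG : G ≠ 0) : ∃ D : ℕ, ∀ (S : κ → Finset R) (m : ℝ), 0 < m →
      (∀ i, m ≤ ((S i).card : ℝ)) →
      (((Fintype.piFinset S).filter fun x => MvPolynomial.eval x G = 0).card : ℝ) ≤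
        D / m * ∏ i, ((S i).card : ℝ) := by
  classical
  set e := Fintype.equivFin κ with he
  set p := MvPolynomial.rename e G with hp
  have hp0 : p ≠ 0 := by
    intro h
    apply hG
    apply MvPolynomial.rename_injective e e.injective
    rw [map_zero]
    exact h
  refine ⟨∑ i, p.degreeOf i, fun S m hm hS => ?_⟩
  have h1 := MvPolynomial.schwartz_zippel_sum_degreeOf hp0 fun i => S (e.symm i)
  have h2 := (NNRat.cast_le (K := ℝ)).2 h1
  push_cast at h2
  have h3 : (((Fintype.piFinset fun i => S (e.symm i)).filter fun x =>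
      MvPolynomial.eval x p = 0).card) =
      (((Fintype.piFinset S).filter fun x => MvPolynomial.eval x G = 0).card) := by
    refine card_bij' (fun x _ => fun i => x (e i)) (fun x _ => fun i => x (e.symm i)) ?_ ?_ ?_ ?_
    · intro x hx
      rw [mem_filter, Fintype.mem_piFinset] at hx ⊢
      refine ⟨fun i => ?_, ?_⟩
      · have := hx.1 (e i)
        rwa [e.symm_apply_apply] at this
      · have h4 := hx.2
        rw [hp, MvPolynomial.eval_rename] at h4
        exact h4
    · intro x hx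
      rw [mem_filter, Fintype.mem_piFinset] at hx ⊢
      refine ⟨fun i => hx.1 (e.symm i), ?_⟩
      rw [hp, MvPolynomial.eval_rename]
      have h4 : (fun i => x (e.symm i)) ∘ e = x := by
        funext i
        simp
      rw [h4]
      exact hx.2
    · intro x hx
      funext i
      simp
    · intro x hx
      funext i
      simp
  have h4 : ∏ i, ((S (e.symm i)).card : ℝ) = ∏ i, ((S i).card : ℝ) :=
    e.symm.prod_comp (fun i => ((S i).card : ℝ))
  have h5 : 0 < ∏ i, ((S i).card : ℝ) := prod_pos fun i _ => hm.trans_le (hS i)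
  rw [h3, h4, div_le_iff₀ h5] at h2
  refine h2.trans (mul_le_mul_of_nonneg_right ?_ h5.le)
  push_cast
  rw [sum_div]
  exact sum_le_sum fun i _ => div_le_div_of_nonneg_left (Nat.cast_nonneg _) hm (hS _)

end

section

variable (F : Type) [Field F] [NumberField F] {ι s : Type} [Fintype ι] [DecidableEq ι]
  [Fintype s] [DecidableEq s] {k : ℕ}

theorem szV (G : MvPolynomial (Fin k × ι) F) (hG : G ≠ 0) : ∃ D : ℕ,
    ∀ (A : Matrix (Fin k) ι ℤ) (ρ : ι → ℕ) (N : ℕ) (X : ι → ℝ) (m : ℝ), 0 < N → 0 < m →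
      (∀ i, m ≤ ((bx F (X i)).card : ℝ)) →
      ∀ T : Finset (Fin k × ι → 𝓞 F), (∀ y ∈ T, y ∈ YS F k X ∧
        MvPolynomial.eval (fun p => ((VM A ρ N y p.1 p.2 : 𝓞 F) : F)) G = 0) →
      (T.card : ℝ) ≤ D / m * (YS F k X).card := by
  classical
  obtain ⟨D, hD⟩ := sz G hG
  refine ⟨D, fun A ρ N X m hN hm hX T hT => ?_⟩
  set φ : Fin k × ι → 𝓞 F → F := fun p z =>
    ((((A p.1 p.2 : ℤ) : 𝓞 F) * (ρ p.2 : 𝓞 F) + (N : 𝓞 F) * z : 𝓞 F) : F) with hφ
  have hN0 : (N : 𝓞 F) ≠ 0 := by exact_mod_cast hN.ne'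
  have hφi : ∀ p, Function.Injective (φ p) := by
    intro p z z' h
    have h1 : ((A p.1 p.2 : ℤ) : 𝓞 F) * (ρ p.2 : 𝓞 F) + (N : 𝓞 F) * z =
        ((A p.1 p.2 : ℤ) : 𝓞 F) * (ρ p.2 : 𝓞 F) + (N : 𝓞 F) * z' := RingOfIntegers.ext h
    exact mul_left_cancel₀ hN0 (add_left_cancel h1)
  have h1 := hD (fun p => (bx F (X p.2)).image (φ p)) m hm fun p => by
    rw [card_image_of_injective _ (hφi p)]
    exact hX _
  have h2 : ∏ p : Fin k × ι, ((((bx F (X p.2)).image (φ p)).card : ℕ) : ℝ) = (YS F k X).card := by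
    rw [YS, Fintype.card_piFinset]
    push_cast
    exact prod_congr rfl fun p _ => by rw [card_image_of_injective _ (hφi p)]
  rw [h2] at h1
  refine le_trans ?_ h1
  have h3 : T.card ≤ (((Fintype.piFinset fun p => (bx F (X p.2)).image (φ p)).filter fun x =>
      MvPolynomial.eval x G = 0).card) := by
    refine card_le_card_of_injOn (fun y p => φ p (y p)) (fun y hy => ?_) (fun y _ y' _ h => ?_)
    · rw [mem_coe, mem_filter, Fintype.mem_piFinset]
      obtain ⟨h4, h5⟩ := hT y hy
      rw [YS, Fintype.mem_piFinset] at h4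
      exact ⟨fun p => mem_image_of_mem _ (h4 p), h5⟩
    · funext p
      exact hφi p (congrFun h p)
  exact_mod_cast h3

end

end Run7.h3.OM
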